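import Mathlib

set_option autoImplicit false
set_option linter.unusedSectionVars false
set_option linter.unusedVariables false

namespace Pool.Agent.Lib.MP_8870f3_co

open Finset

/-- `Tile E S`: the finite set `S` is a disjoint union of sets satisfying `E`. -/
inductive Tile {V : Type} [DecidableEq V] (E : Finset V → Prop) : Finset V → Prop
  | empty : Tile E ∅
  | add (S T : Finset V) : Tile E S → E T → Disjoint S T → Tile E (S ∪ T)

section
variable {V : Type} [DecidableEq V] {E : Finset V → Prop}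

theorem Tile.single {T : Finset V} (h : E T) : Tile E T := by
  have := Tile.add (E := E) ∅ T Tile.empty h (by simp)
  simpa using this

theorem Tile.union {A B : Finset V} (hA : Tile E A) (hB : Tile E B) (hd : Disjoint A B) :
    Tile E (A ∪ B) := by
  induction hB with
  | empty => simpa using hA
  | add S T hS hT hST ih =>
    rw [← Finset.union_assoc]
    rw [Finset.disjoint_union_right] at hd
    exact Tile.add _ _ (ih hd.1) hT (Finset.disjoint_union_left.mpr ⟨hd.2, hST⟩)

theorem Tile.mono {E' : Finset V → Prop} (h : ∀ T, E T → E' T) {A : Finset V} (hA : Tile E A) :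
    Tile E' A := by
  induction hA with
  | empty => exact Tile.empty
  | add S T hS hT hST ih => exact Tile.add _ _ ih (h T hT) hST

theorem Tile.dvd_card {t : ℕ} (hE : ∀ T, E T → T.card = t) {A : Finset V} (hA : Tile E A) :
    t ∣ A.card := by
  induction hA with
  | empty => simp
  | add S T hS hT hST ih =>
    rw [Finset.card_union_of_disjoint hST, hE T hT]
    exact Dvd.dvd.add ih (dvd_refl t)

theorem Tile.exists_family {A : Finset V} (hA : Tile E A) :
    ∃ F : Set (Finset V), (∀ T ∈ F, E T ∧ T ⊆ A) ∧ ∀ v ∈ A, ∃! T, T ∈ F ∧ v ∈ T := by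
  induction hA with
  | empty => exact ⟨∅, by simp, by simp⟩
  | add S T hS hT hST ih =>
    obtain ⟨F, hF1, hF2⟩ := ih
    refine ⟨insert T F, ?_, ?_⟩
    · intro T' hT'
      rcases hT' with rfl | hT'
      · exact ⟨hT, Finset.subset_union_right⟩
      · exact ⟨(hF1 T' hT').1, (hF1 T' hT').2.trans Finset.subset_union_left⟩
    · intro v hv0
      rcases Finset.mem_union.mp hv0 with hv | hv
      · obtain ⟨T0, ⟨h1, h2⟩, h3⟩ := hF2 v hv
        refine ⟨T0, ⟨Or.inr h1, h2⟩, ?_⟩
        rintro T1 ⟨h4, h5⟩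
        rcases h4 with rfl | h4
        · exact absurd h5 (Finset.disjoint_left.mp hST hv)
        · exact h3 T1 ⟨h4, h5⟩
      · refine ⟨T, ⟨Or.inl rfl, hv⟩, ?_⟩
        rintro T1 ⟨h4, h5⟩
        rcases h4 with rfl | h4
        · rfl
        · exact absurd hv (Finset.disjoint_left.mp hST ((hF1 T1 h4).2 h5))

theorem exp_step (y s l H : ℝ) (hl : 0 < l) (hs : |s| ≤ H) (hlH : l * H ≤ 1) :
    Real.exp (l * (y - s)) ≤
      Real.exp (l * y) * (1 + l ^ 2 * H ^ 2) - l * (Real.exp (l * y) * s) := by
  have h1 : |(-(l * s))| ≤ 1 := by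
    rw [abs_neg, abs_mul, abs_of_pos hl]
    exact le_trans (mul_le_mul_of_nonneg_left hs hl.le) hlH
  have h2 := Real.abs_exp_sub_one_sub_id_le h1
  have h3 : Real.exp (-(l * s)) ≤ 1 - l * s + (l * s) ^ 2 := by
    have := (abs_le.mp h2).2
    nlinarith
  have h4 : (l * s) ^ 2 ≤ l ^ 2 * H ^ 2 := by
    rw [mul_pow]
    apply mul_le_mul_of_nonneg_left _ (by positivity)
    rw [← sq_abs s]
    exact pow_le_pow_left₀ (abs_nonneg _) hs 2
  have h5 : Real.exp (l * (y - s)) = Real.exp (l * y) * Real.exp (-(l * s)) := by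
    rw [← Real.exp_add]
    congr 1
    ring
  rw [h5]
  have h6 := Real.exp_pos (l * y)
  nlinarith

/-- Derandomised greedy removal of allowed sets keeping a family of linear tests balanced. -/
theorem greedy {t : ℕ} (ht : 1 ≤ t) (hE : ∀ T, E T → T.card = t) {ι : Type} (J : Finset ι)
    (f : ι → V → ℝ)
    (R : Finset V) (hf : ∀ j ∈ J, ∀ v ∈ R, |f j v| ≤ 1) (hf0 : ∀ j ∈ J, ∑ v ∈ R, f j v = 0)
    (l L : ℝ) (hl : 0 < l) (hlH : l * t ≤ 1)
    (hL : 2 * J.card * Real.exp (l ^ 2 * (t : ℝ) ^ 2 * R.card) ≤ Real.exp (l * L))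
    (n1 : ℕ)
    (hdual : ∀ W ⊆ R, n1 < W.card → (∀ j ∈ J, |∑ v ∈ W, f j v| ≤ L) →
      ∀ w : V → ℝ, 0 ≤ ∑ v ∈ W, w v → ∃ S ⊆ W, E S ∧ 0 ≤ ∑ v ∈ S, w v) :
    ∃ W ⊆ R, Tile E (R \ W) ∧ W.card ≤ n1 := by
  set H : ℝ := (t : ℝ) with hH
  let Φ : Finset V → ℝ := fun W =>
    ∑ j ∈ J, (Real.exp (l * ∑ v ∈ W, f j v) + Real.exp (l * -(∑ v ∈ W, f j v)))
  have good : ∀ (W : Finset V) (i : ℕ), i ≤ R.card →
      Φ W ≤ 2 * J.card * (1 + l ^ 2 * H ^ 2) ^ i → ∀ j ∈ J, |∑ v ∈ W, f j v| ≤ L := by
    intro W i hi hΦ j hj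
    have a1 : (1 + l ^ 2 * H ^ 2) ^ i ≤ Real.exp (l ^ 2 * H ^ 2 * R.card) := by
      calc (1 + l ^ 2 * H ^ 2) ^ i ≤ (Real.exp (l ^ 2 * H ^ 2)) ^ i := by
            apply pow_le_pow_left₀ (by positivity)
            have := Real.add_one_le_exp (l ^ 2 * H ^ 2)
            linarith
        _ = Real.exp (l ^ 2 * H ^ 2 * i) := by rw [← Real.exp_nat_mul]; congr 1; ring
        _ ≤ _ := by
            apply Real.exp_le_exp.mpr
            apply mul_le_mul_of_nonneg_left _ (by positivity)
            exact_mod_cast hi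
    have a2 : Φ W ≤ Real.exp (l * L) := by
      refine le_trans hΦ (le_trans ?_ hL)
      apply mul_le_mul_of_nonneg_left a1 (by positivity)
    have a3 : Real.exp (l * ∑ v ∈ W, f j v) + Real.exp (l * -(∑ v ∈ W, f j v)) ≤ Φ W := by
      apply Finset.single_le_sum (f := fun j =>
        Real.exp (l * ∑ v ∈ W, f j v) + Real.exp (l * -(∑ v ∈ W, f j v))) _ hj
      intro i _
      positivity
    have p1 := Real.exp_pos (l * ∑ v ∈ W, f j v)
    have p2 := Real.exp_pos (l * -(∑ v ∈ W, f j v))
    have a4 : l * ∑ v ∈ W, f j v ≤ l * L := Real.exp_le_exp.mp (by linarith)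
    have a5 : l * -(∑ v ∈ W, f j v) ≤ l * L := Real.exp_le_exp.mp (by linarith)
    rw [abs_le]
    constructor
    · have := le_of_mul_le_mul_left a5 hl
      linarith
    · exact le_of_mul_le_mul_left a4 hl
  have main : ∀ i : ℕ, (∃ W ⊆ R, Tile E (R \ W) ∧ W.card ≤ n1) ∨
      ∃ W ⊆ R, Tile E (R \ W) ∧ W.card + i ≤ R.card ∧
        Φ W ≤ 2 * J.card * (1 + l ^ 2 * H ^ 2) ^ i := by
    intro i
    induction i with
    | zero =>
      right
      refine ⟨R, Finset.Subset.refl _, by simpa using Tile.empty, by simp, ?_⟩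
      have : Φ R = 2 * J.card := by
        simp only [Φ]
        rw [Finset.sum_congr rfl (g := fun _ => (2 : ℝ))]
        · simp [mul_comm]
        · intro j hj
          rw [hf0 j hj]
          norm_num
      rw [this]
      simp
    | succ i ih =>
      rcases ih with ih | ⟨W, hWR, hW, hWc, hΦ⟩
      · exact Or.inl ih
      by_cases hsmall : W.card ≤ n1
      · exact Or.inl ⟨W, hWR, hW, hsmall⟩
      right
      have hiR : i ≤ R.card := by omega
      have hg := good W i hiR hΦ
      let w : V → ℝ := fun v => ∑ j ∈ J,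
        (Real.exp (l * ∑ u ∈ W, f j u) - Real.exp (l * -(∑ u ∈ W, f j u))) * f j v
      have hsumw : ∀ S : Finset V, ∑ v ∈ S, w v = ∑ j ∈ J,
          (Real.exp (l * ∑ u ∈ W, f j u) - Real.exp (l * -(∑ u ∈ W, f j u))) *
            ∑ v ∈ S, f j v := by
        intro S
        simp only [w]
        rw [Finset.sum_comm]
        apply Finset.sum_congr rfl
        intro j _
        exact (Finset.mul_sum _ _ _).symm
      have hw0 : 0 ≤ ∑ v ∈ W, w v := by
        rw [hsumw]
        apply Finset.sum_nonneg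
        intro j _
        set y := ∑ u ∈ W, f j u
        rcases le_total 0 y with hy | hy
        · apply mul_nonneg _ hy
          have : Real.exp (l * -y) ≤ Real.exp (l * y) :=
            Real.exp_le_exp.mpr (by nlinarith)
          linarith
        · apply mul_nonneg_of_nonpos_of_nonpos _ hy
          have : Real.exp (l * y) ≤ Real.exp (l * -y) :=
            Real.exp_le_exp.mpr (by nlinarith)
          linarith
      obtain ⟨S, hSW, hSB, hS0⟩ := hdual W hWR (by omega) hg w hw0
      have hSc : S.card = t := hE S hSB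
      refine ⟨W \ S, Finset.sdiff_subset.trans hWR, ?_, ?_, ?_⟩
      · have e : R \ (W \ S) = (R \ W) ∪ S := by
          ext v
          simp only [Finset.mem_sdiff, Finset.mem_union]
          constructor
          · rintro ⟨h1, h2⟩
            by_cases h3 : v ∈ S
            · exact Or.inr h3
            · left
              refine ⟨h1, fun h4 => h2 ⟨h4, h3⟩⟩
          · rintro (⟨h1, h2⟩ | h1)
            · exact ⟨h1, fun h3 => h2 h3.1⟩
            · exact ⟨hWR (hSW h1), fun h3 => h3.2 h1⟩
        rw [e]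
        refine Tile.add _ _ hW hSB ?_
        rw [Finset.disjoint_left]
        intro v hv hvS
        exact (Finset.mem_sdiff.mp hv).2 (hSW hvS)
      · rw [Finset.card_sdiff_of_subset hSW]
        have := Finset.card_le_card hSW
        omega
      · have b1 : Φ (W \ S) ≤ Φ W * (1 + l ^ 2 * H ^ 2) - l * ∑ v ∈ S, w v := by
          rw [hsumw]
          simp only [Φ]
          rw [Finset.sum_mul, Finset.mul_sum, ← Finset.sum_sub_distrib]
          apply Finset.sum_le_sum
          intro j hj
          rw [Finset.sum_sdiff_eq_sub hSW]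
          set y := ∑ u ∈ W, f j u
          set s := ∑ u ∈ S, f j u with hs
          have hsH : |s| ≤ H := by
            calc |s| ≤ ∑ u ∈ S, |f j u| := Finset.abs_sum_le_sum_abs _ _
              _ ≤ ∑ _u ∈ S, (1 : ℝ) :=
                Finset.sum_le_sum (fun u hu => hf j hj u (hWR (hSW hu)))
              _ = H := by simp [hSc, hH]
          have c1 := exp_step y s l H hl hsH hlH
          have c2 := exp_step (-y) (-s) l H hl (by rwa [abs_neg]) hlH
          have e : -(y - s) = -y - -s := by ring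
          rw [e]
          linarith
        have b2 : 0 ≤ l * ∑ v ∈ S, w v := mul_nonneg hl.le hS0
        have b3 : Φ W * (1 + l ^ 2 * H ^ 2)
            ≤ 2 * J.card * (1 + l ^ 2 * H ^ 2) ^ i * (1 + l ^ 2 * H ^ 2) :=
          mul_le_mul_of_nonneg_right hΦ (by positivity)
        rw [pow_succ, ← mul_assoc]
        linarith
  rcases main (R.card + 1) with h | ⟨W, _, _, h, _⟩
  · exact h
  · omega

end

end Pool.Agent.Lib.MP_8870f3_co
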