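import Mathlib
import Pool.Agent.Lib.MP_8870f3_co.Greedy

set_option autoImplicit false
set_option linter.unusedSectionVars false
set_option linter.unusedVariables false

namespace Pool.Agent.Lib.MP_8870f3_co

open Finset

open Classical in
/-- `Rich X c j P`: there are at least `c` first choices in `X`, for each at least `c` second
choices, and so on `j` times, such that the chosen list satisfies `P`. -/
def Rich {V : Type} (X : Finset V) (c : ℕ) : ℕ → (List V → Prop) → Prop
  | 0, P => P []
  | j + 1, P => c ≤ (X.filter (fun x => Rich X c j (fun l => P (x :: l)))).card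

section
variable {V : Type} [DecidableEq V] {X : Finset V} {c : ℕ}

theorem Rich.zero_iff {P : List V → Prop} : Rich X c 0 P ↔ P [] := Iff.rfl

theorem Rich.succ_of {j : ℕ} {P : List V → Prop} (Y : Finset V) (hY : Y ⊆ X) (hc : c ≤ Y.card)
    (h : ∀ x ∈ Y, Rich X c j (fun l => P (x :: l))) : Rich X c (j + 1) P := by
  classical
  unfold Rich
  refine le_trans hc (Finset.card_le_card ?_)
  intro x hx
  simp only [Finset.mem_filter]
  exact ⟨hY hx, h x hx⟩

theorem Rich.succ_elim {j : ℕ} {P : List V → Prop} (h : Rich X c (j + 1) P) :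
    ∃ Y : Finset V, Y ⊆ X ∧ c ≤ Y.card ∧ ∀ x ∈ Y, Rich X c j (fun l => P (x :: l)) := by
  classical
  unfold Rich at h
  refine ⟨_, Finset.filter_subset _ _, h, ?_⟩
  intro x hx
  exact (Finset.mem_filter.mp hx).2

theorem Rich.mono {j : ℕ} {P Q : List V → Prop}
    (hPQ : ∀ l : List V, l.length = j → (∀ x ∈ l, x ∈ X) → P l → Q l) (h : Rich X c j P) :
    Rich X c j Q := by
  induction j generalizing P Q with
  | zero => exact hPQ [] rfl (by simp) h
  | succ j ih =>
    obtain ⟨Y, hY, hc, hR⟩ := h.succ_elim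
    refine Rich.succ_of Y hY hc ?_
    intro x hx
    refine ih ?_ (hR x hx)
    intro l hl hX hP
    refine hPQ (x :: l) (by simp [hl]) ?_ hP
    intro z hz
    rcases List.mem_cons.mp hz with rfl | hz
    · exact hY hx
    · exact hX z hz

theorem Rich.bind {i j : ℕ} {R : List V → Prop}
    (h : Rich X c i (fun l1 => Rich X c j (fun l2 => R (l1 ++ l2)))) : Rich X c (j + i) R := by
  induction i generalizing R with
  | zero => simpa [Rich] using h
  | succ i ih =>
    obtain ⟨Y, hY, hc, hR⟩ := h.succ_elim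
    refine Rich.succ_of (j := j + i) Y hY hc ?_
    intro x hx
    exact ih (R := fun l => R (x :: l)) (hR x hx)

theorem Rich.avoid {j : ℕ} {P : List V → Prop} (Z : Finset V) (h : Rich X c j P) :
    Rich X (c - Z.card) j (fun l => P l ∧ ∀ x ∈ l, x ∉ Z) := by
  induction j generalizing P with
  | zero => exact ⟨h, by simp⟩
  | succ j ih =>
    obtain ⟨Y, hY, hc, hR⟩ := h.succ_elim
    refine Rich.succ_of (Y \ Z) (Finset.sdiff_subset.trans hY) ?_ ?_
    · have := Finset.le_card_sdiff Z Y
      omega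
    · intro x hx
      refine (ih (hR x (Finset.mem_sdiff.mp hx).1)).mono ?_
      intro l _ _ hl
      refine ⟨hl.1, ?_⟩
      intro z hz
      rcases List.mem_cons.mp hz with rfl | hz
      · exact (Finset.mem_sdiff.mp hx).2
      · exact hl.2 z hz

open Classical in
/-- Averaging: one list that is good for a fixed fraction of the weight. -/
theorem select {τ : Type} (j : ℕ) (hcX : c ≤ X.card) (ω : τ → ℝ) (hω : ∀ T, 0 ≤ ω T) :
    ∀ (𝒯 : Finset τ) (P : τ → List V → Prop) (Z : Finset V),
      (∀ T ∈ 𝒯, Rich X c j (P T)) → 2 * (Z.card + j) ≤ c →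
      ∃ l : List V, l.length = j ∧ l.Nodup ∧ (∀ x ∈ l, x ∈ X ∧ x ∉ Z) ∧
        ((c : ℝ) / (2 * X.card)) ^ j * ∑ T ∈ 𝒯, ω T ≤ ∑ T ∈ 𝒯.filter (fun T => P T l), ω T := by
  induction j with
  | zero =>
    intro 𝒯 P Z hP _
    refine ⟨[], rfl, List.nodup_nil, by simp, ?_⟩
    rw [Finset.filter_true_of_mem (p := fun T => P T []) (fun T hT => hP T hT)]
    simp
  | succ j ih =>
    intro 𝒯 P Z hP hc
    let good : τ → V → Prop := fun T x => Rich X c j (fun l => P T (x :: l))
    have hXpos : 0 < X.card := by omega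
    have hXZ : (X \ Z).Nonempty := by
      rw [← Finset.card_pos]
      have := Finset.le_card_sdiff Z X
      omega
    have hsum : ((c : ℝ) / 2) * ∑ T ∈ 𝒯, ω T ≤
        ∑ x ∈ X \ Z, ∑ T ∈ 𝒯.filter (fun T => good T x), ω T := by
      have e : ∑ x ∈ X \ Z, ∑ T ∈ 𝒯.filter (fun T => good T x), ω T =
          ∑ T ∈ 𝒯, ((((X \ Z).filter (fun x => good T x)).card : ℝ) * ω T) := by
        simp only [Finset.sum_filter]
        rw [Finset.sum_comm]
        apply Finset.sum_congr rfl
        intro T _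
        rw [← Finset.sum_filter]
        simp
      rw [e, Finset.mul_sum]
      apply Finset.sum_le_sum
      intro T hT
      apply mul_le_mul_of_nonneg_right _ (hω T)
      obtain ⟨Y, hY, hcY, hR⟩ := (hP T hT).succ_elim
      have h1 : Y \ Z ⊆ (X \ Z).filter (fun x => good T x) := by
        intro x hx
        rw [Finset.mem_sdiff] at hx
        simp only [Finset.mem_filter, Finset.mem_sdiff]
        exact ⟨⟨hY hx.1, hx.2⟩, hR x hx.1⟩
      have h2 := Finset.card_le_card h1
      have h3 := Finset.le_card_sdiff Z Y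
      have h4 : c ≤ 2 * ((X \ Z).filter (fun x => good T x)).card := by omega
      have h5 : (c : ℝ) ≤ 2 * (((X \ Z).filter (fun x => good T x)).card : ℝ) := by
        exact_mod_cast h4
      linarith
    have hW : 0 ≤ ∑ T ∈ 𝒯, ω T := Finset.sum_nonneg (fun T _ => hω T)
    have hex : ∃ x ∈ X \ Z, ((c : ℝ) / (2 * X.card)) * ∑ T ∈ 𝒯, ω T ≤
        ∑ T ∈ 𝒯.filter (fun T => good T x), ω T := by
      apply Finset.exists_le_of_sum_le hXZ
      refine le_trans ?_ hsum
      rw [Finset.sum_const, nsmul_eq_mul]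
      have h1 : (((X \ Z).card : ℕ) : ℝ) ≤ X.card := by
        exact_mod_cast Finset.card_le_card Finset.sdiff_subset
      have h2 : (0 : ℝ) < X.card := by exact_mod_cast hXpos
      calc (((X \ Z).card : ℕ) : ℝ) * (((c : ℝ) / (2 * X.card)) * ∑ T ∈ 𝒯, ω T)
          ≤ (X.card : ℝ) * (((c : ℝ) / (2 * X.card)) * ∑ T ∈ 𝒯, ω T) :=
            mul_le_mul_of_nonneg_right h1 (by positivity)
        _ = ((c : ℝ) / 2) * ∑ T ∈ 𝒯, ω T := by field_simp
    obtain ⟨x, hx, hxw⟩ := hex
    rw [Finset.mem_sdiff] at hx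
    obtain ⟨l, hl1, hl2, hl3, hl4⟩ := ih (𝒯.filter (fun T => good T x))
      (fun T l => P T (x :: l)) (insert x Z)
      (fun T hT => (Finset.mem_filter.mp hT).2)
      (by rw [Finset.card_insert_of_notMem hx.2]; omega)
    refine ⟨x :: l, by simp [hl1], ?_, ?_, ?_⟩
    · rw [List.nodup_cons]
      refine ⟨fun h => (hl3 x h).2 (Finset.mem_insert_self _ _), hl2⟩
    · intro z hz
      rcases List.mem_cons.mp hz with rfl | hz
      · exact hx
      · exact ⟨(hl3 z hz).1, fun h => (hl3 z hz).2 (Finset.mem_insert_of_mem h)⟩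
    · calc ((c : ℝ) / (2 * X.card)) ^ (j + 1) * ∑ T ∈ 𝒯, ω T
          = ((c : ℝ) / (2 * X.card)) ^ j * (((c : ℝ) / (2 * X.card)) * ∑ T ∈ 𝒯, ω T) := by ring
        _ ≤ ((c : ℝ) / (2 * X.card)) ^ j * ∑ T ∈ 𝒯.filter (fun T => good T x), ω T :=
          mul_le_mul_of_nonneg_left hxw (by positivity)
        _ ≤ _ := hl4
        _ ≤ _ := by
          apply Finset.sum_le_sum_of_subset_of_nonneg
          · intro T hT
            simp only [Finset.mem_filter] at hT ⊢
            exact ⟨hT.1.1, hT.2⟩
          · intro T _ _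
            exact hω T

open Classical in
/-- A family of `q` disjoint sets such that every index has many good members. -/
theorem absorbing_family {τ : Type} (s : ℕ) (hs : 1 ≤ s) (hcX : c ≤ X.card) (𝒯 : Finset τ)
    (h𝒯 : 𝒯.Nonempty) (good : τ → Finset V → Prop)
    (hP : ∀ T ∈ 𝒯, Rich X c s (fun l => l.Nodup → good T l.toFinset)) (q : ℕ)
    (hq : 2 * (q * s) ≤ c) :
    ∃ 𝓜 : Finset (Finset V), (∀ M ∈ 𝓜, M ⊆ X ∧ ∃ T ∈ 𝒯, good T M) ∧
      (∀ M ∈ 𝓜, ∀ M' ∈ 𝓜, M ≠ M' → Disjoint M M') ∧ (𝓜.biUnion id).card ≤ q * s ∧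
      ∑ T ∈ 𝒯, Real.exp (-((𝓜.filter (fun M => good T M)).card : ℝ)) ≤
        𝒯.card * (1 - ((c : ℝ) / (2 * X.card)) ^ s / 2) ^ q := by
  set κ : ℝ := ((c : ℝ) / (2 * X.card)) ^ s with hκ
  induction q with
  | zero => exact ⟨∅, by simp, by simp, by simp, by simp⟩
  | succ q ih =>
    have e0 : (q + 1) * s = q * s + s := by ring
    obtain ⟨𝓜, h1, h2, h3, h4⟩ := ih (by omega)
    have hc0 : 0 < c := by omega
    have hXpos : (0 : ℝ) < X.card := by exact_mod_cast (by omega : 0 < X.card)
    have hκ0 : 0 < κ := by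
      have : (0 : ℝ) < c := by exact_mod_cast hc0
      positivity
    have hκ1 : κ ≤ 1 := by
      apply pow_le_one₀ (by positivity)
      rw [div_le_one (by positivity)]
      have : (c : ℝ) ≤ X.card := by exact_mod_cast hcX
      linarith
    let ω : τ → ℝ := fun T => Real.exp (-((𝓜.filter (fun M => good T M)).card : ℝ))
    have hω : ∀ T, 0 < ω T := fun T => Real.exp_pos _
    obtain ⟨l, hl1, hl2, hl3, hl4⟩ := select (X := X) (c := c) s hcX ω (fun T => (hω T).le) 𝒯
      (fun T l => l.Nodup → good T l.toFinset) (𝓜.biUnion id) hP (by omega)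
    replace hl4 : κ * ∑ T ∈ 𝒯, ω T ≤ ∑ T ∈ 𝒯.filter (fun T => good T l.toFinset), ω T := by
      refine le_trans hl4 (Finset.sum_le_sum_of_subset_of_nonneg ?_ (fun T _ _ => (hω T).le))
      intro T hT
      simp only [Finset.mem_filter] at hT ⊢
      exact ⟨hT.1, hT.2 hl2⟩
    set M := l.toFinset with hM
    have hMc : M.card = s := by rw [hM, List.toFinset_card_of_nodup hl2, hl1]
    have hdisj : ∀ M' ∈ 𝓜, Disjoint M M' := by
      intro M' hM'
      rw [Finset.disjoint_left]
      intro x hx hx'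
      exact (hl3 x (List.mem_toFinset.mp hx)).2 (Finset.mem_biUnion.mpr ⟨M', hM', hx'⟩)
    have hnot : M ∉ 𝓜 := by
      intro h
      have := hdisj M h
      rw [disjoint_self, Finset.bot_eq_empty] at this
      rw [this] at hMc
      simp at hMc
      omega
    have hΨ : 0 < ∑ T ∈ 𝒯, ω T := Finset.sum_pos (fun T _ => hω T) h𝒯
    have hne : (𝒯.filter (fun T => good T M)).Nonempty := by
      by_contra hne
      rw [Finset.not_nonempty_iff_eq_empty] at hne
      rw [hne] at hl4
      simp only [Finset.sum_empty] at hl4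
      have := mul_pos hκ0 hΨ
      linarith
    refine ⟨insert M 𝓜, ?_, ?_, ?_, ?_⟩
    · intro M' hM'
      rcases Finset.mem_insert.mp hM' with rfl | hM'
      · refine ⟨fun x hx => (hl3 x (List.mem_toFinset.mp hx)).1, ?_⟩
        obtain ⟨T, hT⟩ := hne
        exact ⟨T, (Finset.mem_filter.mp hT).1, (Finset.mem_filter.mp hT).2⟩
      · exact h1 M' hM'
    · intro A hA B hB hAB
      rcases Finset.mem_insert.mp hA with rfl | hA'
      · rcases Finset.mem_insert.mp hB with rfl | hB'
        · exact absurd rfl hAB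
        · exact hdisj B hB'
      · rcases Finset.mem_insert.mp hB with rfl | hB'
        · exact (hdisj A hA').symm
        · exact h2 A hA' B hB' hAB
    · rw [Finset.biUnion_insert]
      have := Finset.card_union_le (id M) (𝓜.biUnion id)
      simp only [id] at this ⊢
      omega
    · have hstep : ∀ T ∈ 𝒯,
          Real.exp (-(((insert M 𝓜).filter (fun M => good T M)).card : ℝ)) ≤
            ω T - (if good T M then ω T else 0) / 2 := by
        intro T _
        rw [Finset.filter_insert]
        split_ifs with hg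
        · rw [Finset.card_insert_of_notMem (fun h => hnot (Finset.mem_filter.mp h).1)]
          push_cast
          rw [neg_add, Real.exp_add]
          have a1 : Real.exp (-1) ≤ 1 / 2 := by
            rw [Real.exp_neg, inv_eq_one_div]
            apply one_div_le_one_div_of_le (by norm_num)
            have := Real.add_one_le_exp (1 : ℝ)
            linarith
          have a2 := hω T
          simp only [ω] at a2 ⊢
          nlinarith
        · simp [ω]
      calc ∑ T ∈ 𝒯, Real.exp (-(((insert M 𝓜).filter (fun M => good T M)).card : ℝ))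
          ≤ ∑ T ∈ 𝒯, (ω T - (if good T M then ω T else 0) / 2) := Finset.sum_le_sum hstep
        _ = ∑ T ∈ 𝒯, ω T - (∑ T ∈ 𝒯.filter (fun T => good T M), ω T) / 2 := by
          rw [Finset.sum_sub_distrib, Finset.sum_filter, Finset.sum_div]
        _ ≤ (∑ T ∈ 𝒯, ω T) * (1 - κ / 2) := by nlinarith
        _ ≤ (𝒯.card * (1 - κ / 2) ^ q) * (1 - κ / 2) :=
          mul_le_mul_of_nonneg_right h4 (by linarith)
        _ = _ := by ring

end

end Pool.Agent.Lib.MP_8870f3_co
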