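import Mathlib
import Pool.Agent.Lib.MP_8870f3_co.Rich

set_option autoImplicit false
set_option linter.unusedSectionVars false
set_option linter.unusedVariables false

namespace Pool.Agent.Lib.MP_8870f3_co

open Finset

/-- The list `l` can be tiled together with `A` and also together with `B`. -/
def Swap {V : Type} [DecidableEq V] (E : Finset V → Prop) (A B : Finset V) (l : List V) : Prop :=
  l.Nodup → (∀ x ∈ l, x ∉ A ∧ x ∉ B) → Tile E (l.toFinset ∪ A) ∧ Tile E (l.toFinset ∪ B)

section
variable {V : Type} [DecidableEq V] {E : Finset V → Prop} {X : Finset V} {c : ℕ}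

theorem Swap.symm {A B : Finset V} {l : List V} (h : Swap E A B l) : Swap E B A l := by
  intro h1 h2
  exact (h h1 (fun x hx => (h2 x hx).symm)).symm

theorem rich_swap_symm {j : ℕ} {A B : Finset V} (h : Rich X c j (Swap E A B)) :
    Rich X c j (Swap E B A) := h.mono (fun l _ _ hl => hl.symm)

theorem tile_congr {A B : Finset V} (h : Tile E A) (e : ∀ v, v ∈ A ↔ v ∈ B) : Tile E B := by
  have : A = B := Finset.ext e
  rwa [← this]

/-- Combining two swaps on disjoint parts. -/
theorem Swap.append {A B A' B' : Finset V} {l1 l2 : List V} (h1 : Swap E A B l1)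
    (h2 : Swap E A' B' l2) (hA : Disjoint A A') (hB : Disjoint B B') :
    Swap E (A ∪ A') (B ∪ B') (l1 ++ l2) := by
  intro hn hx
  rw [List.nodup_append] at hn
  obtain ⟨n1, n2, n3⟩ := hn
  simp only [List.mem_append, Finset.mem_union, not_or] at hx
  obtain ⟨a1, a2⟩ := h1 n1 (fun x h => ⟨(hx x (Or.inl h)).1.1, (hx x (Or.inl h)).2.1⟩)
  obtain ⟨b1, b2⟩ := h2 n2 (fun x h => ⟨(hx x (Or.inr h)).1.2, (hx x (Or.inr h)).2.2⟩)
  rw [Finset.disjoint_left] at hA hB
  constructor
  · refine tile_congr (a1.union b1 ?_) ?_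
    · rw [Finset.disjoint_left]
      intro v hv hv'
      simp only [Finset.mem_union, List.mem_toFinset] at hv hv'
      rcases hv with hv | hv <;> rcases hv' with hv' | hv'
      · exact n3 v hv v hv' rfl
      · exact (hx v (Or.inl hv)).1.2 hv'
      · exact (hx v (Or.inr hv')).1.1 hv
      · exact hA hv hv'
    · intro v
      simp only [Finset.mem_union, List.mem_toFinset, List.mem_append]
      tauto
  · refine tile_congr (a2.union b2 ?_) ?_
    · rw [Finset.disjoint_left]
      intro v hv hv'
      simp only [Finset.mem_union, List.mem_toFinset] at hv hv'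
      rcases hv with hv | hv <;> rcases hv' with hv' | hv'
      · exact n3 v hv v hv' rfl
      · exact (hx v (Or.inl hv)).2.2 hv'
      · exact (hx v (Or.inr hv')).2.1 hv
      · exact hB hv hv'
    · intro v
      simp only [Finset.mem_union, List.mem_toFinset, List.mem_append]
      tauto

/-- Chaining two swaps through the vertex `x`. -/
theorem Swap.chain {u v x : V} {l1 l2 : List V} (h1 : Swap E {u} {x} l1)
    (h2 : Swap E {x} {v} l2) : Swap E {u} {v} (l1 ++ x :: l2) := by
  intro hn hx
  rw [List.nodup_append] at hn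
  obtain ⟨n1, n2, n3⟩ := hn
  rw [List.nodup_cons] at n2
  obtain ⟨n4, n2⟩ := n2
  simp only [List.mem_append, List.mem_cons, Finset.mem_singleton] at hx n3
  have hx1 : ∀ z ∈ l1, z ≠ x := fun z hz => n3 z hz x (Or.inl rfl)
  have hx2 : ∀ z ∈ l2, z ≠ x := fun z hz h => n4 (h ▸ hz)
  obtain ⟨a1, a2⟩ := h1 n1 (fun z h => by
    simp only [Finset.mem_singleton]
    exact ⟨(hx z (Or.inl h)).1, hx1 z h⟩)
  obtain ⟨b1, b2⟩ := h2 n2 (fun z h => by
    simp only [Finset.mem_singleton]
    exact ⟨hx2 z h, (hx z (Or.inr (Or.inr h))).2⟩)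
  have hxu := hx x (Or.inr (Or.inl rfl))
  constructor
  · refine tile_congr (a1.union b1 ?_) ?_
    · rw [Finset.disjoint_left]
      intro z hz hz'
      simp only [Finset.mem_union, List.mem_toFinset, Finset.mem_singleton] at hz hz'
      rcases hz with hz | hz <;> rcases hz' with hz' | hz'
      · exact n3 z hz z (Or.inr hz') rfl
      · exact hx1 z hz hz'
      · exact (hx z (Or.inr (Or.inr hz'))).1 hz
      · exact hxu.1 (hz'.symm.trans hz)
    · intro z
      simp only [Finset.mem_union, List.mem_toFinset, List.mem_append, List.mem_cons,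
        Finset.mem_singleton]
      tauto
  · refine tile_congr (a2.union b2 ?_) ?_
    · rw [Finset.disjoint_left]
      intro z hz hz'
      simp only [Finset.mem_union, List.mem_toFinset, Finset.mem_singleton] at hz hz'
      rcases hz with hz | hz <;> rcases hz' with hz' | hz'
      · exact n3 z hz z (Or.inr hz') rfl
      · exact (hx z (Or.inl hz)).2 hz'
      · exact hx2 z hz' hz
      · exact hxu.2 (hz.symm.trans hz')
    · intro z
      simp only [Finset.mem_union, List.mem_toFinset, List.mem_append, List.mem_cons,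
        Finset.mem_singleton]
      tauto

theorem swap_empty_of_allowed {l : List V} (h : l.Nodup → E l.toFinset) : Swap E ∅ ∅ l := by
  intro hn _
  simpa using Tile.single (h hn)

theorem rich_pad {t j : ℕ} {A B : Finset V}
    (hall : Rich X c t (fun l => l.Nodup → E l.toFinset)) (h : Rich X c j (Swap E A B)) :
    Rich X c (j + t) (Swap E A B) := by
  apply Rich.bind
  refine hall.mono ?_
  intro l1 _ _ h1
  refine h.mono ?_
  intro l2 _ _ h2
  have := (swap_empty_of_allowed h1).append h2 (by simp) (by simp)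
  simpa using this

theorem rich_swap_sets {j : ℕ} (hreach : ∀ u ∈ X, ∀ v ∈ X, Rich X c j (Swap E {u} {v})) :
    ∀ (n : ℕ) (A B : Finset V), A ⊆ X → B ⊆ X → A.card = n → B.card = n →
      Rich X c (n * j) (Swap E A B) := by
  intro n
  induction n with
  | zero =>
    intro A B _ _ hA hB
    rw [Finset.card_eq_zero] at hA hB
    subst hA hB
    rw [Nat.zero_mul, Rich.zero_iff]
    intro _ _
    simpa using Tile.empty
  | succ n ih =>
    intro A B hAX hBX hA hB
    obtain ⟨a, ha⟩ : A.Nonempty := by rw [← Finset.card_pos]; omega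
    obtain ⟨b, hb⟩ : B.Nonempty := by rw [← Finset.card_pos]; omega
    rw [Nat.succ_mul]
    apply Rich.bind
    refine (hreach a (hAX ha) b (hBX hb)).mono ?_
    intro l1 _ _ h1
    refine (ih (A.erase a) (B.erase b) ((Finset.erase_subset _ _).trans hAX)
      ((Finset.erase_subset _ _).trans hBX) (by rw [Finset.card_erase_of_mem ha]; omega)
      (by rw [Finset.card_erase_of_mem hb]; omega)).mono ?_
    intro l2 _ _ h2
    have := h1.append h2 (by simp) (by simp)
    rwa [← Finset.insert_eq, ← Finset.insert_eq, Finset.insert_erase ha,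
      Finset.insert_erase hb] at this

theorem rich_absorber {t j : ℕ} (hE : ∀ T, E T → T.card = t)
    (hall : Rich X c t (fun l => l.Nodup → E l.toFinset))
    (hreach : ∀ u ∈ X, ∀ v ∈ X, Rich X c j (Swap E {u} {v})) (T : Finset V) (hT : T ⊆ X)
    (hTc : T.card = t) : Rich X c (t * j + t) (Swap E ∅ T) := by
  apply Rich.bind
  refine hall.mono ?_
  intro l1 hl1 hl1X h1
  by_cases hn : l1.Nodup
  · have hE1 := h1 hn
    refine (rich_swap_sets hreach t l1.toFinset T
      (fun x hx => hl1X x (List.mem_toFinset.mp hx)) hT (hE _ hE1) hTc).mono ?_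
    intro l2 _ _ h2 hn2 hx
    rw [List.nodup_append] at hn2
    obtain ⟨n1, n2, n3⟩ := hn2
    simp only [List.mem_append] at hx
    obtain ⟨a1, a2⟩ := h2 n2 (fun x h => ⟨fun h' => n3 x (List.mem_toFinset.mp h') x h rfl,
      (hx x (Or.inr h)).2⟩)
    constructor
    · refine tile_congr a1 ?_
      intro z
      simp only [Finset.mem_union, List.mem_toFinset, List.mem_append, Finset.notMem_empty]
      tauto
    · refine tile_congr ((Tile.single hE1).union a2 ?_) ?_
      · rw [Finset.disjoint_left]
        intro z hz hz'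
        simp only [Finset.mem_union, List.mem_toFinset] at hz hz'
        rcases hz' with hz' | hz'
        · exact n3 z hz z hz' rfl
        · exact (hx z (Or.inl hz)).2 hz'
      · intro z
        simp only [Finset.mem_union, List.mem_toFinset, List.mem_append]
        tauto
  · refine (rich_swap_sets hreach t T T hT hT hTc hTc).mono ?_
    intro l2 _ _ _ hn2
    exact absurd (List.nodup_append.mp hn2).1 hn

open Classical in
theorem absorb {t : ℕ} : ∀ (r : ℕ) (𝓜 : Finset (Finset V)) (R : Finset V),
    (∀ M ∈ 𝓜, Tile E M) → (∀ M ∈ 𝓜, ∀ M' ∈ 𝓜, M ≠ M' → Disjoint M M') →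
    (∀ M ∈ 𝓜, Disjoint M R) → R.card = t * r →
    (∀ T ⊆ R, T.card = t → r ≤ (𝓜.filter (fun M => Tile E (M ∪ T))).card) →
    Tile E (𝓜.biUnion id ∪ R) := by
  intro r
  induction r with
  | zero =>
    intro 𝓜 R h1 h2 _ hR _
    rw [Nat.mul_zero, Finset.card_eq_zero] at hR
    subst hR
    rw [Finset.union_empty]
    induction 𝓜 using Finset.induction_on with
    | empty => simpa using Tile.empty
    | insert M 𝓜 hM ih =>
      rw [Finset.biUnion_insert]
      refine Tile.union (h1 M (Finset.mem_insert_self _ _))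
        (ih (fun M' h => h1 M' (Finset.mem_insert_of_mem h))
          (fun A hA B hB => h2 A (Finset.mem_insert_of_mem hA) B (Finset.mem_insert_of_mem hB))
          (by simp) (by simp)) ?_
      rw [Finset.disjoint_biUnion_right]
      intro M' hM'
      exact h2 M (Finset.mem_insert_self _ _) M' (Finset.mem_insert_of_mem hM')
        (fun h => hM (h ▸ hM'))
  | succ r ih =>
    intro 𝓜 R h1 h2 h3 hR h4
    have e0 : t * (r + 1) = t * r + t := by ring
    obtain ⟨T, hTR, hTc⟩ := Finset.exists_subset_card_eq (s := R) (n := t) (by omega)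
    obtain ⟨M, hM⟩ : (𝓜.filter (fun M => Tile E (M ∪ T))).Nonempty := by
      rw [← Finset.card_pos]
      have := h4 T hTR hTc
      omega
    obtain ⟨hM1, hM2⟩ := Finset.mem_filter.mp hM
    have ih' := ih (𝓜.erase M) (R \ T) (fun M' h => h1 M' (Finset.mem_of_mem_erase h))
      (fun A hA B hB => h2 A (Finset.mem_of_mem_erase hA) B (Finset.mem_of_mem_erase hB))
      (fun M' h => (h3 M' (Finset.mem_of_mem_erase h)).mono_right Finset.sdiff_subset)
      (by rw [Finset.card_sdiff_of_subset hTR]; omega) (by
        intro T' hT' hT'c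
        have a1 := h4 T' (hT'.trans Finset.sdiff_subset) hT'c
        rw [Finset.filter_erase]
        have a2 := Finset.pred_card_le_card_erase
          (s := 𝓜.filter (fun M => Tile E (M ∪ T'))) (a := M)
        omega)
    refine tile_congr (hM2.union ih' ?_) ?_
    · rw [Finset.disjoint_left]
      intro z hz hz'
      simp only [Finset.mem_union, Finset.mem_biUnion, Finset.mem_erase, id,
        Finset.mem_sdiff] at hz hz'
      rcases hz with hz | hz <;> rcases hz' with ⟨M', hM', hz'⟩ | hz'
      · exact Finset.disjoint_left.mp (h2 M' hM'.2 M hM1 hM'.1) hz' hz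
      · exact Finset.disjoint_left.mp (h3 M hM1) hz hz'.1
      · exact Finset.disjoint_left.mp (h3 M' hM'.2) hz' (hTR hz)
      · exact hz'.2 hz
    · intro z
      simp only [Finset.mem_union, Finset.mem_biUnion, Finset.mem_erase, id, Finset.mem_sdiff]
      constructor
      · rintro ((h | h) | (⟨M', hM', h⟩ | h))
        · exact Or.inl ⟨M, hM1, h⟩
        · exact Or.inr (hTR h)
        · exact Or.inl ⟨M', hM'.2, h⟩
        · exact Or.inr h.1
      · rintro (⟨M', hM', h⟩ | h)
        · by_cases e : M' = M
          · exact Or.inl (Or.inl (e ▸ h))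
          · exact Or.inr (Or.inl ⟨M', ⟨e, hM'⟩, h⟩)
        · by_cases e : z ∈ T
          · exact Or.inl (Or.inr e)
          · exact Or.inr (Or.inr ⟨h, e⟩)

/-- The abstract absorbing method. -/
theorem abstract_tiling {t j : ℕ} (ht : 1 ≤ t) (hE : ∀ T, E T → T.card = t) (hdvd : t ∣ X.card)
    (hcX : c ≤ X.card) (htc : t ≤ c)
    (hall : Rich X c t (fun l => l.Nodup → E l.toFinset))
    (hreach : ∀ u ∈ X, ∀ v ∈ X, Rich X c j (Swap E {u} {v})) (q b : ℕ)
    (hq : 2 * (q * (t * j + t)) ≤ c - t)
    (hb : (X.card : ℝ) ^ t * (1 - (((c - t : ℕ) : ℝ) / (2 * X.card)) ^ (t * j + t) / 2) ^ q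
      ≤ Real.exp (-(b : ℝ)))
    (halmost : ∀ Z ⊆ X, Z.card ≤ q * (t * j + t) →
      ∃ W ⊆ X \ Z, Tile E ((X \ Z) \ W) ∧ W.card ≤ t * b) : Tile E X := by
  classical
  obtain ⟨good, hgood⟩ : ∃ good : Finset V → Finset V → Prop,
      ∀ T M, good T M ↔ Tile E M ∧ Tile E (M ∪ T) := ⟨_, fun _ _ => Iff.rfl⟩
  obtain ⟨𝓜, h1, h2, h3, h4⟩ := absorbing_family (X := X) (c := c - t) (t * j + t) (by omega)
    (by omega) (X.powersetCard t) (Finset.powersetCard_nonempty.mpr (by omega)) good (by
      intro T hT
      obtain ⟨hTX, hTc⟩ := Finset.mem_powersetCard.mp hT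
      have := (rich_absorber hE hall hreach T hTX hTc).avoid T
      rw [hTc] at this
      refine this.mono ?_
      intro l _ _ hl hn
      have := hl.1 hn (fun x hx => ⟨by simp, hl.2 x hx⟩)
      rw [hgood]
      simpa using this) q hq
  have hZX : 𝓜.biUnion id ⊆ X := by
    intro z hz
    obtain ⟨M, hM, hz⟩ := Finset.mem_biUnion.mp hz
    exact (h1 M hM).1 hz
  have hTile : ∀ M ∈ 𝓜, Tile E M := by
    intro M hM
    obtain ⟨T, _, hT⟩ := (h1 M hM).2
    exact ((hgood _ _).mp hT).1
  obtain ⟨W, hW1, hW2, hW3⟩ := halmost (𝓜.biUnion id) hZX h3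
  have hZ : Tile E (𝓜.biUnion id) := by
    have := absorb (E := E) (t := t) 0 𝓜 ∅ hTile h2 (by simp) (by simp) (by simp)
    simpa using this
  have hWd : t ∣ W.card := by
    have a1 := hZ.dvd_card hE
    have a2 := hW2.dvd_card hE
    have a3 : X.card = (𝓜.biUnion id).card + ((X \ 𝓜.biUnion id) \ W).card + W.card := by
      rw [Finset.card_sdiff_of_subset hW1, Finset.card_sdiff_of_subset hZX]
      have b1 := Finset.card_le_card hW1
      have b2 := Finset.card_le_card hZX
      rw [Finset.card_sdiff_of_subset hZX] at b1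
      omega
    rw [a3] at hdvd
    exact (Nat.dvd_add_right (Dvd.dvd.add a1 a2)).mp hdvd
  obtain ⟨r, hr⟩ := hWd
  have hrb : r ≤ b := by
    rw [hr] at hW3
    exact Nat.le_of_mul_le_mul_left hW3 (by omega)
  have hab := absorb (E := E) (t := t) r 𝓜 W hTile h2 (by
    intro M hM
    rw [Finset.disjoint_left]
    intro z hz hz'
    exact (Finset.mem_sdiff.mp (hW1 hz')).2 (Finset.mem_biUnion.mpr ⟨M, hM, hz⟩)) hr (by
    intro T hT hTc
    have hTm : T ∈ X.powersetCard t :=
      Finset.mem_powersetCard.mpr ⟨hT.trans (hW1.trans Finset.sdiff_subset), hTc⟩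
    have a1 : Real.exp (-((𝓜.filter (fun M => good T M)).card : ℝ)) ≤ Real.exp (-(b : ℝ)) := by
      refine le_trans (Finset.single_le_sum
        (f := fun T => Real.exp (-((𝓜.filter (fun M => good T M)).card : ℝ)))
        (fun _ _ => (Real.exp_pos _).le) hTm) (le_trans h4 (le_trans ?_ hb))
      apply mul_le_mul_of_nonneg_right
      · rw [Finset.card_powersetCard]
        exact_mod_cast Nat.choose_le_pow _ _
      · apply pow_nonneg
        have hXpos : (0 : ℝ) < X.card := by exact_mod_cast (by omega : 0 < X.card)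
        have : (((c - t : ℕ) : ℝ) / (2 * X.card)) ^ (t * j + t) ≤ 1 := by
          apply pow_le_one₀ (by positivity)
          rw [div_le_one (by positivity)]
          have : ((c - t : ℕ) : ℝ) ≤ X.card := by exact_mod_cast (by omega : c - t ≤ X.card)
          linarith
        linarith
    have a2 : (b : ℝ) ≤ ((𝓜.filter (fun M => good T M)).card : ℝ) := by
      have := Real.exp_le_exp.mp a1
      linarith
    have a3 : b ≤ (𝓜.filter (fun M => good T M)).card := by exact_mod_cast a2
    refine le_trans hrb (le_trans a3 (Finset.card_le_card ?_))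
    intro M hM
    simp only [Finset.mem_filter] at hM ⊢
    exact ⟨hM.1, ((hgood _ _).mp hM.2).2⟩)
  refine tile_congr (hab.union hW2 ?_) ?_
  · rw [Finset.disjoint_left]
    intro z hz hz'
    simp only [Finset.mem_union, Finset.mem_sdiff] at hz hz'
    rcases hz with hz | hz
    · exact hz'.1.2 hz
    · exact hz'.2 hz
  · intro z
    simp only [Finset.mem_union, Finset.mem_sdiff]
    constructor
    · rintro ((h | h) | h)
      · exact hZX h
      · exact (Finset.mem_sdiff.mp (hW1 h)).1
      · exact h.1.1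
    · intro h
      by_cases e1 : z ∈ 𝓜.biUnion id
      · exact Or.inl (Or.inl e1)
      · by_cases e2 : z ∈ W
        · exact Or.inl (Or.inr e2)
        · exact Or.inr ⟨⟨h, e1⟩, e2⟩

end

end Pool.Agent.Lib.MP_8870f3_co
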