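import Mathlib

set_option autoImplicit false

namespace Pool.Agent.Lib.MP_8870f3_co

open Finset

open Classical in
/-- Weighted fractional tiling statement on a line, in dual form.  The relation `adj` is a
symmetric reflexive relation (closed neighbourhoods of the deleted graph). -/
def LineDual (t : ℕ) : Prop :=
  ∀ (N k : ℕ) (adj : ℕ → ℕ → Prop) (ρ y : ℕ → ℝ) (μ : ℝ),
    (∀ u v, adj u v → adj v u) → (∀ v, adj v v) →
    (∀ x, 0 ≤ ρ x) →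
    (∀ v, v < N → ∑ u ∈ (range N).filter (fun u => adj v u), ρ u ≤ μ) →
    (∀ a, k ≤ a → a ≤ N → ((t : ℝ) - 1) * μ < ∑ x ∈ Ico (a - k) a, ρ x) →
    (∀ x, 0 ≤ y x) →
    (∀ I : Finset ℕ, I ⊆ range N → I.card ≤ t → (∀ u ∈ I, ∀ v ∈ I, u ≠ v → ¬ adj u v) →
      (∀ u ∈ I, ∀ v ∈ I, u ≤ v + k) → ∑ x ∈ I, y x ≤ (t : ℝ)) →
    (∀ x, x < k → y x ≤ 1) →
    ∑ x ∈ range N, ρ x * y x ≤ ∑ x ∈ range N, ρ x

/-- The `k`-th power of the `n`-cycle on `ZMod n`. -/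
def cyclePower (n k : ℕ) : SimpleGraph (ZMod n) where
  Adj i j := i ≠ j ∧ ∃ d : ℕ, 1 ≤ d ∧ d ≤ k ∧ (j - i = (d : ZMod n) ∨ j - i = -(d : ZMod n))
  symm := ⟨by
    rintro i j ⟨hne, d, h1, h2, h⟩
    refine ⟨hne.symm, d, h1, h2, ?_⟩
    rcases h with h | h
    · right; rw [← h]; ring
    · left; rw [← neg_neg (d : ZMod n), ← h]; ring⟩
  loopless := ⟨fun i h => h.1 rfl⟩

/-- `H` is an `α`-subgraph of `G`: a spanning subgraph keeping an `α` fraction of each degree. -/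
def IsAlphaSubgraph {V : Type} (α : ℝ) (H G : SimpleGraph V) : Prop :=
  H ≤ G ∧ ∀ v : V, α * ((G.neighborSet v).ncard : ℝ) ≤ ((H.neighborSet v).ncard : ℝ)

/-- `H` has a `K_t`-factor: vertex-disjoint `t`-cliques covering all the vertices. -/
def HasCliqueFactor {V : Type} (t : ℕ) (H : SimpleGraph V) : Prop :=
  ∃ F : Set (Finset V), (∀ T ∈ F, H.IsNClique t T) ∧ ∀ v : V, ∃! T, T ∈ F ∧ v ∈ T

/-- The set `A_t` of the problem. -/
def goodSet (t : ℕ) : Set ℝ :=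
  {α | 0 < α ∧ ∃ k₀ : ℕ, ∀ k : ℕ, k₀ ≤ k → 1 ≤ k → ∀ n : ℕ, k ≤ n → t ∣ n →
    ∀ H : SimpleGraph (ZMod n), IsAlphaSubgraph α H (cyclePower n k) → HasCliqueFactor t H}

end Pool.Agent.Lib.MP_8870f3_co
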