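import Mathlib
import Pool.Agent.Lib.MP_8870f3_co.Defs

set_option autoImplicit false
set_option linter.unusedSectionVars false
set_option linter.unusedVariables false

namespace Pool.Agent.Lib.MP_8870f3_co

open Finset

/-- Independent `t`-sets that are images of points in a window of `k + 1` positions. -/
def WinSet {α : Type} (t k N : ℕ) (π : ℕ → α) (adj : α → α → Prop) (T : Finset α) : Prop :=
  T.card = t ∧ (∀ u ∈ T, ∀ v ∈ T, u ≠ v → ¬ adj u v) ∧
    ∃ a : ℕ, ∀ v ∈ T, ∃ y, a ≤ y ∧ y ≤ a + k ∧ y < N ∧ π y = v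

section
variable {α : Type} [DecidableEq α]

open Classical in
theorem half {t : ℕ} (hLD : LineDual t) (ht : 1 ≤ t) (φ : ℕ → α) (N k : ℕ)
    (adj : α → α → Prop) (hsymm : ∀ u v, adj u v → adj v u) (hrefl : ∀ v, adj v v)
    (U : Finset α) (ρ w : α → ℝ) (μ e : ℝ) (he : 0 ≤ e)
    (hinj : ∀ x y, x < N → y < N → x ≤ y + 2 * k → y ≤ x + 2 * k → φ x = φ y → x = y)
    (hρ : ∀ v, 1 ≤ ρ v ∧ ρ v ≤ 1 + e)
    (hN : ∀ x, x < N → ((U.filter (fun u => adj (φ x) u)).card : ℝ) ≤ μ)
    (hW : ∀ a, k ≤ a → a ≤ N →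
      ((t : ℝ) - 1) * ((1 + e) * μ) < (((Ico (a - k) a).filter (fun x => φ x ∈ U)).card : ℝ))
    (hw : ∀ I : Finset ℕ, I ⊆ range N → I.card = t → (∀ x ∈ I, φ x ∈ U) →
      (∀ u ∈ I, ∀ v ∈ I, u ≠ v → ¬ adj (φ u) (φ v)) → (∀ u ∈ I, ∀ v ∈ I, u ≤ v + k) →
      0 ≤ ∑ x ∈ I, w (φ x)) :
    0 ≤ ∑ x ∈ range N,
      (if φ x ∈ U then ρ (φ x) * (if x < k then max (w (φ x)) 0 else w (φ x)) else 0) := by
  obtain ⟨B, hB1, hB⟩ : ∃ B : ℝ, 1 ≤ B ∧ ∀ v ∈ U, |w v| ≤ B := by
    refine ⟨1 + ∑ v ∈ U, |w v|, ?_, ?_⟩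
    · have : 0 ≤ ∑ v ∈ U, |w v| := Finset.sum_nonneg (fun _ _ => abs_nonneg _)
      linarith
    · intro v hv
      have := Finset.single_le_sum (f := fun v => |w v|) (fun _ _ => abs_nonneg _) hv
      linarith
  have htR : (1 : ℝ) ≤ t := by exact_mod_cast ht
  set δ : ℝ := 1 / (t * B) with hδ
  have hδ0 : 0 < δ := by positivity
  have hδB : δ * B = 1 / t := by rw [hδ]; field_simp
  let w' : ℕ → ℝ := fun x => if x < k then max (w (φ x)) 0 else w (φ x)
  have hw'1 : ∀ x, w (φ x) ≤ w' x := by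
    intro x
    simp only [w']
    split_ifs
    · exact le_max_left _ _
    · exact le_rfl
  have hw'2 : ∀ x, φ x ∈ U → |w' x| ≤ B := by
    intro x hx
    have := hB _ hx
    simp only [w']
    split_ifs
    · rw [abs_le] at this ⊢
      constructor
      · exact le_trans this.1 (le_max_left _ _)
      · exact max_le this.2 (by linarith)
    · exact this
  have hw'3 : ∀ x, φ x ∈ U → |δ * w' x| ≤ 1 / t := by
    intro x hx
    rw [abs_mul, abs_of_pos hδ0, ← hδB]
    exact mul_le_mul_of_nonneg_left (hw'2 x hx) hδ0.le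
  have ht1 : 1 / (t : ℝ) ≤ 1 := by rw [div_le_one (by linarith)]; exact htR
  let adj' : ℕ → ℕ → Prop := fun x y => adj (φ x) (φ y) ∧ x ≤ y + k ∧ y ≤ x + k
  let ρ' : ℕ → ℝ := fun x => if φ x ∈ U then ρ (φ x) else 0
  let y : ℕ → ℝ := fun x => if φ x ∈ U then 1 - δ * w' x else 0
  have hρ'0 : ∀ x, 0 ≤ ρ' x := by
    intro x
    simp only [ρ']
    split_ifs
    · linarith [(hρ (φ x)).1]
    · exact le_rfl
  have key := hLD N k adj' ρ' y ((1 + e) * μ)
    (fun u v h => ⟨hsymm _ _ h.1, h.2.2, h.2.1⟩) (fun v => ⟨hrefl _, by omega, by omega⟩) hρ'0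
    (by
      intro v hv
      have a1 : ∑ u ∈ (range N).filter (fun u => adj' v u), ρ' u ≤
          (1 + e) * ((((range N).filter (fun u => adj' v u)).filter
            (fun u => φ u ∈ U)).card : ℝ) := by
        simp only [ρ']
        rw [← Finset.sum_filter]
        refine le_trans (Finset.sum_le_sum (fun u _ => (hρ (φ u)).2)) ?_
        rw [Finset.sum_const, nsmul_eq_mul, mul_comm]
      have a2 : (((range N).filter (fun u => adj' v u)).filter (fun u => φ u ∈ U)).card ≤
          (U.filter (fun u => adj (φ v) u)).card := by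
        apply Finset.card_le_card_of_injOn φ
        · intro u hu
          simp only [Finset.coe_filter, Finset.mem_filter, Set.mem_ofPred_eq] at hu ⊢
          exact ⟨hu.2, hu.1.2.1⟩
        · intro u hu u' hu' h
          simp only [Finset.coe_filter, Finset.mem_filter, Finset.mem_range,
            Set.mem_ofPred_eq] at hu hu'
          have b1 := hu.1.2.2
          have b2 := hu'.1.2.2
          exact hinj u u' hu.1.1 hu'.1.1 (by omega) (by omega) h
      have a3 : ((((range N).filter (fun u => adj' v u)).filter (fun u => φ u ∈ U)).card : ℝ)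
          ≤ μ := le_trans (by exact_mod_cast a2) (hN v hv)
      refine le_trans (le_of_eq ?_) (le_trans a1 (mul_le_mul_of_nonneg_left a3 (by linarith)))
      congr)
    (by
      intro a ha haN
      refine lt_of_lt_of_le (hW a ha haN) ?_
      simp only [ρ']
      rw [← Finset.sum_filter, Finset.card_eq_sum_ones]
      push_cast
      exact Finset.sum_le_sum (fun u _ => (hρ (φ u)).1))
    (by
      intro x
      simp only [y]
      split_ifs with hx
      · have := (abs_le.mp (hw'3 x hx)).2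
        linarith
      · exact le_rfl)
    (by
      intro I hI hIc hIi hIs
      simp only [y]
      rw [← Finset.sum_filter]
      set I' := I.filter (fun x => φ x ∈ U) with hI'
      have hsub : I' ⊆ I := Finset.filter_subset _ _
      have hU : ∀ x ∈ I', φ x ∈ U := fun x hx => (Finset.mem_filter.mp hx).2
      by_cases hc : I'.card = t
      · have a1 := hw I' (hsub.trans hI) hc hU
          (fun u hu v hv huv h => hIi u (hsub hu) v (hsub hv) huv
            ⟨h, hIs u (hsub hu) v (hsub hv), hIs v (hsub hv) u (hsub hu)⟩)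
          (fun u hu v hv => hIs u (hsub hu) v (hsub hv))
        have a2 : ∑ x ∈ I', w (φ x) ≤ ∑ x ∈ I', w' x := Finset.sum_le_sum (fun x _ => hw'1 x)
        rw [Finset.sum_sub_distrib, ← Finset.mul_sum, Finset.sum_const, hc, nsmul_eq_mul]
        have a3 : 0 ≤ δ * ∑ x ∈ I', w' x := mul_nonneg hδ0.le (le_trans a1 a2)
        linarith
      · have a1 : I'.card + 1 ≤ t := by
          have := Finset.card_le_card hsub
          omega
        have a2 : (I'.card : ℝ) + 1 ≤ t := by exact_mod_cast a1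
        have a3 : ∑ x ∈ I', (1 - δ * w' x) ≤ ∑ x ∈ I', (1 + 1 / (t : ℝ)) := by
          apply Finset.sum_le_sum
          intro x hx
          have := (abs_le.mp (hw'3 x (hU x hx))).1
          linarith
        rw [Finset.sum_const, nsmul_eq_mul] at a3
        refine le_trans a3 ?_
        have a4 : (I'.card : ℝ) * (1 / t) ≤ 1 := by
          rw [mul_one_div, div_le_one (by linarith)]
          linarith
        nlinarith)
    (by
      intro x hx
      simp only [y]
      split_ifs with hx'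
      · have : 0 ≤ w' x := by
          simp only [w', hx, if_true]
          exact le_max_right _ _
        have := mul_nonneg hδ0.le this
        linarith
      · norm_num)
  have e1 : ∑ x ∈ range N, ρ' x * y x = ∑ x ∈ range N, ρ' x -
      δ * ∑ x ∈ range N, (if φ x ∈ U then ρ (φ x) * w' x else 0) := by
    rw [Finset.mul_sum, ← Finset.sum_sub_distrib]
    apply Finset.sum_congr rfl
    intro x _
    simp only [ρ', y]
    split_ifs <;> ring
  rw [e1] at key
  have : 0 ≤ δ * ∑ x ∈ range N, (if φ x ∈ U then ρ (φ x) * w' x else 0) := by linarith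
  exact (mul_nonneg_iff_of_pos_left hδ0).mp this

open Classical in
theorem half2 {t : ℕ} (hLD : LineDual t) (ht : 1 ≤ t) (π : ℕ → α) (N k : ℕ)
    (adj : α → α → Prop) (hsymm : ∀ u v, adj u v → adj v u) (hrefl : ∀ v, adj v v)
    (U : Finset α) (ρ w : α → ℝ) (μ e : ℝ) (he : 0 ≤ e)
    (hinj : ∀ x y, x < N → y < N → x ≤ y + 2 * k → y ≤ x + 2 * k → π x = π y → x = y)
    (hρ : ∀ v, 1 ≤ ρ v ∧ ρ v ≤ 1 + e)
    (hN : ∀ x, x < N → ((U.filter (fun u => adj (π x) u)).card : ℝ) ≤ μ)
    (hW : ∀ a, k ≤ a → a ≤ N →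
      ((t : ℝ) - 1) * ((1 + e) * μ) < (((Ico (a - k) a).filter (fun x => π x ∈ U)).card : ℝ))
    (hw : ∀ T ⊆ U, WinSet t k N π adj T → 0 ≤ ∑ v ∈ T, w v)
    (N' : ℕ) (σ : ℕ → ℕ) (hσ1 : ∀ x, x < N' → σ x < N)
    (hσ2 : ∀ x y d, x < N' → y < N' →
      ((x ≤ y + d ∧ y ≤ x + d) ↔ (σ x ≤ σ y + d ∧ σ y ≤ σ x + d)))
    (hσ3 : ∀ a, k ≤ a → a ≤ N' → ∃ a', k ≤ a' ∧ a' ≤ N ∧
      ∀ z ∈ Ico (a' - k) a', ∃ x ∈ Ico (a - k) a, σ x = z) :
    0 ≤ ∑ x ∈ range N', (if π (σ x) ∈ U then ρ (π (σ x)) * w (π (σ x)) else 0) +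
      ∑ x ∈ (range N').filter (fun x => x < k),
        (if π (σ x) ∈ U then ρ (π (σ x)) * max (-w (π (σ x))) 0 else 0) := by
  have hinj' : ∀ x y, x < N' → y < N' → x ≤ y + 2 * k → y ≤ x + 2 * k →
      π (σ x) = π (σ y) → x = y := by
    intro x y hx hy h1 h2 h
    have a1 := (hσ2 x y (2 * k) hx hy).mp ⟨h1, h2⟩
    have a2 := hinj _ _ (hσ1 x hx) (hσ1 y hy) a1.1 a1.2 h
    have a3 := (hσ2 x y 0 hx hy).mpr (by omega)
    omega
  have key := half hLD ht (fun x => π (σ x)) N' k adj hsymm hrefl U ρ w μ e he hinj' hρ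
    (fun x hx => hN _ (hσ1 x hx))
    (by
      intro a ha haN
      obtain ⟨a', h1, h2, h3⟩ := hσ3 a ha haN
      refine lt_of_lt_of_le (hW a' h1 h2) ?_
      have : ((Ico (a' - k) a').filter (fun x => π x ∈ U)).card ≤
          ((Ico (a - k) a).filter (fun x => π (σ x) ∈ U)).card := by
        refine le_trans (Finset.card_le_card ?_) (Finset.card_image_le (f := σ))
        intro z hz
        obtain ⟨hz1, hz2⟩ := Finset.mem_filter.mp hz
        obtain ⟨x, hx, rfl⟩ := h3 z hz1
        exact Finset.mem_image.mpr ⟨x, Finset.mem_filter.mpr ⟨hx, hz2⟩, rfl⟩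
      exact_mod_cast this)
    (by
      intro I hI hIc hIU hIi hIs
      have hIN : ∀ x ∈ I, x < N' := fun x hx => Finset.mem_range.mp (hI hx)
      have hinjI : ∀ x ∈ I, ∀ y ∈ I, π (σ x) = π (σ y) → x = y := by
        intro x hx y hy h
        have b1 := hIs x hx y hy
        have b2 := hIs y hy x hx
        exact hinj' x y (hIN x hx) (hIN y hy) (by omega) (by omega) h
      rw [← Finset.sum_image (g := fun x => π (σ x)) hinjI]
      apply hw
      · intro v hv
        obtain ⟨x, hx, rfl⟩ := Finset.mem_image.mp hv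
        exact hIU x hx
      · refine ⟨?_, ?_, ?_⟩
        · rw [Finset.card_image_of_injOn hinjI, hIc]
        · intro u hu v hv huv
          obtain ⟨x, hx, rfl⟩ := Finset.mem_image.mp hu
          obtain ⟨y, hy, rfl⟩ := Finset.mem_image.mp hv
          exact hIi x hx y hy (fun h => huv (by rw [h]))
        · have hne : I.Nonempty := by rw [← Finset.card_pos]; omega
          obtain ⟨x0, hx0, hmin⟩ := Finset.exists_min_image I σ hne
          refine ⟨σ x0, ?_⟩
          intro v hv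
          obtain ⟨x, hx, rfl⟩ := Finset.mem_image.mp hv
          refine ⟨σ x, hmin x hx, ?_, hσ1 x (hIN x hx), rfl⟩
          exact ((hσ2 x x0 k (hIN x hx) (hIN x0 hx0)).mp ⟨hIs x hx x0 hx0, hIs x0 hx0 x hx⟩).1)
  refine le_trans key (le_of_eq ?_)
  rw [Finset.sum_filter, ← Finset.sum_add_distrib]
  apply Finset.sum_congr rfl
  intro x _
  split_ifs
  · rcases le_total (w (π (σ x))) 0 with h | h
    · rw [max_eq_right h, max_eq_left (by linarith)]; ring
    · rw [max_eq_left h, max_eq_right (by linarith)]; ring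
  · ring
  · ring
  · ring

theorem inj_sum_le (N : ℕ) (S : Finset ℕ) (σ : ℕ → ℕ) (hinj : ∀ x ∈ S, ∀ y ∈ S, σ x = σ y → x = y)
    (hmap : ∀ s ∈ S, σ s < N) (h : ℕ → ℝ) (h0 : ∀ x, 0 ≤ h x) :
    ∑ s ∈ S, h (σ s) ≤ ∑ x ∈ range N, h x := by
  rw [← Finset.sum_image (g := σ) hinj]
  apply Finset.sum_le_sum_of_subset_of_nonneg
  · intro z hz
    obtain ⟨s, hs, rfl⟩ := Finset.mem_image.mp hz
    exact Finset.mem_range.mpr (hmap s hs)
  · intro x _ _
    exact h0 x

open Classical in
theorem path_dual_weak {t : ℕ} (hLD : LineDual t) (ht : 1 ≤ t) (π : ℕ → α) (N k M : ℕ)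
    (adj : α → α → Prop) (hsymm : ∀ u v, adj u v → adj v u) (hrefl : ∀ v, adj v v)
    (U : Finset α) (w : α → ℝ) (μ e : ℝ) (he : 0 ≤ e) (hM : 0 < M) (hN0 : 0 < N)
    (hinj : ∀ x y, x < N → y < N → x ≤ y + 2 * k → y ≤ x + 2 * k → π x = π y → x = y)
    (hfib : ∀ v ∈ U, ((range N).filter (fun x => π x = v)).card = M)
    (hNe : (N : ℝ) ≤ ((N : ℝ) - 2 * k) * (1 + e))
    (hN : ∀ x, x < N → ((U.filter (fun u => adj (π x) u)).card : ℝ) ≤ μ)
    (hW : ∀ a, k ≤ a → a ≤ N →
      ((t : ℝ) - 1) * ((1 + e) * μ) < (((Ico (a - k) a).filter (fun x => π x ∈ U)).card : ℝ))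
    (hw : ∀ T ⊆ U, WinSet t k N π adj T → 0 ≤ ∑ v ∈ T, w v) : 0 ≤ ∑ v ∈ U, w v := by
  let ρ : α → ℝ := fun v => if w v < 0 then 1 + e else 1
  have hρ : ∀ v, 1 ≤ ρ v ∧ ρ v ≤ 1 + e := by
    intro v
    simp only [ρ]
    split_ifs <;> constructor <;> linarith
  let g : ℕ → ℝ := fun x => if π x ∈ U then ρ (π x) * w (π x) else 0
  let h : ℕ → ℝ := fun x => if π x ∈ U then ρ (π x) * max (-w (π x)) 0 else 0
  have h0 : ∀ x, 0 ≤ h x := by
    intro x
    simp only [h]
    split_ifs
    · exact mul_nonneg (by linarith [(hρ (π x)).1]) (le_max_right _ _)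
    · exact le_rfl
  have hA : ∀ s, s < N → 0 ≤ ∑ x ∈ range (N - s), g (s + x) +
      ∑ x ∈ (range (N - s)).filter (fun x => x < k), h (s + x) := by
    intro s hs
    refine half2 hLD ht π N k adj hsymm hrefl U ρ w μ e he hinj hρ hN hW hw (N - s)
      (fun x => s + x) ?_ ?_ ?_
    · intro x hx; omega
    · intro x y d _ _; omega
    · intro a ha haN
      refine ⟨a + s, by omega, by omega, ?_⟩
      intro z hz
      rw [Finset.mem_Ico] at hz
      refine ⟨z - s, by rw [Finset.mem_Ico]; omega, by omega⟩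
  have hB : ∀ s, s < N → 0 ≤ ∑ x ∈ range s, g (s - 1 - x) +
      ∑ x ∈ (range s).filter (fun x => x < k), h (s - 1 - x) := by
    intro s hs
    refine half2 hLD ht π N k adj hsymm hrefl U ρ w μ e he hinj hρ hN hW hw s
      (fun x => s - 1 - x) ?_ ?_ ?_
    · intro x hx; omega
    · intro x y d _ _; omega
    · intro a ha haN
      refine ⟨s - a + k, by omega, by omega, ?_⟩
      intro z hz
      rw [Finset.mem_Ico] at hz
      refine ⟨s - 1 - z, by rw [Finset.mem_Ico]; omega, by omega⟩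
  set G := ∑ x ∈ range N, g x with hG
  set H := ∑ x ∈ range N, h x with hH
  have hC : ∀ s, s < N → ∑ x ∈ range (N - s), g (s + x) + ∑ x ∈ range s, g (s - 1 - x) = G := by
    intro s hs
    rw [Finset.sum_range_reflect g s, hG]
    have : N = s + (N - s) := by omega
    conv_rhs => rw [this, Finset.sum_range_add]
    ring
  have hD : ∑ s ∈ range N, ∑ x ∈ (range (N - s)).filter (fun x => x < k), h (s + x) ≤ k * H := by
    have e1 : ∑ s ∈ range N, ∑ x ∈ (range (N - s)).filter (fun x => x < k), h (s + x) =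
        ∑ x ∈ range k, ∑ s ∈ (range N).filter (fun s => x < N - s), h (s + x) := by
      apply Finset.sum_comm'
      intro s x
      simp only [Finset.mem_filter, Finset.mem_range]
      tauto
    rw [e1]
    refine le_trans (Finset.sum_le_sum (g := fun _ => H) ?_) (by simp)
    intro x _
    refine inj_sum_le N _ (fun s => s + x) ?_ ?_ h h0
    · intro a _ b _ hab; omega
    · intro s hs
      simp only [Finset.mem_filter, Finset.mem_range] at hs
      omega
  have hE : ∑ s ∈ range N, ∑ x ∈ (range s).filter (fun x => x < k), h (s - 1 - x) ≤ k * H := by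
    have e1 : ∑ s ∈ range N, ∑ x ∈ (range s).filter (fun x => x < k), h (s - 1 - x) =
        ∑ x ∈ range k, ∑ s ∈ (range N).filter (fun s => x < s), h (s - 1 - x) := by
      apply Finset.sum_comm'
      intro s x
      simp only [Finset.mem_filter, Finset.mem_range]
      tauto
    rw [e1]
    refine le_trans (Finset.sum_le_sum (g := fun _ => H) ?_) (by simp)
    intro x _
    refine inj_sum_le N _ (fun s => s - 1 - x) ?_ ?_ h h0
    · intro a ha b hb hab
      simp only [Finset.mem_filter, Finset.mem_range] at ha hb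
      omega
    · intro s hs
      simp only [Finset.mem_filter, Finset.mem_range] at hs
      omega
  have hF : 0 ≤ N * G + 2 * k * H := by
    have a1 : 0 ≤ ∑ s ∈ range N, (G + (∑ x ∈ (range (N - s)).filter (fun x => x < k), h (s + x) +
        ∑ x ∈ (range s).filter (fun x => x < k), h (s - 1 - x))) := by
      apply Finset.sum_nonneg
      intro s hs
      have hs' := Finset.mem_range.mp hs
      have := hA s hs'
      have := hB s hs'
      have := hC s hs'
      linarith
    rw [Finset.sum_add_distrib, Finset.sum_add_distrib, Finset.sum_const, Finset.card_range,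
      nsmul_eq_mul] at a1
    linarith
  have hNR : (0 : ℝ) < N := by exact_mod_cast hN0
  have hS : N * G + 2 * k * H ≤ N * ∑ x ∈ range N, (if π x ∈ U then w (π x) else 0) := by
    rw [hG, hH, Finset.mul_sum, Finset.mul_sum, Finset.mul_sum, ← Finset.sum_add_distrib]
    apply Finset.sum_le_sum
    intro x _
    simp only [g, h, ρ]
    split_ifs with h1 h2
    · rw [max_eq_left (by linarith)]
      nlinarith
    · rw [max_eq_right (by linarith)]
      linarith
    · simp
  have hT : ∑ x ∈ range N, (if π x ∈ U then w (π x) else 0) = M * ∑ v ∈ U, w v := by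
    rw [← Finset.sum_filter, Finset.mul_sum,
      ← Finset.sum_fiberwise_of_maps_to (s := (range N).filter (fun x => π x ∈ U)) (t := U)
        (g := π) (fun x hx => (Finset.mem_filter.mp hx).2)]
    apply Finset.sum_congr rfl
    intro v hv
    rw [Finset.sum_congr rfl (g := fun _ => w v)
      (fun x hx => by rw [(Finset.mem_filter.mp hx).2]), Finset.sum_const, nsmul_eq_mul,
      ← hfib v hv]
    congr 3
    ext x
    simp only [Finset.mem_filter]
    constructor
    · rintro ⟨⟨h1, _⟩, h2⟩; exact ⟨h1, h2⟩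
    · rintro ⟨h1, h2⟩; exact ⟨⟨h1, h2 ▸ hv⟩, h2⟩
  rw [hT] at hS
  have hMR : (0 : ℝ) < M := by exact_mod_cast hM
  have a1 : 0 ≤ (N : ℝ) * (M * ∑ v ∈ U, w v) := le_trans hF hS
  exact (mul_nonneg_iff_of_pos_left hMR).mp ((mul_nonneg_iff_of_pos_left hNR).mp a1)

open Classical in
theorem path_dual {t : ℕ} (hLD : LineDual t) (ht : 1 ≤ t) (π : ℕ → α) (N k M : ℕ)
    (adj : α → α → Prop) (hsymm : ∀ u v, adj u v → adj v u) (hrefl : ∀ v, adj v v)
    (U : Finset α) (hU : U.Nonempty) (μ e : ℝ) (he : 0 ≤ e) (hM : 0 < M) (hN0 : 0 < N)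
    (hinj : ∀ x y, x < N → y < N → x ≤ y + 2 * k → y ≤ x + 2 * k → π x = π y → x = y)
    (hfib : ∀ v ∈ U, ((range N).filter (fun x => π x = v)).card = M)
    (hNe : (N : ℝ) ≤ ((N : ℝ) - 2 * k) * (1 + e))
    (hN : ∀ x, x < N → ((U.filter (fun u => adj (π x) u)).card : ℝ) ≤ μ)
    (hW : ∀ a, k ≤ a → a ≤ N →
      ((t : ℝ) - 1) * ((1 + e) * μ) < (((Ico (a - k) a).filter (fun x => π x ∈ U)).card : ℝ))
    (w : α → ℝ) (hw : 0 ≤ ∑ v ∈ U, w v) :
    ∃ T ⊆ U, WinSet t k N π adj T ∧ 0 ≤ ∑ v ∈ T, w v := by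
  by_contra hcon
  push Not at hcon
  have htR : (0 : ℝ) < t := by exact_mod_cast ht
  obtain ⟨δ, hδ0, hδ⟩ : ∃ δ : ℝ, 0 < δ ∧ ∀ T ⊆ U, WinSet t k N π adj T →
      ∑ v ∈ T, w v + t * δ ≤ 0 := by
    by_cases hne : (U.powerset.filter (fun T => WinSet t k N π adj T)).Nonempty
    · obtain ⟨T0, hT0, hmax⟩ := Finset.exists_max_image _ (fun T => ∑ v ∈ T, w v) hne
      simp only [Finset.mem_filter, Finset.mem_powerset] at hT0 hmax
      have a1 := hcon T0 hT0.1 hT0.2
      refine ⟨-(∑ v ∈ T0, w v) / t, div_pos (by linarith) htR, ?_⟩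
      intro T hT hTa
      have a2 := hmax T ⟨hT, hTa⟩
      have a3 : (t : ℝ) * (-(∑ v ∈ T0, w v) / t) = -(∑ v ∈ T0, w v) := by field_simp
      linarith
    · refine ⟨1, one_pos, ?_⟩
      intro T hT hTa
      exact absurd ⟨T, Finset.mem_filter.mpr ⟨Finset.mem_powerset.mpr hT, hTa⟩⟩ hne
  have key := path_dual_weak hLD ht π N k M adj hsymm hrefl U (fun v => -w v - δ) μ e he hM hN0
    hinj hfib hNe hN hW (by
      intro T hT hTa
      have := hδ T hT hTa
      rw [Finset.sum_sub_distrib, Finset.sum_neg_distrib, Finset.sum_const, hTa.1, nsmul_eq_mul]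
      linarith)
  rw [Finset.sum_sub_distrib, Finset.sum_neg_distrib, Finset.sum_const, nsmul_eq_mul] at key
  have a1 : (0 : ℝ) < U.card := by exact_mod_cast hU.card_pos
  have a2 := mul_pos a1 hδ0
  linarith

end

end Pool.Agent.Lib.MP_8870f3_co
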