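import Mathlib
import Pool.Agent.Lib.MP_8870f3_co.Absorb
import Pool.Agent.Lib.MP_8870f3_co.Dual

set_option autoImplicit false
set_option linter.unusedSectionVars false
set_option linter.unusedVariables false

namespace Pool.Agent.Lib.MP_8870f3_co

open Finset

theorem Swap.perm {V : Type} [DecidableEq V] {E : Finset V → Prop} {A B : Finset V}
    {l l' : List V} (hp : l.Perm l') (h : Swap E A B l) : Swap E A B l' := by
  intro hn hx
  have e : l'.toFinset = l.toFinset := by
    ext z
    simp only [List.mem_toFinset]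
    exact hp.mem_iff.symm
  rw [e]
  exact h (hp.nodup_iff.mpr hn) (fun x hx' => hx x (hp.mem_iff.mp hx'))

open Classical in
/-- The data of a block: positions `range N` mapped by `π`, closed neighbourhoods of size at most
`m`, and `π` injective at distance at most `2 k`. -/
structure Block {α : Type} [DecidableEq α] (N k m : ℕ) (π : ℕ → α) (adj : α → α → Prop) :
    Prop where
  symm : ∀ u v, adj u v → adj v u
  refl : ∀ v, adj v v
  inj : ∀ x y, x < N → y < N → x ≤ y + 2 * k → y ≤ x + 2 * k → π x = π y → x = y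
  deg : ∀ v, (((range N).image π).filter (fun u => adj v u)).card ≤ m

section
variable {α : Type} [DecidableEq α] {N k m : ℕ} {π : ℕ → α} {adj : α → α → Prop}

theorem Block.window (hb : Block N k m π adj) (a b : ℕ) (hab : b ≤ a + 2 * k) (hb' : b < N) :
    ((Icc a b).image π).card = b + 1 - a := by
  rw [Finset.card_image_of_injOn, Nat.card_Icc]
  intro x hx y hy h
  simp only [Finset.coe_Icc, Set.mem_Icc] at hx hy
  exact hb.inj x y (by omega) (by omega) (by omega) (by omega) h

theorem window_subset (π : ℕ → α) (a b : ℕ) (hb' : b < N) :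
    (Icc a b).image π ⊆ (range N).image π := by
  apply Finset.image_subset_image
  intro x hx
  simp only [Finset.mem_Icc, Finset.mem_range] at hx ⊢
  omega

open Classical in
theorem Block.ext1 (hb : Block N k m π adj) (c a len : ℕ) (h1 : a + len < N) (h2 : len ≤ 2 * k) :
    ∀ (r : ℕ) (B : Finset α), B.card + r * m + c ≤ len + 1 + m →
      Rich ((range N).image π) c r (fun l =>
        (∀ v ∈ l, v ∉ B ∧ ∃ y, a ≤ y ∧ y ≤ a + len ∧ π y = v) ∧
          l.Pairwise (fun u v => ¬ adj u v)) := by
  intro r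
  induction r with
  | zero => intro B _; exact ⟨by simp, List.Pairwise.nil⟩
  | succ r ih =>
    intro B hB
    have e0 : (r + 1) * m = r * m + m := by ring
    refine Rich.succ_of (((Icc a (a + len)).image π) \ B)
      (Finset.sdiff_subset.trans (window_subset π _ _ h1)) ?_ ?_
    · have a1 := Finset.le_card_sdiff B ((Icc a (a + len)).image π)
      rw [hb.window a (a + len) (by omega) h1] at a1
      omega
    · intro x hx
      obtain ⟨hx1, hx2⟩ := Finset.mem_sdiff.mp hx
      obtain ⟨y, hy, rfl⟩ := Finset.mem_image.mp hx1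
      rw [Finset.mem_Icc] at hy
      refine (ih (B ∪ ((range N).image π).filter (fun u => adj (π y) u)) ?_).mono ?_
      · have a1 := Finset.card_union_le B (((range N).image π).filter (fun u => adj (π y) u))
        have a2 := hb.deg (π y)
        omega
      · intro l _ hX hl
        refine ⟨?_, ?_⟩
        · intro v hv
          rcases List.mem_cons.mp hv with rfl | hv
          · exact ⟨hx2, y, hy.1, hy.2, rfl⟩
          · exact ⟨fun h => (hl.1 v hv).1 (Finset.mem_union_left _ h), (hl.1 v hv).2⟩
        · rw [List.pairwise_cons]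
          refine ⟨?_, hl.2⟩
          intro v hv h
          exact (hl.1 v hv).1 (Finset.mem_union_right _ (Finset.mem_filter.mpr ⟨hX v hv, h⟩))

open Classical in
theorem Block.ext2 (hb : Block N k m π adj) (c : ℕ) :
    ∀ (r lo hi s : ℕ) (B : Finset α), lo ≤ hi → hi ≤ lo + s → s + r * m ≤ k → k ≤ hi →
      lo + k < N → B.card + c ≤ s + 2 * m + 1 →
      Rich ((range N).image π) c r (fun l =>
        (∀ v ∈ l, v ∉ B) ∧ l.Pairwise (fun u v => ¬ adj u v) ∧
          ∃ a, a ≤ lo ∧ hi ≤ a + k ∧ ∀ v ∈ l, ∃ y, a ≤ y ∧ y ≤ a + k ∧ y < N ∧ π y = v) := by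
  intro r
  induction r with
  | zero =>
    intro lo hi s B h1 h2 h3 _ _ _
    exact ⟨by simp, List.Pairwise.nil, lo, le_rfl, by omega, by simp⟩
  | succ r ih =>
    intro lo hi s B h1 h2 h3 h4 h5 hB
    have e0 : (r + 1) * m = r * m + m := by ring
    refine Rich.succ_of (((Icc (hi - (s + m)) (lo + (s + m))).image π) \ B)
      (Finset.sdiff_subset.trans (window_subset π _ _ (by omega))) ?_ ?_
    · have a1 := Finset.le_card_sdiff B ((Icc (hi - (s + m)) (lo + (s + m))).image π)
      rw [hb.window _ _ (by omega) (by omega)] at a1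
      omega
    · intro x hx
      obtain ⟨hx1, hx2⟩ := Finset.mem_sdiff.mp hx
      obtain ⟨y, hy, rfl⟩ := Finset.mem_image.mp hx1
      rw [Finset.mem_Icc] at hy
      refine (ih (min lo y) (max hi y) (s + m)
        (B ∪ ((range N).image π).filter (fun u => adj (π y) u)) (by omega) (by omega) (by omega)
        (by omega) (by omega) ?_).mono ?_
      · have a1 := Finset.card_union_le B (((range N).image π).filter (fun u => adj (π y) u))
        have a2 := hb.deg (π y)
        omega
      · rintro l _ hX ⟨hl1, hl2, a, ha1, ha2, hl3⟩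
        refine ⟨?_, ?_, a, by omega, by omega, ?_⟩
        · intro v hv
          rcases List.mem_cons.mp hv with rfl | hv
          · exact hx2
          · exact fun h => hl1 v hv (Finset.mem_union_left _ h)
        · rw [List.pairwise_cons]
          refine ⟨?_, hl2⟩
          intro v hv h
          exact hl1 v hv (Finset.mem_union_right _ (Finset.mem_filter.mpr ⟨hX v hv, h⟩))
        · intro v hv
          rcases List.mem_cons.mp hv with rfl | hv
          · exact ⟨y, by omega, by omega, by omega, rfl⟩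
          · exact hl3 v hv

theorem Block.allowed_list (hb : Block N k m π adj) {t : ℕ} (l : List α) (hlen : l.length = t)
    (hp : l.Pairwise (fun u v => ¬ adj u v))
    (hw : ∃ a : ℕ, ∀ v ∈ l, ∃ y, a ≤ y ∧ y ≤ a + k ∧ y < N ∧ π y = v) :
    WinSet t k N π adj l.toFinset := by
  have hn : l.Nodup := by
    refine hp.imp ?_
    intro u v h e
    exact h (e ▸ hb.refl u)
  refine ⟨by rw [List.toFinset_card_of_nodup hn, hlen], ?_, ?_⟩
  · intro u hu v hv huv
    rw [List.mem_toFinset] at hu hv
    have : Std.Symm (fun u v => ¬ adj u v) := ⟨fun x y h h' => h (hb.symm _ _ h')⟩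
    exact hp.forall hu hv huv
  · obtain ⟨a, ha⟩ := hw
    exact ⟨a, fun v hv => ha v (List.mem_toFinset.mp hv)⟩

theorem Block.tile_cons (hb : Block N k m π adj) {t : ℕ} (ht : 1 ≤ t) (l : List α) (u : α)
    (hlen : l.length = t - 1) (hp : l.Pairwise (fun u v => ¬ adj u v))
    (hu : ∀ v ∈ l, ¬ adj u v)
    (hw : ∃ a : ℕ, (∃ y, a ≤ y ∧ y ≤ a + k ∧ y < N ∧ π y = u) ∧
      ∀ v ∈ l, ∃ y, a ≤ y ∧ y ≤ a + k ∧ y < N ∧ π y = v) :
    Tile (WinSet t k N π adj) (l.toFinset ∪ {u}) := by
  have := hb.allowed_list (t := t) (u :: l) (by simp [hlen]; omega)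
    (List.pairwise_cons.mpr ⟨hu, hp⟩) (by
      obtain ⟨a, h1, h2⟩ := hw
      refine ⟨a, ?_⟩
      intro v hv
      rcases List.mem_cons.mp hv with rfl | hv
      · exact h1
      · exact h2 v hv)
  refine tile_congr (Tile.single this) ?_
  intro z
  simp only [List.toFinset_cons, Finset.mem_insert, Finset.mem_union, Finset.mem_singleton]
  tauto

theorem Block.rich_allowed (hb : Block N k m π adj) {t c : ℕ} (ht : 1 ≤ t) (hkN : k < N)
    (hc : (t - 1) * m + c ≤ k) :
    Rich ((range N).image π) c t (fun l => l.Nodup → WinSet t k N π adj l.toFinset) := by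
  have e0 : t * m = (t - 1) * m + m := by
    obtain ⟨s, rfl⟩ : ∃ s, t = s + 1 := ⟨t - 1, by omega⟩
    simp only [Nat.add_sub_cancel]
    ring
  refine (hb.ext1 c 0 k (by omega) (by omega) t ∅ (by simp; omega)).mono ?_
  intro l hl _ h _
  refine hb.allowed_list l hl h.2 ⟨0, ?_⟩
  intro v hv
  obtain ⟨y, h1, h2, h3⟩ := (h.1 v hv).2
  exact ⟨y, h1, h2, by omega, h3⟩

/-- Reachability with `r` intermediate vertices. -/
def Reach (t k N c : ℕ) (π : ℕ → α) (adj : α → α → Prop) (r : ℕ) (u v : α) : Prop :=
  Rich ((range N).image π) c (r * t + (t - 1)) (Swap (WinSet t k N π adj) {u} {v})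

variable {t c : ℕ}

theorem Reach.symm {r : ℕ} {u v : α} (h : Reach t k N c π adj r u v) :
    Reach t k N c π adj r v u := rich_swap_symm h

theorem Block.reach_pad (hb : Block N k m π adj) (ht : 1 ≤ t) (hkN : k < N)
    (hc : (t - 1) * m + c ≤ k) {r r' : ℕ} (hr : r ≤ r') {u v : α}
    (h : Reach t k N c π adj r u v) : Reach t k N c π adj r' u v := by
  induction r', hr using Nat.le_induction with
  | base => exact h
  | succ r' _ ih =>
    have := rich_pad (hb.rich_allowed ht hkN hc) ih
    unfold Reach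
    have e : (r' + 1) * t + (t - 1) = r' * t + (t - 1) + t := by ring
    rw [e]
    exact this

open Classical in
theorem Block.reach_close (hb : Block N k m π adj) (ht : 1 ≤ t) (d p p' : ℕ) (h1 : p ≤ p')
    (h2 : p' ≤ p + d) (h3 : k ≤ p') (h4 : p + k < N) (h5 : d + (t - 1) * m ≤ k) (h6 : c ≤ d + 1)
    (h7 : p' < N) : Reach t k N c π adj 0 (π p) (π p') := by
  unfold Reach
  rw [Nat.zero_mul, Nat.zero_add]
  refine (hb.ext2 c (t - 1) p p' d (((range N).image π).filter (fun u => adj (π p) u) ∪
    ((range N).image π).filter (fun u => adj (π p') u)) h1 h2 h5 h3 h4 ?_).mono ?_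
  · have a1 := Finset.card_union_le (((range N).image π).filter (fun u => adj (π p) u))
      (((range N).image π).filter (fun u => adj (π p') u))
    have a2 := hb.deg (π p)
    have a3 := hb.deg (π p')
    omega
  · rintro l hl hX ⟨hl1, hl2, a, ha1, ha2, hl3⟩ _ _
    constructor
    · refine hb.tile_cons ht l _ hl hl2 ?_ ⟨a, ⟨p, ha1, by omega, by omega, rfl⟩, hl3⟩
      intro v hv h
      exact hl1 v hv (Finset.mem_union_left _ (Finset.mem_filter.mpr ⟨hX v hv, h⟩))
    · refine hb.tile_cons ht l _ hl hl2 ?_ ⟨a, ⟨p', by omega, ha2, h7, rfl⟩, hl3⟩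
      intro v hv h
      exact hl1 v hv (Finset.mem_union_right _ (Finset.mem_filter.mpr ⟨hX v hv, h⟩))

theorem reach_trans (ht : 1 ≤ t) {r : ℕ} {u v : α} (Y : Finset α) (hY : Y ⊆ (range N).image π)
    (hc : c ≤ Y.card)
    (h : ∀ x ∈ Y, Reach t k N c π adj 0 u x ∧ Reach t k N c π adj r x v) :
    Reach t k N c π adj (r + 1) u v := by
  unfold Reach
  have e : (r + 1) * t + (t - 1) = ((r * t + (t - 1)) + (0 * t + (t - 1))) + 1 := by
    obtain ⟨s, rfl⟩ : ∃ s, t = s + 1 := ⟨t - 1, by omega⟩
    simp only [Nat.add_sub_cancel]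
    ring
  rw [e]
  refine Rich.succ_of Y hY hc ?_
  intro x hx
  apply Rich.bind
  refine (h x hx).1.mono ?_
  intro l1 _ _ h1
  refine (h x hx).2.mono ?_
  intro l2 _ _ h2
  exact (h1.chain h2).perm List.perm_middle

open Classical in
theorem Block.reach_step (hb : Block N k m π adj) (ht : 1 ≤ t) {r : ℕ} {v : α}
    (p a1 len a2 a3 : ℕ) (hp : p < N) (h1 : a2 ≤ a1) (h2 : a1 + len ≤ a2 + k) (h3 : a2 + k < N)
    (h4 : a3 ≤ p) (h5 : p ≤ a3 + k) (h6 : a3 ≤ a1) (h7 : a1 + len ≤ a3 + k)
    (h8 : (t - 1) * m + c ≤ len + 1)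
    (h : ∀ y, a2 ≤ y → y ≤ a2 + k → Reach t k N c π adj r (π y) v) :
    Reach t k N c π adj (r + 1) (π p) v := by
  unfold Reach
  have e : (r + 1) * t + (t - 1) = ((r * t + (t - 1)) + 1) + (t - 1) := by
    obtain ⟨s, rfl⟩ : ∃ s, t = s + 1 := ⟨t - 1, by omega⟩
    simp only [Nat.add_sub_cancel]
    ring
  rw [e]
  apply Rich.bind
  refine (hb.ext1 c a1 len (by omega) (by omega) (t - 1)
    (((range N).image π).filter (fun u => adj (π p) u)) (by
      have := hb.deg (π p)
      omega)).mono ?_
  rintro l1 hl1 hX ⟨hw, hpw⟩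
  let B : Finset α :=
    l1.toFinset.biUnion (fun s => ((range N).image π).filter (fun u => adj s u))
  have hB : B.card ≤ (t - 1) * m := by
    refine le_trans (Finset.card_biUnion_le_card_mul _ _ m (fun s _ => hb.deg s)) ?_
    apply Nat.mul_le_mul_right
    rw [← hl1]
    exact List.toFinset_card_le l1
  refine Rich.succ_of (((Icc a2 (a2 + k)).image π) \ B)
    (Finset.sdiff_subset.trans (window_subset π _ _ h3)) ?_ ?_
  · have a1 := Finset.le_card_sdiff B ((Icc a2 (a2 + k)).image π)
    rw [hb.window _ _ (by omega) h3] at a1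
    omega
  · intro x hx
    obtain ⟨hx1, hx2⟩ := Finset.mem_sdiff.mp hx
    have hxX := window_subset π _ _ h3 hx1
    obtain ⟨y, hy, rfl⟩ := Finset.mem_image.mp hx1
    rw [Finset.mem_Icc] at hy
    have hs : Swap (WinSet t k N π adj) {π p} {π y} l1 := by
      intro _ _
      constructor
      · refine hb.tile_cons ht l1 _ hl1 hpw ?_ ⟨a3, ⟨p, h4, h5, hp, rfl⟩, ?_⟩
        · intro z hz hadj
          exact (hw z hz).1 (Finset.mem_filter.mpr ⟨hX z hz, hadj⟩)
        · intro z hz
          obtain ⟨y', b1, b2, b3⟩ := (hw z hz).2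
          exact ⟨y', by omega, by omega, by omega, b3⟩
      · refine hb.tile_cons ht l1 _ hl1 hpw ?_ ⟨a2, ⟨y, hy.1, hy.2, by omega, rfl⟩, ?_⟩
        · intro z hz hadj
          exact hx2 (Finset.mem_biUnion.mpr ⟨z, List.mem_toFinset.mpr hz,
            Finset.mem_filter.mpr ⟨hxX, hb.symm _ _ hadj⟩⟩)
        · intro z hz
          obtain ⟨y', b1, b2, b3⟩ := (hw z hz).2
          exact ⟨y', by omega, by omega, by omega, b3⟩
    refine (h y hy.1 hy.2).mono ?_
    intro l2 _ _ h2
    exact hs.chain h2

theorem Block.reach_middle (hb : Block N k m π adj) (ht : 1 ≤ t) (hc0 : 1 ≤ c)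
    (hc : (t - 1) * m + 3 * c ≤ k) :
    ∀ (r p p' : ℕ), k ≤ p → p ≤ p' → p' + k < N → p' ≤ p + r * c →
      Reach t k N c π adj r (π p) (π p') := by
  intro r
  induction r with
  | zero =>
    intro p p' h1 h2 h3 h4
    exact hb.reach_close ht (2 * c) p p' h2 (by omega) (by omega) (by omega) (by omega)
      (by omega) (by omega)
  | succ r ih =>
    intro p p' h1 h2 h3 h4
    have e0 : (r + 1) * c = r * c + c := by ring
    by_cases hd : p' ≤ p + 2 * c
    · exact hb.reach_pad ht (by omega) (by omega) (Nat.zero_le _)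
        (hb.reach_close ht (2 * c) p p' h2 hd (by omega) (by omega) (by omega)
          (by omega) (by omega))
    · refine reach_trans ht ((Icc (p + c) (p + 2 * c)).image π)
        (window_subset π _ _ (by omega)) ?_ ?_
      · rw [hb.window _ _ (by omega) (by omega)]
        omega
      · intro x hx
        obtain ⟨y, hy, rfl⟩ := Finset.mem_image.mp hx
        rw [Finset.mem_Icc] at hy
        exact ⟨hb.reach_close ht (2 * c) p y (by omega) (by omega) (by omega) (by omega)
          (by omega) (by omega) (by omega), ih y p' (by omega) (by omega) h3 (by omega)⟩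

theorem Block.reach_extend (hb : Block N k m π adj) (ht : 1 ≤ t) (hc0 : 1 ≤ c)
    (hc : (t - 1) * m + 3 * c ≤ k) (hN : 4 * k ≤ N) (r i0 : ℕ) (hi0 : k ≤ i0 * c) (v : α)
    (h : ∀ p, k ≤ p → p + k < N → Reach t k N c π adj r (π p) v) :
    ∀ p, p < N → Reach t k N c π adj (r + i0) (π p) v := by
  have hL : ∀ i p, k ≤ p + i * c → p + k < N → Reach t k N c π adj (r + i) (π p) v := by
    intro i
    induction i with
    | zero => intro p h1 h2; exact h p (by omega) h2
    | succ i ih =>
      intro p h1 h2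
      have e0 : (i + 1) * c = i * c + c := by ring
      by_cases hp : k ≤ p
      · exact hb.reach_pad ht (by omega) (by omega) (by omega) (h p hp h2)
      · refine hb.reach_step ht p (p + c) (k - c) (p + c) p (by omega) le_rfl (by omega)
          (by omega) le_rfl (by omega) (by omega) (by omega) (by omega) ?_
        intro y hy1 hy2
        exact ih y (by omega) (by omega)
  have hR : ∀ i p, k ≤ p → p < N → p + k < N + i * c →
      Reach t k N c π adj (r + i) (π p) v := by
    intro i
    induction i with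
    | zero => intro p h1 _ h2; exact h p h1 (by omega)
    | succ i ih =>
      intro p h1 h0 h2
      have e0 : (i + 1) * c = i * c + c := by ring
      by_cases hp : p + k < N
      · exact hb.reach_pad ht (by omega) (by omega) (by omega) (h p h1 hp)
      · refine hb.reach_step ht p (p - k) (k - c) (p - k - c) (p - k) h0 (by omega) (by omega)
          (by omega) (by omega) (by omega) (by omega) (by omega) (by omega) ?_
        intro y hy1 hy2
        exact ih y (by omega) (by omega) (by omega)
  intro p hp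
  by_cases h1 : k ≤ p
  · exact hR i0 p h1 hp (by omega)
  · exact hL i0 p (by omega) (by omega)

theorem Block.reach_all (hb : Block N k m π adj) (ht : 1 ≤ t) (hc0 : 1 ≤ c)
    (hc : (t - 1) * m + 3 * c ≤ k) (hN : 4 * k ≤ N) (r : ℕ) (hr : N ≤ r * c) :
    ∀ u ∈ (range N).image π, ∀ v ∈ (range N).image π, Reach t k N c π adj (3 * r) u v := by
  have h1 : ∀ p p', k ≤ p → p + k < N → k ≤ p' → p' + k < N →
      Reach t k N c π adj r (π p) (π p') := by
    intro p p' a1 a2 a3 a4
    rcases le_total p p' with h | h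
    · exact hb.reach_middle ht hc0 hc r p p' a1 h a4 (by omega)
    · exact (hb.reach_middle ht hc0 hc r p' p a3 h a2 (by omega)).symm
  have h2 : ∀ p', k ≤ p' → p' + k < N → ∀ p, p < N →
      Reach t k N c π adj (r + r) (π p) (π p') := by
    intro p' a3 a4
    exact hb.reach_extend ht hc0 hc hN r r (by omega) _ (fun p a1 a2 => h1 p p' a1 a2 a3 a4)
  intro u hu v hv
  obtain ⟨p, hp, rfl⟩ := Finset.mem_image.mp hu
  obtain ⟨p', hp', rfl⟩ := Finset.mem_image.mp hv
  rw [Finset.mem_range] at hp hp'
  have := hb.reach_extend ht hc0 hc hN (r + r) r (by omega) (π p')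
    (fun q a1 a2 => (h2 q a1 a2 p' hp').symm) p hp
  have e : 3 * r = r + r + r := by ring
  rw [e]
  exact this

end

end Pool.Agent.Lib.MP_8870f3_co
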