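import Mathlib
import Pool.Agent.Lib.MP_8870f3_co.Reach

set_option autoImplicit false
set_option linter.unusedSectionVars false
set_option linter.unusedVariables false

namespace Pool.Agent.Lib.MP_8870f3_co

open Finset

section
variable {α : Type} [DecidableEq α] {N k m : ℕ} {π : ℕ → α} {adj : α → α → Prop}

open Classical in
theorem Block.almost {t : ℕ} (hLD : LineDual t) (hb : Block N k m π adj) (ht : 1 ≤ t) (M : ℕ)
    (hM : 0 < M) (hN0 : 0 < N)
    (hfib : ∀ v ∈ (range N).image π, ((range N).filter (fun x => π x = v)).card = M)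
    (e : ℝ) (he : 0 ≤ e) (hNe : (N : ℝ) ≤ ((N : ℝ) - 2 * k) * (1 + e))
    (Z : Finset α) (z : ℕ) (hZ : Z.card ≤ z) (l L : ℝ) (hl : 0 < l) (hlt : l * t ≤ 1)
    (hL0 : 0 ≤ L)
    (hL : 2 * (2 * ((N : ℝ) + 1)) * Real.exp (l ^ 2 * (t : ℝ) ^ 2 * N) ≤ Real.exp (l * L))
    (n1 : ℕ)
    (hn1 : (N : ℝ) * (L * (((t : ℝ) - 1) * (1 + e) + 1)) <
      n1 * (((k : ℝ) - z) - ((t : ℝ) - 1) * (1 + e) * m)) :
    ∃ W ⊆ (range N).image π \ Z,
      Tile (WinSet t k N π adj) (((range N).image π \ Z) \ W) ∧ W.card ≤ n1 := by
  set X := (range N).image π with hX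
  set R := X \ Z with hR
  have hXN : X.card ≤ N := le_trans Finset.card_image_le (by simp)
  have hRN : R.card ≤ N := le_trans (Finset.card_le_card Finset.sdiff_subset) hXN
  obtain ⟨A, hA1, hA2⟩ : ∃ A : Bool × ℕ → Finset α,
      (∀ a, A (true, a) = (Ico (a - k) a).image π) ∧
      (∀ x, A (false, x) = X.filter (fun u => adj (π x) u)) :=
    ⟨fun j => if j.1 = true then (Ico (j.2 - k) j.2).image π
      else X.filter (fun u => adj (π j.2) u), by simp, by simp⟩
  let f : Bool × ℕ → α → ℝ := fun j v =>
    (if v ∈ A j then 1 else 0) - ((R.filter (fun u => u ∈ A j)).card : ℝ) / R.card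
  have hsum : ∀ j (W : Finset α), ∑ v ∈ W, f j v = ((W.filter (fun u => u ∈ A j)).card : ℝ) -
      W.card * (((R.filter (fun u => u ∈ A j)).card : ℝ) / R.card) := by
    intro j W
    simp only [f]
    rw [Finset.sum_sub_distrib, Finset.sum_const, nsmul_eq_mul, Finset.sum_boole]
  have htR : (1 : ℝ) ≤ t := by exact_mod_cast ht
  have hNR : (0 : ℝ) < N := by exact_mod_cast hN0
  refine greedy ht (fun T hT => hT.1) ((Finset.univ : Finset Bool) ×ˢ range (N + 1)) f R ?_ ?_
    l L hl hlt ?_ n1 ?_
  · intro j _ v _
    have a1 : (0 : ℝ) ≤ ((R.filter (fun u => u ∈ A j)).card : ℝ) / R.card := by positivity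
    have a2 : ((R.filter (fun u => u ∈ A j)).card : ℝ) / R.card ≤ 1 := by
      apply div_le_one_of_le₀ _ (by positivity)
      exact_mod_cast Finset.card_filter_le _ _
    simp only [f]
    rw [abs_le]
    split_ifs <;> constructor <;> linarith
  · intro j _
    rw [hsum]
    by_cases h : R.card = 0
    · rw [Finset.card_eq_zero] at h
      rw [h]
      simp
    · have : (R.card : ℝ) ≠ 0 := by exact_mod_cast h
      field_simp
      ring
  · refine le_trans ?_ hL
    have a1 : ((((Finset.univ : Finset Bool) ×ˢ range (N + 1)).card : ℕ) : ℝ) =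
        2 * ((N : ℝ) + 1) := by
      simp
    rw [a1]
    apply mul_le_mul_of_nonneg_left _ (by positivity)
    apply Real.exp_le_exp.mpr
    apply mul_le_mul_of_nonneg_left _ (by positivity)
    exact_mod_cast hRN
  · intro W hWR hW hf w hw
    have hWc : W.card ≤ R.card := Finset.card_le_card hWR
    have hRpos : (0 : ℝ) < R.card := by exact_mod_cast (by omega : 0 < R.card)
    set p : ℝ := (W.card : ℝ) / R.card with hp
    have hp0 : 0 ≤ p := by positivity
    have hpN : (n1 : ℝ) ≤ p * N := by
      have a1 : (n1 : ℝ) ≤ W.card := by exact_mod_cast hW.le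
      have a2 : (R.card : ℝ) ≤ N := by exact_mod_cast hRN
      have a3 : p * R.card = W.card := by rw [hp]; field_simp
      nlinarith
    have hf' : ∀ j ∈ (Finset.univ : Finset Bool) ×ˢ range (N + 1),
        |((W.filter (fun u => u ∈ A j)).card : ℝ) -
          p * ((R.filter (fun u => u ∈ A j)).card : ℝ)| ≤ L := by
      intro j hj
      have := hf j hj
      rw [hsum] at this
      have e1 : (W.card : ℝ) * (((R.filter (fun u => u ∈ A j)).card : ℝ) / R.card) =
          p * ((R.filter (fun u => u ∈ A j)).card : ℝ) := by rw [hp]; ring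
      rwa [e1] at this
    have hWX : W ⊆ X := hWR.trans Finset.sdiff_subset
    refine path_dual hLD ht π N k M adj hb.symm hb.refl W (by rw [← Finset.card_pos]; omega)
      (p * m + L) e he hM hN0 hb.inj (fun v hv => hfib v (hWX hv)) hNe ?_ ?_ w hw
    · intro x hx
      have a1 := (abs_le.mp (hf' (false, x) (by simp; omega))).2
      have a2 : (W.filter (fun u => adj (π x) u)).card ≤
          (W.filter (fun u => u ∈ A (false, x))).card := by
        apply Finset.card_le_card
        intro u hu
        rw [hA2]
        simp only [Finset.mem_filter] at hu ⊢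
        exact ⟨hu.1, hWX hu.1, hu.2⟩
      have a3 : (R.filter (fun u => u ∈ A (false, x))).card ≤ m := by
        refine le_trans (Finset.card_le_card ?_) (hb.deg (π x))
        intro u hu
        rw [hA2] at hu
        exact (Finset.mem_filter.mp hu).2
      have a2' : ((W.filter (fun u => adj (π x) u)).card : ℝ) ≤
          ((W.filter (fun u => u ∈ A (false, x))).card : ℝ) := by exact_mod_cast a2
      have a3' : ((R.filter (fun u => u ∈ A (false, x))).card : ℝ) ≤ m := by exact_mod_cast a3
      have a4 := mul_le_mul_of_nonneg_left a3' hp0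
      linarith
    · intro a ha haN
      have a1 := (abs_le.mp (hf' (true, a) (by simp; omega))).1
      have a2 : (W.filter (fun u => u ∈ A (true, a))).card ≤
          ((Ico (a - k) a).filter (fun x => π x ∈ W)).card := by
        refine le_trans (Finset.card_le_card ?_) (Finset.card_image_le (f := π))
        intro u hu
        rw [hA1] at hu
        obtain ⟨hu1, hu2⟩ := Finset.mem_filter.mp hu
        obtain ⟨x, hx, rfl⟩ := Finset.mem_image.mp hu2
        exact Finset.mem_image.mpr ⟨x, Finset.mem_filter.mpr ⟨hx, hu1⟩, rfl⟩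
      have a3 : (A (true, a)).card = k := by
        rw [hA1, Finset.card_image_of_injOn, Nat.card_Ico]
        · omega
        · intro x hx y hy h
          simp only [Finset.coe_Ico, Set.mem_Ico] at hx hy
          exact hb.inj x y (by omega) (by omega) (by omega) (by omega) h
      have a4 : k ≤ (R.filter (fun u => u ∈ A (true, a))).card + z := by
        have b1 : A (true, a) \ Z ⊆ R.filter (fun u => u ∈ A (true, a)) := by
          intro u hu
          obtain ⟨hu1, hu2⟩ := Finset.mem_sdiff.mp hu
          refine Finset.mem_filter.mpr ⟨Finset.mem_sdiff.mpr ⟨?_, hu2⟩, hu1⟩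
          rw [hA1] at hu1
          obtain ⟨x, hx, rfl⟩ := Finset.mem_image.mp hu1
          rw [Finset.mem_Ico] at hx
          exact Finset.mem_image.mpr ⟨x, Finset.mem_range.mpr (by omega), rfl⟩
        have b2 := Finset.card_le_card b1
        have b3 := Finset.le_card_sdiff Z (A (true, a))
        omega
      have a2' : ((W.filter (fun u => u ∈ A (true, a))).card : ℝ) ≤
          (((Ico (a - k) a).filter (fun x => π x ∈ W)).card : ℝ) := by exact_mod_cast a2
      have a4' : (k : ℝ) - z ≤ ((R.filter (fun u => u ∈ A (true, a))).card : ℝ) := by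
        have : (k : ℝ) ≤ ((R.filter (fun u => u ∈ A (true, a))).card : ℝ) + z := by
          exact_mod_cast a4
        linarith
      have a5 := mul_le_mul_of_nonneg_left a4' hp0
      set D : ℝ := ((k : ℝ) - z) - ((t : ℝ) - 1) * (1 + e) * m with hD
      set K : ℝ := ((t : ℝ) - 1) * (1 + e) + 1 with hK
      have hK0 : 0 ≤ K := by
        have : 0 ≤ ((t : ℝ) - 1) * (1 + e) := mul_nonneg (by linarith) (by linarith)
        linarith
      have hD0 : 0 < D := by
        have b1 : 0 ≤ (N : ℝ) * (L * K) := by positivity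
        have b2 : (0 : ℝ) < n1 * D := lt_of_le_of_lt b1 hn1
        by_contra hcon
        have : (n1 : ℝ) * D ≤ 0 := mul_nonpos_of_nonneg_of_nonpos (by positivity) (by linarith)
        linarith
      have a6 : L * K < p * D := by
        have b1 : (n1 : ℝ) * D ≤ p * N * D := mul_le_mul_of_nonneg_right hpN hD0.le
        have b2 : (N : ℝ) * (L * K) < N * (p * D) := by linarith
        exact lt_of_mul_lt_mul_left b2 hNR.le
      have a7 : ((t : ℝ) - 1) * ((1 + e) * (p * m + L)) =
          p * ((k : ℝ) - z) - L - (p * D - L * K) := by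
        rw [hD, hK]; ring
      rw [a7]
      linarith

end

end Pool.Agent.Lib.MP_8870f3_co
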