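import Mathlib
import Pool.Agent.Lib.MP_8870f3_co.Almost

set_option autoImplicit false
set_option linter.unusedSectionVars false
set_option linter.unusedVariables false

namespace Pool.Agent.Lib.MP_8870f3_co

open Finset

theorem ev_pow_exp (C B A : ℝ) (t : ℕ) (hB : 0 < B) :
    ∃ k0 : ℕ, ∀ k : ℕ, k0 ≤ k → (C * k) ^ t * Real.exp A ≤ Real.exp (B * k) := by
  have h1 := Real.tendsto_pow_mul_exp_neg_atTop_nhds_zero t
  have h2 : Filter.Tendsto (fun k : ℕ => B * (k : ℝ)) Filter.atTop Filter.atTop :=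
    Filter.Tendsto.const_mul_atTop hB tendsto_natCast_atTop_atTop
  have h3 := (h1.comp h2).const_mul ((C / B) ^ t * Real.exp A)
  rw [mul_zero] at h3
  have h4 := h3.eventually (gt_mem_nhds (show (0 : ℝ) < 1 by norm_num))
  obtain ⟨k0, hk0⟩ := Filter.eventually_atTop.mp h4
  refine ⟨k0, fun k hk => ?_⟩
  have h5 := hk0 k hk
  simp only [Function.comp] at h5
  have h6 : (C * k) ^ t * Real.exp A =
      ((C / B) ^ t * Real.exp A * ((B * k) ^ t * Real.exp (-(B * k)))) * Real.exp (B * k) := by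
    have e1 : Real.exp (-(B * k)) * Real.exp (B * k) = 1 := by rw [← Real.exp_add]; simp
    have e2 : (C * k) ^ t = (C / B) ^ t * (B * k) ^ t := by
      rw [← mul_pow]; congr 1; field_simp
    rw [e2]
    calc (C / B) ^ t * (B * k) ^ t * Real.exp A
        = (C / B) ^ t * (B * k) ^ t * Real.exp A * (Real.exp (-(B * k)) * Real.exp (B * k)) := by
          rw [e1, mul_one]
      _ = _ := by ring
  rw [h6]
  have h7 := Real.exp_pos (B * k)
  nlinarith

open Classical in
theorem block_tiling {t : ℕ} (ht : 1 ≤ t) (hLD : LineDual t) (Q C1 : ℕ) (hQ : 1 ≤ Q)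
    (hC1 : 1 ≤ C1) :
    ∃ k0 : ℕ, ∀ k : ℕ, k0 ≤ k → ∀ N : ℕ, 10 * Q * k ≤ N → N ≤ C1 * k →
      ∀ (α : Type) [DecidableEq α] (π : ℕ → α) (adj : α → α → Prop) (m M : ℕ),
        Block N k m π adj → 0 < M →
        (∀ v ∈ (range N).image π, ((range N).filter (fun x => π x = v)).card = M) →
        t ∣ ((range N).image π).card → Q * ((t - 1) * m) + k ≤ Q * k →
        Tile (WinSet t k N π adj) ((range N).image π) := by
  set r : ℕ := 8 * Q * C1 with hr
  set j : ℕ := 3 * r * t + (t - 1) with hj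
  set s : ℕ := t * j + t with hs
  have hs1 : 1 ≤ s := by omega
  have hQR : (1 : ℝ) ≤ Q := by exact_mod_cast hQ
  have hCR : (1 : ℝ) ≤ C1 := by exact_mod_cast hC1
  have htR : (1 : ℝ) ≤ t := by exact_mod_cast ht
  have hsR : (1 : ℝ) ≤ s := by exact_mod_cast hs1
  set κ : ℝ := (1 / (32 * Q * C1)) ^ s with hκ
  have hκ0 : 0 < κ := by positivity
  have hκ1 : κ ≤ 1 := by
    apply pow_le_one₀ (by positivity)
    rw [div_le_one (by positivity)]
    nlinarith
  set β : ℝ := κ / (512 * Q * s) with hβ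
  have hβ0 : 0 < β := by positivity
  have hβ1 : β ≤ 1 := by
    rw [hβ, div_le_one (by positivity)]
    nlinarith
  set η : ℝ := β / (8 * Q * t * C1) with hη
  have hη0 : 0 < η := by positivity
  have hη1 : η ≤ 1 := by
    rw [hη, div_le_one (by positivity)]
    have : (1 : ℝ) ≤ Q * t := by nlinarith
    have : (1 : ℝ) ≤ Q * t * C1 := by nlinarith
    nlinarith
  set l : ℝ := η / (2 * t ^ 2 * C1) with hl
  have hl0 : 0 < l := by positivity
  obtain ⟨k1, hk1⟩ := ev_pow_exp C1 (3 * β) 2 t (by positivity)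
  obtain ⟨k2, hk2⟩ := ev_pow_exp (8 * C1) (l * η / 2) 0 1 (by positivity)
  refine ⟨max (max k1 k2) (8 * Q * t), ?_⟩
  intro k hk N hN1 hN2 α _ π adj m M hb hM hfib hdvd hm
  have hk1' : k1 ≤ k := le_trans (le_trans (le_max_left _ _) (le_max_left _ _)) hk
  have hk2' : k2 ≤ k := le_trans (le_trans (le_max_right _ _) (le_max_left _ _)) hk
  have hk3 : 8 * Q * t ≤ k := le_trans (le_max_right _ _) hk
  have hk0 : 1 ≤ k := by nlinarith
  have hkR : (1 : ℝ) ≤ k := by exact_mod_cast hk0
  have hkN : 10 * k ≤ N := by nlinarith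
  set c : ℕ := k / (4 * Q) with hc
  have hc1 : 4 * Q * c ≤ k := Nat.mul_div_le k (4 * Q)
  have hc2 : k < 4 * Q * (c + 1) := Nat.lt_mul_div_succ k (by omega)
  have hc3 : 2 * t ≤ c := by
    rw [hc, Nat.le_div_iff_mul_le (by omega)]
    nlinarith
  have hc4 : k ≤ 8 * Q * c := by nlinarith
  have hc5 : (t - 1) * m + 3 * c ≤ k := by
    have : Q * ((t - 1) * m + 3 * c) ≤ Q * k := by nlinarith
    exact Nat.le_of_mul_le_mul_left this (by omega)
  have hc6 : k ≤ 16 * Q * (c - t) := by
    have : c ≤ 2 * (c - t) := by omega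
    nlinarith
  set X := (range N).image π with hX
  have hXN : X.card ≤ N := le_trans Finset.card_image_le (by simp)
  have hXk : k ≤ X.card := by
    have a1 := hb.window 0 k (by omega) (by omega)
    have a2 := Finset.card_le_card (window_subset (N := N) π 0 k (by omega))
    rw [a1, ← hX] at a2
    omega
  set q : ℕ := k / (64 * Q * s) with hq
  have hq1 : 64 * Q * s * q ≤ k := Nat.mul_div_le k (64 * Q * s)
  have hq2 : k < 64 * Q * s * (q + 1) := Nat.lt_mul_div_succ k (by positivity)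
  set b : ℕ := ⌈β * k⌉₊ with hbdef
  have hb1 : β * k ≤ b := Nat.le_ceil _
  have hb2 : (b : ℝ) < β * k + 1 := Nat.ceil_lt_add_one (by positivity)
  have hNR : (N : ℝ) ≤ C1 * k := by exact_mod_cast hN2
  refine abstract_tiling (c := c) (j := j) ht (fun T hT => hT.1) hdvd (by nlinarith) (by omega)
    (hb.rich_allowed ht (by omega) (by omega))
    (hb.reach_all ht (by omega) hc5 (by omega) r (by nlinarith)) q b ?_ ?_ ?_
  · have : 16 * Q * (2 * (q * s)) ≤ 16 * Q * (c - t) := by nlinarith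
    exact Nat.le_of_mul_le_mul_left this (by omega)
  · have hXR : (X.card : ℝ) ≤ C1 * k := le_trans (by exact_mod_cast hXN) hNR
    have hXpos : (0 : ℝ) < X.card := by exact_mod_cast (by omega : 0 < X.card)
    have a1 : κ ≤ (((c - t : ℕ) : ℝ) / (2 * X.card)) ^ s := by
      apply pow_le_pow_left₀ (by positivity)
      rw [div_le_div_iff₀ (by positivity) (by positivity)]
      have b1 : (k : ℝ) ≤ 16 * Q * ((c - t : ℕ) : ℝ) := by exact_mod_cast hc6
      nlinarith
    have a2 : (((c - t : ℕ) : ℝ) / (2 * X.card)) ^ s ≤ 1 := by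
      apply pow_le_one₀ (by positivity)
      rw [div_le_one (by positivity)]
      have : ((c - t : ℕ) : ℝ) ≤ X.card := by
        have : c - t ≤ X.card := by nlinarith [Nat.sub_le c t]
        exact_mod_cast this
      linarith
    have a3 : (1 - (((c - t : ℕ) : ℝ) / (2 * X.card)) ^ s / 2) ^ q ≤ Real.exp (-(κ / 2) * q) := by
      rw [mul_comm (-(κ / 2)), Real.exp_nat_mul]
      apply pow_le_pow_left₀ (by linarith)
      have := Real.add_one_le_exp (-(κ / 2))
      linarith
    have a4 : (X.card : ℝ) ^ t ≤ (C1 * k) ^ t := pow_le_pow_left₀ hXpos.le hXR t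
    have a5 := hk1 k hk1'
    have a6 : 4 * β * k ≤ κ / 2 * q + 1 / 2 := by
      have b1 : (k : ℝ) ≤ 64 * Q * s * (q + 1) := by exact_mod_cast hq2.le
      have b2 : β * (512 * Q * s) = κ := by rw [hβ]; field_simp
      have b3 : β * k ≤ β * (64 * Q * s * (q + 1)) := mul_le_mul_of_nonneg_left b1 hβ0.le
      nlinarith
    have a7 : Real.exp (3 * β * k) * Real.exp (-(κ / 2) * q) ≤
        Real.exp (-(b : ℝ)) * Real.exp 2 := by
      rw [← Real.exp_add, ← Real.exp_add]
      apply Real.exp_le_exp.mpr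
      linarith
    have a8 : (X.card : ℝ) ^ t * (1 - (((c - t : ℕ) : ℝ) / (2 * X.card)) ^ s / 2) ^ q ≤
        (C1 * k) ^ t * Real.exp (-(κ / 2) * q) :=
      mul_le_mul a4 a3 (pow_nonneg (by linarith) _) (by positivity)
    refine le_trans a8 ?_
    have a9 : (C1 * k) ^ t * Real.exp (-(κ / 2) * q) * Real.exp 2 ≤
        Real.exp (-(b : ℝ)) * Real.exp 2 := by
      refine le_trans ?_ a7
      have := mul_le_mul_of_nonneg_right a5 (Real.exp_pos (-(κ / 2) * q)).le
      linarith
    exact le_of_mul_le_mul_right a9 (Real.exp_pos 2)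
  · intro Z _ hZ
    have hN1R : 10 * (Q : ℝ) * k ≤ N := by exact_mod_cast hN1
    refine hb.almost hLD ht M hM (by omega) hfib (1 / (4 * Q)) (by positivity) ?_ Z (q * s) hZ
      l (η * k) hl0 ?_ (by positivity) ?_ (t * b) ?_
    · have a1 : ((N : ℝ) - 2 * k) * (1 + 1 / (4 * Q)) =
          N + ((N : ℝ) - 2 * k - 8 * Q * k) / (4 * Q) := by field_simp; ring
      rw [a1]
      have : 0 ≤ ((N : ℝ) - 2 * k - 8 * Q * k) / (4 * Q) := by
        apply div_nonneg _ (by positivity)
        nlinarith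
      linarith
    · rw [hl, div_mul_eq_mul_div, div_le_one (by positivity)]
      have : (1 : ℝ) ≤ t * C1 := by nlinarith
      nlinarith
    · have a1 := hk2 k hk2'
      rw [pow_one, Real.exp_zero, mul_one] at a1
      have a2 : l ^ 2 * (t : ℝ) ^ 2 * N ≤ l * η / 2 * k := by
        have b1 : l * (2 * t ^ 2 * C1) = η := by rw [hl]; field_simp
        have b2 : l ^ 2 * (t : ℝ) ^ 2 * N ≤ l ^ 2 * (t : ℝ) ^ 2 * (C1 * k) :=
          mul_le_mul_of_nonneg_left hNR (by positivity)
        refine le_trans b2 (le_of_eq ?_)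
        rw [← b1]
        ring
      have a3 : 2 * (2 * ((N : ℝ) + 1)) ≤ 8 * C1 * k := by nlinarith
      calc 2 * (2 * ((N : ℝ) + 1)) * Real.exp (l ^ 2 * (t : ℝ) ^ 2 * N)
          ≤ Real.exp (l * η / 2 * k) * Real.exp (l * η / 2 * k) :=
            mul_le_mul (le_trans a3 a1) (Real.exp_le_exp.mpr a2) (Real.exp_pos _).le
              (Real.exp_pos _).le
        _ = _ := by rw [← Real.exp_add]; congr 1; ring
    · have a1 : (Q : ℝ) * (((t : ℝ) - 1) * m) + k ≤ Q * k := by
        have : ((Q * ((t - 1) * m) + k : ℕ) : ℝ) ≤ ((Q * k : ℕ) : ℝ) := by exact_mod_cast hm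
        push_cast [Nat.cast_sub ht] at this
        exact this
      have a2 : 64 * (Q : ℝ) * ((q * s : ℕ) : ℝ) ≤ k := by
        have : 64 * Q * (q * s) ≤ k := by nlinarith
        exact_mod_cast this
      set x : ℝ := ((t : ℝ) - 1) * m with hx
      have hx0 : 0 ≤ x := mul_nonneg (by linarith) (by positivity)
      have hxk : x ≤ k := by nlinarith
      have a3 : (k : ℝ) / (2 * Q) ≤
          ((k : ℝ) - ((q * s : ℕ) : ℝ)) - ((t : ℝ) - 1) * (1 + 1 / (4 * Q)) * m := by
        have b1 : ((t : ℝ) - 1) * (1 + 1 / (4 * Q)) * m = x + x / (4 * Q) := by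
          rw [hx]; ring
        rw [b1, div_le_iff₀ (by positivity)]
        have b2 : x / (4 * Q) * (2 * Q) = x / 2 := by field_simp; ring
        nlinarith
      have a4 : β * k ≤ ((t * b : ℕ) : ℝ) := by
        push_cast
        have : (0 : ℝ) ≤ b := by positivity
        nlinarith
      have a5 : ((t : ℝ) - 1) * (1 + 1 / (4 * Q)) + 1 ≤ 2 * t := by
        have : 1 / (4 * (Q : ℝ)) ≤ 1 := by
          rw [div_le_one (by positivity)]; linarith
        nlinarith
      have a5' : 0 ≤ ((t : ℝ) - 1) * (1 + 1 / (4 * Q)) + 1 := by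
        have : 0 ≤ ((t : ℝ) - 1) * (1 + 1 / (4 * Q)) := mul_nonneg (by linarith) (by positivity)
        linarith
      have a6 : (N : ℝ) * (η * k * (((t : ℝ) - 1) * (1 + 1 / (4 * Q)) + 1)) ≤
          (C1 * k) * (η * k * (2 * t)) := by
        apply mul_le_mul hNR _ (by positivity) (by positivity)
        exact mul_le_mul_of_nonneg_left a5 (by positivity)
      have a7 : (C1 * k) * (η * k * (2 * t)) < (β * k) * ((k : ℝ) / (2 * Q)) := by
        have b1 : (C1 * k) * (η * k * (2 * t)) = (β * k) * ((k : ℝ) / (4 * Q)) := by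
          rw [hη]; field_simp; ring
        rw [b1]
        apply mul_lt_mul_of_pos_left _ (by positivity)
        apply div_lt_div_of_pos_left (by positivity) (by positivity)
        linarith
      refine lt_of_le_of_lt a6 (lt_of_lt_of_le a7 ?_)
      exact mul_le_mul a4 a3 (by positivity) (by positivity)

end Pool.Agent.Lib.MP_8870f3_co
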