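import Mathlib
import Pool.Agent.Lib.MP_8870f3_co.BlockThm

set_option autoImplicit false
set_option linter.unusedSectionVars false
set_option linter.unusedVariables false

namespace Pool.Agent.Lib.MP_8870f3_co

open Finset

/-- Independent `t`-sets of the cycle contained in an arc of `k + 1` points. -/
def ArcSet (t k n : ℕ) (adj : ZMod n → ZMod n → Prop) (T : Finset (ZMod n)) : Prop :=
  T.card = t ∧ (∀ u ∈ T, ∀ v ∈ T, u ≠ v → ¬ adj u v) ∧
    ∃ a : ℕ, ∀ v ∈ T, ∃ y : ℕ, a ≤ y ∧ y ≤ a + k ∧ (y : ZMod n) = v

theorem cast_inj_close {n : ℕ} {x y : ℕ} (h : (x : ZMod n) = (y : ZMod n)) (h1 : x < y + n)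
    (h2 : y < x + n) : x = y := by
  rw [ZMod.natCast_eq_natCast_iff] at h
  rcases le_total x y with hxy | hxy
  · have := (Nat.modEq_iff_dvd' hxy).mp h
    have := Nat.eq_zero_of_dvd_of_lt this (by omega)
    omega
  · have := (Nat.modEq_iff_dvd' hxy).mp h.symm
    have := Nat.eq_zero_of_dvd_of_lt this (by omega)
    omega

open Classical in
theorem cycle_tiling {t : ℕ} (ht : 1 ≤ t) (hLD : LineDual t) (Q : ℕ) (hQ : 1 ≤ Q) :
    ∃ k0 : ℕ, ∀ k : ℕ, k0 ≤ k → ∀ (n : ℕ) [NeZero n], 2 * k + 1 ≤ n → t ∣ n →
      ∀ (adj : ZMod n → ZMod n → Prop) (m : ℕ), (∀ u v, adj u v → adj v u) → (∀ v, adj v v) →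
        (∀ v, (univ.filter (fun u => adj v u)).card ≤ m) → Q * ((t - 1) * m) + k ≤ Q * k →
        Tile (ArcSet t k n adj) univ := by
  obtain ⟨k0, hk0⟩ := block_tiling ht hLD Q (20 * Q * t) hQ (by nlinarith)
  refine ⟨max k0 1, ?_⟩
  intro k hk n _ hn hdvd adj m hsymm hrefl hdeg hm
  have hk1 : k0 ≤ k := le_trans (le_max_left _ _) hk
  have hk2 : 1 ≤ k := le_trans (le_max_right _ _) hk
  set B : ℕ := 10 * Q * t * k with hB
  have hB1 : 10 * Q * k ≤ B := by
    rw [hB]
    have : 10 * Q * k * 1 ≤ 10 * Q * k * t := Nat.mul_le_mul_left _ ht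
    nlinarith
  have hB2 : 2 * B = 20 * Q * t * k := by rw [hB]; ring
  have hB3 : t ∣ B := ⟨10 * Q * k, by rw [hB]; ring⟩
  have hB0 : 0 < B := by positivity
  have hblock : ∀ a N : ℕ, Block N k m (fun x => ((a + x : ℕ) : ZMod n)) adj := by
    intro a N
    refine ⟨hsymm, hrefl, ?_, ?_⟩
    · intro x y _ _ h1 h2 h
      have := cast_inj_close h (by omega) (by omega)
      omega
    · intro v
      refine le_trans (Finset.card_le_card ?_) (hdeg v)
      intro u hu
      simp only [Finset.mem_filter, Finset.mem_univ, true_and] at hu ⊢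
      exact hu.2
  have hmono : ∀ a N : ℕ, ∀ T, WinSet t k N (fun x => ((a + x : ℕ) : ZMod n)) adj T →
      ArcSet t k n adj T := by
    rintro a N T ⟨h1, h2, a', h3⟩
    refine ⟨h1, h2, a + a', ?_⟩
    intro v hv
    obtain ⟨y, b1, b2, _, b3⟩ := h3 v hv
    exact ⟨a + y, by omega, by omega, b3⟩
  have huniv : ∀ N : ℕ, n ≤ N → (range N).image (fun x => ((0 + x : ℕ) : ZMod n)) = univ := by
    intro N hN
    rw [Finset.eq_univ_iff_forall]
    intro v
    refine Finset.mem_image.mpr ⟨v.val, Finset.mem_range.mpr ?_, by simp⟩
    exact lt_of_lt_of_le (ZMod.val_lt v) hN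
  by_cases hnB : n < B
  · set M : ℕ := B / n + 1 with hM
    have hn0 : 0 < n := by omega
    have h1 : B < n * M := Nat.lt_mul_div_succ B hn0
    have h2 : n * M ≤ B + n := by
      have := Nat.mul_div_le B n
      rw [hM, Nat.mul_add]
      omega
    have hu := huniv (n * M) (by omega)
    have key := hk0 k hk1 (n * M) (by omega) (by omega) (ZMod n)
      (fun x => ((0 + x : ℕ) : ZMod n)) adj m M (hblock 0 _) (Nat.succ_pos _) (by
        intro v _
        have e : (range (n * M)).filter (fun x => ((0 + x : ℕ) : ZMod n) = v) =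
            (range M).image (fun i => v.val + n * i) := by
          ext x
          simp only [Finset.mem_filter, Finset.mem_range, Finset.mem_image, zero_add]
          constructor
          · rintro ⟨hx, hv⟩
            refine ⟨x / n, ?_, ?_⟩
            · exact Nat.div_lt_of_lt_mul hx
            · rw [← hv, ZMod.val_natCast]
              exact Nat.mod_add_div x n
          · rintro ⟨i, hi, rfl⟩
            refine ⟨?_, by simp⟩
            have a1 := ZMod.val_lt v
            have a2 : n * (i + 1) ≤ n * M := Nat.mul_le_mul_left _ hi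
            rw [Nat.mul_add] at a2
            omega
        rw [e, Finset.card_image_of_injOn, Finset.card_range]
        intro i _ j _ hij
        simp only at hij
        exact Nat.eq_of_mul_eq_mul_left hn0 (by omega))
      (by rw [hu, Finset.card_univ, ZMod.card]; exact hdvd) hm
    rw [hu] at key
    exact key.mono (hmono 0 _)
  · have hinjN : ∀ a N : ℕ, N ≤ n → ∀ x ∈ range N, ∀ y ∈ range N,
        ((a + x : ℕ) : ZMod n) = ((a + y : ℕ) : ZMod n) → x = y := by
      intro a N hN x hx y hy h
      rw [Finset.mem_range] at hx hy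
      have := cast_inj_close h (by omega) (by omega)
      omega
    have main : ∀ N : ℕ, B ≤ N → N ≤ n → t ∣ N → ∀ a : ℕ,
        Tile (ArcSet t k n adj) ((range N).image (fun x => ((a + x : ℕ) : ZMod n))) := by
      intro N
      induction N using Nat.strong_induction_on with
      | _ N ih =>
        intro h1 h2 h3 a
        by_cases h4 : N ≤ 2 * B
        · refine (hk0 k hk1 N (by omega) (by omega) (ZMod n)
            (fun x => ((a + x : ℕ) : ZMod n)) adj m 1 (hblock a _) (by omega) ?_ ?_ hm).mono
            (hmono a _)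
          · intro v hv
            obtain ⟨x, hx, rfl⟩ := Finset.mem_image.mp hv
            rw [Finset.card_eq_one]
            refine ⟨x, ?_⟩
            ext y
            simp only [Finset.mem_filter, Finset.mem_singleton]
            constructor
            · rintro ⟨hy, h⟩
              exact hinjN a N h2 y hy x hx h
            · rintro rfl
              exact ⟨hx, rfl⟩
          · rw [Finset.card_image_of_injOn (hinjN a N h2), Finset.card_range]
            exact h3
        · have i1 := ih B (by omega) le_rfl (by omega) hB3 a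
          have i2 := ih (N - B) (by omega) (by omega) (by omega) (Nat.dvd_sub h3 hB3) (a + B)
          refine tile_congr (i1.union i2 ?_) ?_
          · rw [Finset.disjoint_left]
            intro v hv hv'
            obtain ⟨x, hx, rfl⟩ := Finset.mem_image.mp hv
            obtain ⟨y, hy, h⟩ := Finset.mem_image.mp hv'
            rw [Finset.mem_range] at hx hy
            have := cast_inj_close h (by omega) (by omega)
            omega
          · intro v
            simp only [Finset.mem_union, Finset.mem_image, Finset.mem_range]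
            constructor
            · rintro (⟨x, hx, rfl⟩ | ⟨y, hy, rfl⟩)
              · exact ⟨x, by omega, rfl⟩
              · exact ⟨B + y, by omega, by rw [add_assoc]⟩
            · rintro ⟨x, hx, rfl⟩
              by_cases h5 : x < B
              · exact Or.inl ⟨x, h5, rfl⟩
              · refine Or.inr ⟨x - B, by omega, ?_⟩
                congr 1
                omega
    have := main n (by omega) le_rfl hdvd 0
    rwa [huniv n le_rfl] at this

end Pool.Agent.Lib.MP_8870f3_co
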