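import Mathlib
import Pool.Agent.Lib.MP_8870f3_co.Defs

set_option autoImplicit false

namespace Pool.Agent.Lib.MP_8870f3_co

open Finset

/-- Allowed sets: independent, at most `t` points, span at most `k`, inside `range N`. -/
structure Allowed (t N k : ℕ) (adj : ℕ → ℕ → Prop) (I : Finset ℕ) : Prop where
  sub : I ⊆ range N
  card : I.card ≤ t
  ind : ∀ u ∈ I, ∀ v ∈ I, u ≠ v → ¬ adj u v
  span : ∀ u ∈ I, ∀ v ∈ I, u ≤ v + k

theorem Allowed.mono {t N k : ℕ} {adj : ℕ → ℕ → Prop} {I J : Finset ℕ}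
    (h : Allowed t N k adj I) (hJ : J ⊆ I) : Allowed t N k adj J :=
  ⟨hJ.trans h.sub, (card_le_card hJ).trans h.card, fun u hu v hv => h.ind u (hJ hu) v (hJ hv),
    fun u hu v hv => h.span u (hJ hu) v (hJ hv)⟩

/-- Feasible dual weights. -/
structure Feas (t N k : ℕ) (adj : ℕ → ℕ → Prop) (y : ℕ → ℝ) : Prop where
  nonneg : ∀ x, 0 ≤ y x
  le : ∀ I, Allowed t N k adj I → ∑ x ∈ I, y x ≤ (t : ℝ)
  bd : ∀ x, x < k → y x ≤ 1

open Classical in
/-- The certificate statement: a feasible weight with a tight set of fewer than `t` points admits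
a combination of windows and closed neighbourhoods that is non-positive on all tight sets. -/
def Cert (t : ℕ) : Prop :=
  ∀ (N k : ℕ) (adj : ℕ → ℕ → Prop) (y : ℕ → ℝ),
    (∀ u v, adj u v → adj v u) → (∀ v, adj v v) → Feas t N k adj y →
    (∃ U, Allowed t N k adj U ∧ U.card < t ∧ ∑ x ∈ U, y x = t) →
    ∃ (τ ε : ℕ → ℝ), (∀ a, 0 ≤ τ a) ∧ (∀ v, 0 ≤ ε v) ∧ 0 < ∑ a ∈ Icc k N, τ a ∧
      ∑ v ∈ range N, ε v ≤ ((t : ℝ) - 1) * ∑ a ∈ Icc k N, τ a ∧
      (∀ I, Allowed t N k adj I → ∑ x ∈ I, y x = t →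
        ∑ x ∈ I, ((∑ a ∈ Icc k N, if x ∈ Ico (a - k) a then τ a else 0) -
          ∑ v ∈ range N, if adj v x then ε v else 0) ≤ 0) ∧
      (∀ x, x < k → x < N → y x = 1 →
        (∑ a ∈ Icc k N, if x ∈ Ico (a - k) a then τ a else 0) -
          (∑ v ∈ range N, if adj v x then ε v else 0) ≤ 0)

/-- At a maximiser of the dual program no admissible direction increases the objective. -/
theorem improve {t N k : ℕ} {adj : ℕ → ℕ → Prop} {ρ y : ℕ → ℝ} (hρ : ∀ x, 0 ≤ ρ x)
    (hy : Feas t N k adj y)
    (hmax : ∀ z, Feas t N k adj z → ∑ x ∈ range N, ρ x * z x ≤ ∑ x ∈ range N, ρ x * y x)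
    (c : ℕ → ℝ) (hc : ∀ I, Allowed t N k adj I → ∑ x ∈ I, y x = t → ∑ x ∈ I, c x ≤ 0)
    (hb : ∀ x, x < k → x < N → y x = 1 → c x ≤ 0) :
    ∑ x ∈ range N, ρ x * c x ≤ 0 := by
  classical
  -- a small step size
  have h1 : ∀ᶠ δ in nhdsWithin (0 : ℝ) (Set.Ioi 0), ∀ I ∈ (range N).powerset,
      Allowed t N k adj I → ∑ x ∈ I, (y x + δ * c x) ≤ (t : ℝ) := by
    rw [Filter.eventually_all_finset]
    intro I _
    by_cases hI : Allowed t N k adj I
    · rcases (hy.le I hI).eq_or_lt with he | hl
      · filter_upwards [self_mem_nhdsWithin] with δ hδ _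
        rw [sum_add_distrib, ← mul_sum, he]
        have := mul_nonpos_of_nonneg_of_nonpos (le_of_lt hδ) (hc I hI he)
        linarith
      · have hcont : Continuous (fun δ : ℝ => ∑ x ∈ I, (y x + δ * c x)) := by fun_prop
        have : ∀ᶠ δ in nhds (0 : ℝ), ∑ x ∈ I, (y x + δ * c x) < (t : ℝ) := by
          apply hcont.continuousAt.eventually_lt continuousAt_const
          simpa using hl
        filter_upwards [mem_nhdsWithin_of_mem_nhds this] with δ hδ _
        exact le_of_lt hδ
    · exact Filter.Eventually.of_forall (fun δ h => absurd h hI)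
  have h2 : ∀ᶠ δ in nhdsWithin (0 : ℝ) (Set.Ioi 0), ∀ x ∈ range N,
      x < k → y x + δ * c x ≤ 1 := by
    rw [Filter.eventually_all_finset]
    intro x hx
    by_cases hk : x < k
    · rcases (hy.bd x hk).eq_or_lt with he | hl
      · filter_upwards [self_mem_nhdsWithin] with δ hδ _
        have := mul_nonpos_of_nonneg_of_nonpos (le_of_lt hδ) (hb x hk (mem_range.mp hx) he)
        linarith
      · have hcont : Continuous (fun δ : ℝ => y x + δ * c x) := by fun_prop
        have : ∀ᶠ δ in nhds (0 : ℝ), y x + δ * c x < 1 := by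
          apply hcont.continuousAt.eventually_lt continuousAt_const
          simpa using hl
        filter_upwards [mem_nhdsWithin_of_mem_nhds this] with δ hδ _
        exact le_of_lt hδ
    · exact Filter.Eventually.of_forall (fun δ h => absurd h hk)
  obtain ⟨δ, ⟨hδ1, hδ2⟩, hδ⟩ := ((h1.and h2).and self_mem_nhdsWithin).exists
  have hδ' : 0 < δ := hδ
  set z : ℕ → ℝ := fun x => if x < N then max 0 (y x + δ * c x) else 0 with hz
  have hzf : Feas t N k adj z := by
    refine ⟨fun x => ?_, fun I hI => ?_, fun x hx => ?_⟩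
    · simp only [hz]; split_ifs
      · exact le_max_left _ _
      · exact le_refl _
    · set J := I.filter (fun x => 0 ≤ y x + δ * c x) with hJ
      have hJI : J ⊆ I := filter_subset _ _
      have hJa := hI.mono hJI
      have := hδ1 J (mem_powerset.mpr hJa.sub) hJa
      have he : ∑ x ∈ I, z x = ∑ x ∈ J, (y x + δ * c x) := by
        rw [hJ, sum_filter]
        apply sum_congr rfl
        intro x hx
        have hxN : x < N := mem_range.mp (hI.sub hx)
        simp only [hz, hxN, if_true]
        split_ifs with h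
        · exact max_eq_right h
        · exact max_eq_left (le_of_lt (not_le.mp h))
      rw [he]; exact this
    · simp only [hz]; split_ifs with h
      · exact max_le zero_le_one (hδ2 x (mem_range.mpr h) hx)
      · exact zero_le_one
  have h3 := hmax z hzf
  have h4 : ∑ x ∈ range N, ρ x * (y x + δ * c x) ≤ ∑ x ∈ range N, ρ x * z x := by
    apply sum_le_sum
    intro x hx
    apply mul_le_mul_of_nonneg_left _ (hρ x)
    simp only [hz, mem_range.mp hx, if_true]
    exact le_max_right _ _
  have h5 : ∑ x ∈ range N, ρ x * (y x + δ * c x) =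
      ∑ x ∈ range N, ρ x * y x + δ * ∑ x ∈ range N, ρ x * c x := by
    rw [mul_sum, ← sum_add_distrib]
    apply sum_congr rfl
    intro x _; ring
  have h6 : δ * ∑ x ∈ range N, ρ x * c x ≤ 0 := by linarith
  by_contra hcon
  push Not at hcon
  have := mul_pos hδ' hcon
  linarith

theorem exists_max {t N k : ℕ} (ht : 1 ≤ t) (adj : ℕ → ℕ → Prop) (ρ : ℕ → ℝ) :
    ∃ y, Feas t N k adj y ∧
      ∀ z, Feas t N k adj z → ∑ x ∈ range N, ρ x * z x ≤ ∑ x ∈ range N, ρ x * y x := by
  classical
  set K : Set (ℕ → ℝ) := {y | (∀ x, y x ∈ Set.Icc (0 : ℝ) t) ∧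
    (∀ I, Allowed t N k adj I → ∑ x ∈ I, y x ≤ (t : ℝ)) ∧ ∀ x, x < k → y x ≤ 1} with hK
  have hKc : IsCompact K := by
    have h1 : IsCompact (Set.pi Set.univ (fun _ : ℕ => Set.Icc (0 : ℝ) t)) :=
      isCompact_univ_pi (fun _ => isCompact_Icc)
    apply h1.of_isClosed_subset
    · have e : K = (⋂ x, {y : ℕ → ℝ | y x ∈ Set.Icc (0 : ℝ) t}) ∩
          ((⋂ I, ⋂ (_ : Allowed t N k adj I), {y : ℕ → ℝ | ∑ x ∈ I, y x ≤ (t : ℝ)}) ∩
            ⋂ x, ⋂ (_ : x < k), {y : ℕ → ℝ | y x ≤ 1}) := by
        ext y; simp [hK]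
      rw [e]
      refine IsClosed.inter (isClosed_iInter fun x => ?_) (IsClosed.inter
        (isClosed_iInter fun I => isClosed_iInter fun _ => ?_)
        (isClosed_iInter fun x => isClosed_iInter fun _ => ?_))
      · exact isClosed_Icc.preimage (continuous_apply x)
      · exact isClosed_le (by fun_prop) continuous_const
      · exact isClosed_le (continuous_apply x) continuous_const
    · intro y hy x _
      exact hy.1 x
  have hne : K.Nonempty := by
    refine ⟨fun _ => 0, fun x => ⟨le_refl _, by positivity⟩, fun I _ => by simp, fun x _ => by simp⟩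
  have hcont : Continuous (fun y : ℕ → ℝ => ∑ x ∈ range N, ρ x * y x) := by fun_prop
  obtain ⟨y, hyK, hy⟩ := hKc.exists_isMaxOn hne hcont.continuousOn
  refine ⟨y, ⟨fun x => (hyK.1 x).1, hyK.2.1, hyK.2.2⟩, fun z hz => ?_⟩
  set w : ℕ → ℝ := fun x => if x < N then z x else 0 with hw
  have hwK : w ∈ K := by
    refine ⟨fun x => ?_, fun I hI => ?_, fun x hx => ?_⟩
    · simp only [hw]; split_ifs with h
      · refine ⟨hz.nonneg x, ?_⟩
        have := hz.le {x} ⟨by simpa using h, by simpa using ht, by simp, by simp⟩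
        simpa using this
      · exact ⟨le_refl _, by positivity⟩
    · have : ∑ x ∈ I, w x = ∑ x ∈ I, z x :=
        sum_congr rfl (fun x hx => by simp [hw, mem_range.mp (hI.sub hx)])
      rw [this]; exact hz.le I hI
    · simp only [hw]; split_ifs
      · exact hz.bd x hx
      · exact zero_le_one
  have h1 : ∑ x ∈ range N, ρ x * z x = ∑ x ∈ range N, ρ x * w x :=
    sum_congr rfl (fun x hx => by simp [hw, mem_range.mp hx])
  rw [h1]
  exact hy hwK

theorem lineDual_of_cert {t : ℕ} (ht : 1 ≤ t) (h : Cert t) : LineDual t := by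
  classical
  intro N k adj ρ y0 μ hsym hrefl hρ hdeg hwin hy0 hle hbd
  obtain ⟨y, hy, hmax⟩ := exists_max (N := N) (k := k) ht adj ρ
  have hy0f : Feas t N k adj y0 := ⟨hy0, fun I hI => hle I hI.sub hI.card hI.ind hI.span, hbd⟩
  refine (hmax y0 hy0f).trans ?_
  by_cases hU : ∃ U, Allowed t N k adj U ∧ U.card < t ∧ ∑ x ∈ U, y x = t
  · exfalso
    obtain ⟨τ, ε, hτ, hε, hpos, hbud, hI, hb⟩ := h N k adj y hsym hrefl hy hU
    have key := improve hρ hy hmax _ hI hb
    have e1 : ∑ x ∈ range N, ρ x * ((∑ a ∈ Icc k N, if x ∈ Ico (a - k) a then τ a else 0) -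
          ∑ v ∈ range N, if adj v x then ε v else 0) =
        ∑ a ∈ Icc k N, τ a * ∑ x ∈ Ico (a - k) a, ρ x -
          ∑ v ∈ range N, ε v * ∑ u ∈ (range N).filter (fun u => adj v u), ρ u := by
      simp only [mul_sub, sum_sub_distrib, mul_sum]
      congr 1
      · rw [sum_comm]
        apply sum_congr rfl
        intro a ha
        have hsub : Ico (a - k) a = (range N).filter (fun x => x ∈ Ico (a - k) a) := by
          ext x
          simp only [mem_filter, mem_range, mem_Ico, mem_Icc] at *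
          omega
        conv_rhs => rw [hsub, sum_filter]
        apply sum_congr rfl
        intro x _
        split_ifs <;> ring
      · rw [sum_comm]
        apply sum_congr rfl
        intro v _
        rw [sum_filter]
        apply sum_congr rfl
        intro x _
        split_ifs <;> ring
    rw [e1] at key
    have hμ : 0 ≤ μ := by
      obtain ⟨U, hUa, _, hUs⟩ := hU
      have hUne : U.Nonempty := by
        rw [nonempty_iff_ne_empty]
        rintro rfl
        simp at hUs
        have : (1 : ℝ) ≤ t := by exact_mod_cast ht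
        linarith
      obtain ⟨v, hv⟩ := hUne
      exact (sum_nonneg (fun u _ => hρ u)).trans (hdeg v (mem_range.mp (hUa.sub hv)))
    have e2 : ∑ v ∈ range N, ε v * ∑ u ∈ (range N).filter (fun u => adj v u), ρ u ≤
        (∑ v ∈ range N, ε v) * μ := by
      rw [sum_mul]
      exact sum_le_sum (fun v hv => mul_le_mul_of_nonneg_left (hdeg v (mem_range.mp hv)) (hε v))
    have e3 : (∑ a ∈ Icc k N, τ a) * (((t : ℝ) - 1) * μ) <
        ∑ a ∈ Icc k N, τ a * ∑ x ∈ Ico (a - k) a, ρ x := by
      rw [sum_mul]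
      obtain ⟨a, ha, hapos⟩ : ∃ a ∈ Icc k N, 0 < τ a := by
        by_contra hcon
        push Not at hcon
        have := sum_nonpos hcon
        linarith
      apply sum_lt_sum
      · intro b hb
        exact mul_le_mul_of_nonneg_left
          (le_of_lt (hwin b (mem_Icc.mp hb).1 (mem_Icc.mp hb).2)) (hτ b)
      · exact ⟨a, ha, mul_lt_mul_of_pos_left (hwin a (mem_Icc.mp ha).1 (mem_Icc.mp ha).2) hapos⟩
    have e4 := mul_le_mul_of_nonneg_right hbud hμ
    nlinarith
  · have key := improve hρ hy hmax (fun x => y x - 1) (fun I hI hs => by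
      have hc : I.card = t := by
        by_contra hne
        exact hU ⟨I, hI, lt_of_le_of_ne hI.card hne, hs⟩
      rw [sum_sub_distrib, hs]
      simp [hc]) (fun x _ _ hx => by simp [hx])
    have e : ∑ x ∈ range N, ρ x * (y x - 1) =
        ∑ x ∈ range N, ρ x * y x - ∑ x ∈ range N, ρ x := by
      rw [← sum_sub_distrib]
      exact sum_congr rfl (fun x _ => by ring)
    linarith

end Pool.Agent.Lib.MP_8870f3_co
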