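import Mathlib
import Pool.Agent.Lib.MP_8870f3_co.Improve

set_option autoImplicit false

namespace Pool.Agent.Lib.MP_8870f3_co

open Finset

open Classical in
/-- The test function of one window and two closed neighbourhoods. -/
noncomputable def cfun (k : ℕ) (adj : ℕ → ℕ → Prop) (a w1 w2 x : ℕ) : ℝ :=
  (if x ∈ Ico (a - k) a then 1 else 0) - (if adj w1 x then 1 else 0) - (if adj w2 x then 1 else 0)

open Classical in
theorem cert_single {N k : ℕ} {adj : ℕ → ℕ → Prop} {y : ℕ → ℝ} (a w1 w2 : ℕ)
    (hka : k ≤ a) (haN : a ≤ N) (h1 : w1 < N) (h2 : w2 < N)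
    (hI : ∀ I, Allowed 3 N k adj I → ∑ x ∈ I, y x = (3 : ℕ) → ∑ x ∈ I, cfun k adj a w1 w2 x ≤ 0)
    (hb : ∀ x, x < N → 0 < y x → cfun k adj a w1 w2 x ≤ 0) :
    ∃ (τ ε : ℕ → ℝ), (∀ a, 0 ≤ τ a) ∧ (∀ v, 0 ≤ ε v) ∧ 0 < ∑ a ∈ Icc k N, τ a ∧
      ∑ v ∈ range N, ε v ≤ (((3 : ℕ) : ℝ) - 1) * ∑ a ∈ Icc k N, τ a ∧
      (∀ I, Allowed 3 N k adj I → ∑ x ∈ I, y x = (3 : ℕ) →
        ∑ x ∈ I, ((∑ a ∈ Icc k N, if x ∈ Ico (a - k) a then τ a else 0) -
          ∑ v ∈ range N, if adj v x then ε v else 0) ≤ 0) ∧
      (∀ x, x < k → x < N → y x = 1 →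
        (∑ a ∈ Icc k N, if x ∈ Ico (a - k) a then τ a else 0) -
          (∑ v ∈ range N, if adj v x then ε v else 0) ≤ 0) := by
  have hτ : ∑ b ∈ Icc k N, (if b = a then (1 : ℝ) else 0) = 1 := by
    rw [sum_ite_eq']; simp [hka, haN]
  have hc : ∀ x, (∑ b ∈ Icc k N, if x ∈ Ico (b - k) b then (if b = a then (1 : ℝ) else 0) else 0) -
      (∑ v ∈ range N, if adj v x then ((if v = w1 then (1 : ℝ) else 0) +
        (if v = w2 then (1 : ℝ) else 0)) else 0) = cfun k adj a w1 w2 x := by
    intro x
    have e1 : (∑ b ∈ Icc k N, if x ∈ Ico (b - k) b then (if b = a then (1 : ℝ) else 0) else 0) =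
        if x ∈ Ico (a - k) a then 1 else 0 := by
      rw [sum_eq_single a]
      · simp
      · intro b _ hb; simp [hb]
      · intro h; exact absurd (mem_Icc.mpr ⟨hka, haN⟩) h
    have e2 : ∀ w, w < N → (∑ v ∈ range N, if adj v x then (if v = w then (1 : ℝ) else 0) else 0) =
        if adj w x then 1 else 0 := by
      intro w hw
      rw [sum_eq_single w]
      · simp
      · intro b _ hb; simp [hb]
      · intro h; exact absurd (mem_range.mpr hw) h
    have e3 : (∑ v ∈ range N, if adj v x then ((if v = w1 then (1 : ℝ) else 0) +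
        (if v = w2 then (1 : ℝ) else 0)) else 0) =
        (∑ v ∈ range N, if adj v x then (if v = w1 then (1 : ℝ) else 0) else 0) +
        (∑ v ∈ range N, if adj v x then (if v = w2 then (1 : ℝ) else 0) else 0) := by
      rw [← sum_add_distrib]
      apply sum_congr rfl
      intro v _
      split_ifs <;> simp
    rw [e1, e3, e2 w1 h1, e2 w2 h2, cfun]
    ring
  refine ⟨fun b => if b = a then 1 else 0,
    fun v => (if v = w1 then 1 else 0) + (if v = w2 then 1 else 0), fun b => ?_, fun v => ?_,
    by rw [hτ]; exact one_pos, ?_, fun I hIa hIs => ?_, fun x _ hxN hx => ?_⟩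
  · dsimp only; split_ifs <;> norm_num
  · dsimp only; split_ifs <;> norm_num
  · rw [hτ, sum_add_distrib, sum_ite_eq', sum_ite_eq']
    simp [h1, h2]
    norm_num
  · simp only [hc]; exact hI I hIa hIs
  · rw [hc]; exact hb x hxN (by rw [hx]; exact one_pos)

theorem allowed_insert {t N k : ℕ} {adj : ℕ → ℕ → Prop} (hsym : ∀ u v, adj u v → adj v u)
    {I : Finset ℕ} (hI : Allowed t N k adj I) (x : ℕ) (hx : x < N) (hc : I.card < t)
    (hn : ∀ u ∈ I, ¬ adj u x) (hs : ∀ u ∈ I, u ≤ x + k ∧ x ≤ u + k) :
    Allowed t N k adj (insert x I) := by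
  refine ⟨insert_subset (mem_range.mpr hx) hI.sub, (card_insert_le _ _).trans hc, ?_, ?_⟩
  · intro u hu v hv huv
    rcases mem_insert.mp hu with rfl | hu' <;> rcases mem_insert.mp hv with rfl | hv'
    · exact absurd rfl huv
    · exact fun h => hn v hv' (hsym _ _ h)
    · exact hn u hu'
    · exact hI.ind u hu' v hv' huv
  · intro u hu v hv
    rcases mem_insert.mp hu with rfl | hu' <;> rcases mem_insert.mp hv with rfl | hv'
    · omega
    · exact (hs v hv').2
    · exact (hs u hu').1
    · exact hI.span u hu' v hv'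

theorem allowed_single {t N k : ℕ} {adj : ℕ → ℕ → Prop} (ht : 1 ≤ t) (x : ℕ) (hx : x < N) :
    Allowed t N k adj {x} :=
  ⟨by simpa using hx, by simpa using ht, by simp, by simp⟩

theorem allowed_pair {N k : ℕ} {adj : ℕ → ℕ → Prop} (hsym : ∀ u v, adj u v → adj v u)
    (u v : ℕ) (hu : u < N) (hv : v < N) (hn : ¬ adj u v) (h1 : u ≤ v + k) (h2 : v ≤ u + k) :
    Allowed 3 N k adj {v, u} :=
  allowed_insert hsym (allowed_single (by norm_num) u hu) v hv (by simp)
    (by simpa using hn) (by simpa using ⟨h1, h2⟩)

theorem sum_pos_filter (y : ℕ → ℝ) (hy : ∀ x, 0 ≤ y x) (I : Finset ℕ) :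
    ∑ x ∈ I.filter (fun x => 0 < y x), y x = ∑ x ∈ I, y x := by
  rw [sum_filter]
  apply sum_congr rfl
  intro x _
  split_ifs with h
  · rfl
  · exact le_antisymm (hy x) (not_lt.mp h)

theorem cert_three : Cert 3 := by
  classical
  intro N k adj y hsym hrefl hy hU
  have h3 : ((3 : ℕ) : ℝ) = 3 := by norm_num
  -- two and three point inequalities
  have hpair : ∀ u v, u < N → v < N → ¬ adj u v → u ≤ v + k → v ≤ u + k → y u + y v ≤ 3 := by
    intro u v hu hv hn h1 h2
    have hne : v ≠ u := fun h => hn (h ▸ hrefl _)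
    have := hy.le _ (allowed_pair hsym u v hu hv hn h1 h2)
    rw [sum_pair hne, h3] at this
    linarith
  have htriple : ∀ u v w, u < N → v < N → w < N → ¬ adj u v → ¬ adj u w → ¬ adj v w →
      u ≤ v + k → v ≤ u + k → u ≤ w + k → w ≤ u + k → v ≤ w + k → w ≤ v + k →
      y u + y v + y w ≤ 3 := by
    intro u v w hu hv hw huv huw hvw h1 h2 h4 h5 h6 h7
    have hne : v ≠ u := fun h => huv (h ▸ hrefl _)
    have hne1 : w ≠ u := fun h => huw (h ▸ hrefl _)
    have hne2 : w ≠ v := fun h => hvw (h ▸ hrefl _)
    have hA := allowed_insert hsym (allowed_pair hsym u v hu hv huv h1 h2) w hw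
      (by rw [card_pair hne]; norm_num)
      (by intro z hz; simp only [mem_insert, mem_singleton] at hz; rcases hz with rfl | rfl <;> assumption)
      (by intro z hz; simp only [mem_insert, mem_singleton] at hz; rcases hz with rfl | rfl <;> omega)
    have := hy.le _ hA
    rw [sum_insert (by simp [hne1, hne2]), sum_pair hne, h3] at this
    linarith
  -- the leftmost small tight set
  have hex : ∃ a, ∃ U, Allowed 3 N k adj U ∧ U.card < 3 ∧ ∑ x ∈ U, y x = 3 ∧ ∀ u ∈ U, u ≤ a := by
    obtain ⟨U, h1, h2, h4⟩ := hU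
    exact ⟨N, U, h1, h2, by rw [h4, h3], fun u hu => le_of_lt (mem_range.mp (h1.sub hu))⟩
  set a := Nat.find hex with ha
  have hmin : ∀ U, Allowed 3 N k adj U → U.card < 3 → ∑ x ∈ U, y x = 3 →
      ∃ u ∈ U, a ≤ u ∧ 0 < y u := by
    intro U h1 h2 h4
    by_contra hcon
    push Not at hcon
    set V := U.filter (fun x => 0 < y x) with hV
    have hVs : ∑ x ∈ V, y x = 3 := by rw [hV, sum_pos_filter y hy.nonneg, h4]
    have hVne : V.Nonempty := by
      rw [nonempty_iff_ne_empty]; intro h; rw [h] at hVs; norm_num at hVs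
    obtain ⟨v, hv⟩ := hVne
    have hlt : ∀ u ∈ V, u < a := by
      intro u hu
      by_contra h
      have := hcon u (mem_filter.mp hu).1 (not_lt.mp h)
      exact absurd (mem_filter.mp hu).2 (not_lt.mpr this)
    have hapos : 0 < a := lt_of_le_of_lt (Nat.zero_le _) (hlt v hv)
    have := Nat.find_min hex (show a - 1 < Nat.find hex by omega)
    exact this ⟨V, h1.mono (filter_subset _ _), lt_of_le_of_lt (card_le_card (filter_subset _ _)) h2,
      hVs, fun u hu => by have := hlt u hu; omega⟩
  obtain ⟨U, hUa, hUc, hUs, hUle⟩ := Nat.find_spec hex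
  rw [← ha] at hUle
  have hka : k ≤ a := by
    by_contra h
    have : ∑ x ∈ U, y x ≤ U.card • (1 : ℝ) :=
      sum_le_card_nsmul _ _ _ (fun x hx => hy.bd x (by have := hUle x hx; omega))
    have hc : (U.card : ℝ) ≤ 2 := by exact_mod_cast Nat.lt_succ_iff.mp hUc
    simp only [nsmul_eq_mul, mul_one] at this
    linarith
  -- splitting a tight set that contains a point of weight zero
  have hsplit : ∀ I, Allowed 3 N k adj I → ∑ x ∈ I, y x = 3 → ∀ x ∈ I, y x = 0 →
      Allowed 3 N k adj (I.erase x) ∧ (I.erase x).card < 3 ∧ ∑ z ∈ I.erase x, y z = 3 := by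
    intro I hI hs x hx hx0
    refine ⟨hI.mono (erase_subset _ _), ?_, ?_⟩
    · have := card_erase_lt_of_mem hx
      have := hI.card
      omega
    · have := add_sum_erase I y hx
      linarith
  by_cases hA : ∃ b, b < N ∧ y b = 3 ∧ b ≤ a + k
  · -- a tight singleton close to `a`
    have hexb : ∃ b, b < N ∧ y b = 3 := by obtain ⟨b, h1, h2, _⟩ := hA; exact ⟨b, h1, h2⟩
    set b := Nat.find hexb with hb
    obtain ⟨hbN, hyb⟩ : b < N ∧ y b = 3 := Nat.find_spec hexb
    have hbmin : ∀ v, v < N → y v = 3 → b ≤ v := fun v h1 h2 => Nat.find_min' hexb ⟨h1, h2⟩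
    have hba : b ≤ a + k := by
      obtain ⟨b', h1, h2, h4⟩ := hA
      exact (hbmin b' h1 h2).trans h4
    have hab : a ≤ b := by
      obtain ⟨u, hu, h1, _⟩ := hmin {b} (allowed_single (by norm_num) b hbN) (by simp) (by simpa)
      rw [mem_singleton.mp hu] at h1; exact h1
    have F1 : ∀ x, x < N → b ≤ x + k → x ≤ b + k → 0 < y x → adj b x := by
      intro x hx h1 h2 h4
      by_contra hn
      have := hpair b x hbN hx hn h1 h2
      linarith
    have hneg : ∀ x, x < N → 0 < y x → cfun k adj b b b x ≤ 0 := by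
      intro x hx hpos
      unfold cfun
      by_cases hw : x ∈ Ico (b - k) b
      · have := F1 x hx (by have := mem_Ico.mp hw; omega) (by have := mem_Ico.mp hw; omega) hpos
        simp [hw, this]
      · simp only [hw, if_false]; split_ifs <;> norm_num
    have hle1 : ∀ x, cfun k adj b b b x ≤ 1 := by
      intro x; unfold cfun; split_ifs <;> norm_num
    apply cert_single b b b (hka.trans hab) (le_of_lt hbN) hbN hbN _ hneg
    intro I hI hs
    rw [h3] at hs
    by_cases hF : ∀ x ∈ I, cfun k adj b b b x ≤ 0
    · exact sum_nonpos hF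
    push Not at hF
    obtain ⟨x, hx, hcx⟩ := hF
    have hxN : x < N := mem_range.mp (hI.sub hx)
    have hx0 : y x = 0 := by
      by_contra h
      have := hneg x hxN (lt_of_le_of_ne (hy.nonneg x) (Ne.symm h))
      linarith
    have hxW : x ∈ Ico (b - k) b := by
      by_contra h
      unfold cfun at hcx
      simp only [h, if_false] at hcx
      split_ifs at hcx <;> linarith
    obtain ⟨hJa, hJc, hJs⟩ := hsplit I hI hs x hx hx0
    obtain ⟨v, hv, hav, hvpos⟩ := hmin _ hJa hJc hJs
    have hvI : v ∈ I := mem_of_mem_erase hv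
    have hvN : v < N := mem_range.mp (hI.sub hvI)
    have hvx := hI.span v hvI x hx
    have hbv : adj b v := F1 v hvN (by omega) (by have := mem_Ico.mp hxW; omega) hvpos
    rw [← add_sum_erase I _ hx, ← add_sum_erase _ _ hv]
    have hcv : cfun k adj b b b v ≤ -1 := by
      unfold cfun; simp only [hbv, if_true]; split_ifs <;> norm_num
    have hrest : ((I.erase x).erase v).card ≤ 1 := by
      have := card_erase_lt_of_mem hv; omega
    rcases Nat.le_one_iff_eq_zero_or_eq_one.mp hrest with h0 | h1
    · rw [card_eq_zero.mp h0, sum_empty]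
      have := hle1 x; linarith
    · obtain ⟨z, hz⟩ := card_eq_one.mp h1
      rw [hz, sum_singleton]
      have hzm : z ∈ (I.erase x).erase v := by rw [hz]; exact mem_singleton_self z
      have hzI : z ∈ I := mem_of_mem_erase (mem_of_mem_erase hzm)
      by_cases hzp : 0 < y z
      · have := hneg z (mem_range.mp (hI.sub hzI)) hzp
        have := hle1 x; linarith
      · have hz0 : y z = 0 := le_antisymm (not_lt.mp hzp) (hy.nonneg z)
        have hv3 : y v = 3 := by
          rw [← add_sum_erase _ _ hv, hz, sum_singleton] at hJs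
          linarith
        have hbv' := hbmin v hvN hv3
        have hcv2 : cfun k adj b b b v = -2 := by
          unfold cfun
          have : v ∉ Ico (b - k) b := by simp only [mem_Ico]; omega
          simp only [this, hbv, if_true, if_false]; norm_num
        have := hle1 x; have := hle1 z; linarith
  · -- no tight singleton close to `a`
    push Not at hA
    obtain ⟨u, hu, hau, hupos⟩ := hmin U hUa hUc hUs
    have hua : u = a := le_antisymm (hUle u hu) hau
    subst hua
    have haN : a < N := mem_range.mp (hUa.sub hu)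
    have hya : y a ≠ 3 := fun h => by have := hA a haN h; omega
    have hcard : (U.erase a).card = 1 := by
      have h1 := card_erase_lt_of_mem hu
      have h2 : (U.erase a).card ≠ 0 := by
        intro h0
        rw [← add_sum_erase _ _ hu, card_eq_zero.mp h0, sum_empty] at hUs
        exact hya (by linarith)
      omega
    obtain ⟨s, hs⟩ := card_eq_one.mp hcard
    have hsm : s ∈ U.erase a := by rw [hs]; exact mem_singleton_self s
    have hsU : s ∈ U := mem_of_mem_erase hsm
    have hsa : s < a := lt_of_le_of_ne (hUle s hsU) (ne_of_mem_erase hsm)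
    have hsum : y a + y s = 3 := by
      rw [← add_sum_erase _ _ hu, hs, sum_singleton] at hUs; exact hUs
    have hsN : s < N := hsa.trans haN
    have hnas : ¬ adj s a := hUa.ind s hsU a hu (ne_of_lt hsa)
    have hask : a ≤ s + k := hUa.span a hu s hsU
    have F2 : ∀ x, x ∈ Ico (a - k) a → 0 < y x → adj s x ∨ adj a x := by
      intro x hx hpos
      by_contra hn
      push Not at hn
      have hx' := mem_Ico.mp hx
      have := htriple s a x hsN haN (by omega) hnas hn.1 hn.2 (by omega) (by omega) (by omega)
        (by omega) (by omega) (by omega)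
      linarith
    have hneg : ∀ x, x < N → 0 < y x → cfun k adj a s a x ≤ 0 := by
      intro x _ hpos
      unfold cfun
      by_cases hw : x ∈ Ico (a - k) a
      · rcases F2 x hw hpos with h | h <;> simp only [hw, h, if_true] <;> split_ifs <;> norm_num
      · simp only [hw, if_false]; split_ifs <;> norm_num
    have hle1 : ∀ x, cfun k adj a s a x ≤ 1 := by
      intro x; unfold cfun; split_ifs <;> norm_num
    apply cert_single a s a hka (le_of_lt haN) hsN haN _ hneg
    intro I hI hIs
    rw [h3] at hIs
    by_cases hF : ∀ x ∈ I, cfun k adj a s a x ≤ 0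
    · exact sum_nonpos hF
    push Not at hF
    obtain ⟨x, hx, hcx⟩ := hF
    have hxN : x < N := mem_range.mp (hI.sub hx)
    have hx0 : y x = 0 := by
      by_contra h
      have := hneg x hxN (lt_of_le_of_ne (hy.nonneg x) (Ne.symm h))
      linarith
    have hxW : x ∈ Ico (a - k) a := by
      by_contra h
      unfold cfun at hcx
      simp only [h, if_false] at hcx
      split_ifs at hcx <;> linarith
    have hxW' := mem_Ico.mp hxW
    obtain ⟨hJa, hJc, hJs⟩ := hsplit I hI hIs x hx hx0
    obtain ⟨b, hb, hab, hbpos⟩ := hmin _ hJa hJc hJs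
    have hbI : b ∈ I := mem_of_mem_erase hb
    have hbN : b < N := mem_range.mp (hI.sub hbI)
    have hbx := hI.span b hbI x hx
    have hyb : y b ≠ 3 := fun h => by have := hA b hbN h; omega
    have hcard2 : ((I.erase x).erase b).card = 1 := by
      have h1 := card_erase_lt_of_mem hb
      have h2 : ((I.erase x).erase b).card ≠ 0 := by
        intro h0
        rw [← add_sum_erase _ _ hb, card_eq_zero.mp h0, sum_empty] at hJs
        exact hyb (by linarith)
      omega
    obtain ⟨v, hv⟩ := card_eq_one.mp hcard2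
    have hvm : v ∈ (I.erase x).erase b := by rw [hv]; exact mem_singleton_self v
    have hvI : v ∈ I := mem_of_mem_erase (mem_of_mem_erase hvm)
    have hvN : v < N := mem_range.mp (hI.sub hvI)
    have hbv : y b + y v = 3 := by
      rw [← add_sum_erase _ _ hb, hv, sum_singleton] at hJs; exact hJs
    have hvpos : 0 < y v := by
      rcases (hy.nonneg v).eq_or_lt with h | h
      · exact absurd (by linarith) hyb
      · exact h
    have hnbv : ¬ adj b v := hI.ind b hbI v hvI (ne_of_mem_erase hvm).symm
    have hvx := hI.span v hvI x hx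
    have hbv1 := hI.span b hbI v hvI
    have hbv2 := hI.span v hvI b hbI
    rw [← add_sum_erase I _ hx, ← add_sum_erase _ _ hb, hv, sum_singleton]
    have hcv := hneg v hvN hvpos
    have hcx1 := hle1 x
    have hbW : b ∉ Ico (a - k) a := by simp only [mem_Ico]; omega
    by_cases hadj : adj a b
    · have : cfun k adj a s a b ≤ -1 := by
        unfold cfun; simp only [hbW, hadj, if_true, if_false]; split_ifs <;> norm_num
      linarith
    · have hcb := hneg b hbN hbpos
      have hav : adj a v := by
        by_contra hn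
        have := htriple a b v haN hbN hvN hadj hn hnbv (by omega) (by omega) (by omega)
          (by omega) (by omega) (by omega)
        linarith
      by_cases hvW : v ∈ Ico (a - k) a
      · by_cases hsv : adj s v
        · have : cfun k adj a s a v ≤ -1 := by
            unfold cfun; simp only [hvW, hav, hsv, if_true]; norm_num
          linarith
        · exfalso
          have hvW' := mem_Ico.mp hvW
          have h1 := hpair a b haN hbN hadj (by omega) (by omega)
          have h2 := hpair s v hsN hvN hsv (by omega) (by omega)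
          have hne : v ≠ s := fun h => hsv (h ▸ hrefl _)
          obtain ⟨w, hw, haw, _⟩ := hmin {v, s}
            (allowed_pair hsym s v hsN hvN hsv (by omega) (by omega))
            (by rw [card_pair hne]; norm_num) (by rw [sum_pair hne]; linarith)
          simp only [mem_insert, mem_singleton] at hw
          rcases hw with rfl | rfl <;> omega
      · have : cfun k adj a s a v ≤ -1 := by
          unfold cfun; simp only [hvW, hav, if_true, if_false]; split_ifs <;> norm_num
        linarith

theorem lineDual_three : LineDual 3 := lineDual_of_cert (by norm_num) cert_three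

end Pool.Agent.Lib.MP_8870f3_co
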