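import Mathlib
import Pool.Agent.Lib.MP_8870f3_co.Three

set_option autoImplicit false

namespace Pool.Agent.Lib.MP_8870f3_co

open Finset

open Classical in
/-- Left-to-right local ratio decomposition of an integer weight. -/
noncomputable def lr (adj : ℕ → ℕ → Prop) (Y : ℕ → ℤ) : ℕ → ℕ
  | x => (Y x - ∑ u : Fin x, if adj u x then (lr adj Y u : ℤ) else 0).toNat
decreasing_by exact u.2

open Classical in
/-- Total local ratio weight on the left closed neighbourhood. -/
noncomputable def lsum (adj : ℕ → ℕ → Prop) (Y : ℕ → ℤ) (x : ℕ) : ℕ :=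
  ∑ u ∈ range (x + 1), if adj u x then lr adj Y u else 0

theorem lsum_spec {adj : ℕ → ℕ → Prop} (hrefl : ∀ v, adj v v) (Y : ℕ → ℤ) (x : ℕ) :
    Y x ≤ lsum adj Y x ∧ (0 < lr adj Y x → Y x = lsum adj Y x) := by
  classical
  have h1 : (lsum adj Y x : ℤ) =
      (∑ u : Fin x, if adj u x then (lr adj Y u : ℤ) else 0) + lr adj Y x := by
    unfold lsum
    rw [sum_range_succ, if_pos (hrefl x), Fin.sum_univ_eq_sum_range
      (fun u => if adj u x then (lr adj Y u : ℤ) else 0) x]
    push_cast
    congr 1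
  have h2 : lr adj Y x = (Y x - ∑ u : Fin x, if adj u x then (lr adj Y u : ℤ) else 0).toNat := by
    rw [lr]
  generalize (∑ u : Fin x, if adj u x then (lr adj Y u : ℤ) else 0) = B at h1 h2
  omega

theorem lr_le_lsum {adj : ℕ → ℕ → Prop} (hrefl : ∀ v, adj v v) (Y : ℕ → ℤ) (x : ℕ) :
    lr adj Y x ≤ lsum adj Y x := by
  classical
  unfold lsum
  rw [sum_range_succ, if_pos (hrefl x)]
  omega

/-- Right-to-left greedy independent set. -/
theorem exists_rev_greedy {adj : ℕ → ℕ → Prop} (hsym : ∀ u v, adj u v → adj v u)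
    (hrefl : ∀ v, adj v v) (T : Finset ℕ) :
    ∃ U ⊆ T, (∀ u ∈ U, ∀ v ∈ U, u ≠ v → ¬ adj u v) ∧ ∀ q ∈ T, ∃ v ∈ U, q ≤ v ∧ adj q v := by
  classical
  induction T using Finset.induction_on_min with
  | empty => exact ⟨∅, by simp, by simp, by simp⟩
  | insert a s ha ih =>
    obtain ⟨U, hU, hind, hdom⟩ := ih
    by_cases h : ∃ v ∈ U, adj a v
    · obtain ⟨v, hv, hav⟩ := h
      refine ⟨U, hU.trans (subset_insert _ _), hind, fun q hq => ?_⟩
      rcases mem_insert.mp hq with rfl | hq'
      · exact ⟨v, hv, le_of_lt (ha v (hU hv)), hav⟩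
      · exact hdom q hq'
    · push Not at h
      refine ⟨insert a U, insert_subset_insert _ hU, ?_, fun q hq => ?_⟩
      · intro u hu v hv huv
        rcases mem_insert.mp hu with rfl | hu' <;> rcases mem_insert.mp hv with rfl | hv'
        · exact absurd rfl huv
        · exact h v hv'
        · exact fun h' => h u hu' (hsym _ _ h')
        · exact hind u hu' v hv' huv
      · rcases mem_insert.mp hq with rfl | hq'
        · exact ⟨q, mem_insert_self _ _, le_refl _, hrefl q⟩
        · obtain ⟨v, hv, h1, h2⟩ := hdom q hq'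
          exact ⟨v, mem_insert_of_mem hv, h1, h2⟩

theorem exists_split (a : ℕ → ℕ) (L : ℕ) : ∀ e : ℕ, e ≤ ∑ l ∈ range L, a l →
    ∃ d : ℕ → ℕ, (∀ l, d l ≤ a l) ∧ ∑ l ∈ range L, d l = e := by
  induction L with
  | zero => intro e he; exact ⟨fun _ => 0, fun _ => Nat.zero_le _, by simp at he ⊢; omega⟩
  | succ L ih =>
    intro e he
    rw [sum_range_succ] at he
    obtain ⟨d, hd, hs⟩ := ih (e - a L) (by omega)
    refine ⟨Function.update d L (min e (a L)), fun l => ?_, ?_⟩
    · by_cases h : l = L
      · subst h; simp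
      · simp [Function.update_of_ne h, hd l]
    · rw [sum_range_succ, Function.update_self]
      have : ∑ l ∈ range L, Function.update d L (min e (a L)) l = ∑ l ∈ range L, d l :=
        sum_congr rfl (fun l hl => Function.update_of_ne (ne_of_lt (mem_range.mp hl)) _ _)
      rw [this, hs]
      omega

/-- Tagging the levels from left to right. -/
theorem exists_tags (k L : ℕ) (e : ℕ → ℕ) (r : ℕ → ℕ → ℕ) (N : ℕ)
    (hr : ∀ p, p < N → 0 < e p → ∑ q ∈ Icc (p - k) p, e q ≤ ∑ l ∈ range L, r p l) :
    ∀ n, n ≤ N → ∃ d : ℕ → ℕ → ℕ, ∀ p, p < n → (∑ l ∈ range L, d p l = e p) ∧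
      ∀ l, 0 < d p l → ∑ q ∈ Icc (p - k) p, d q l ≤ r p l := by
  intro n
  induction n with
  | zero => intro _; exact ⟨fun _ _ => 0, fun p hp => absurd hp (Nat.not_lt_zero _)⟩
  | succ n ih =>
    intro hn
    obtain ⟨d, hd⟩ := ih (by omega)
    have hIcc : Icc (n - k) n = insert n (Ico (n - k) n) := by
      ext x; simp only [mem_Icc, mem_insert, mem_Ico]; omega
    have hnot : n ∉ Ico (n - k) n := by simp
    have hex : ∃ g : ℕ → ℕ, (∀ l, g l ≤ r n l - ∑ q ∈ Ico (n - k) n, d q l) ∧
        ∑ l ∈ range L, g l = e n := by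
      apply exists_split
      rcases Nat.eq_zero_or_pos (e n) with h0 | hpos
      · omega
      have h1 := hr n (by omega) hpos
      rw [hIcc, sum_insert hnot] at h1
      have h2 : ∑ q ∈ Ico (n - k) n, e q = ∑ l ∈ range L, ∑ q ∈ Ico (n - k) n, d q l := by
        rw [sum_comm]
        exact sum_congr rfl (fun q hq => ((hd q (mem_Ico.mp hq).2).1).symm)
      have h3 : ∑ l ∈ range L, r n l ≤ ∑ l ∈ range L, ((r n l - ∑ q ∈ Ico (n - k) n, d q l) +
          ∑ q ∈ Ico (n - k) n, d q l) := sum_le_sum (fun l _ => by omega)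
      rw [sum_add_distrib] at h3
      omega
    obtain ⟨g, hg, hgs⟩ := hex
    refine ⟨Function.update d n g, fun p hp => ?_⟩
    rcases Nat.lt_succ_iff_lt_or_eq.mp hp with hlt | rfl
    · rw [Function.update_of_ne (ne_of_lt hlt)]
      refine ⟨(hd p hlt).1, fun l hl => ?_⟩
      have : ∑ q ∈ Icc (p - k) p, Function.update d n g q l = ∑ q ∈ Icc (p - k) p, d q l :=
        sum_congr rfl (fun q hq => by
          rw [Function.update_of_ne (by have := (mem_Icc.mp hq).2; omega)])
      rw [this]; exact (hd p hlt).2 l hl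
    · rw [Function.update_self]
      refine ⟨hgs, fun l hl => ?_⟩
      rw [hIcc, sum_insert hnot, Function.update_self]
      have : ∑ q ∈ Ico (p - k) p, Function.update d p g q l = ∑ q ∈ Ico (p - k) p, d q l :=
        sum_congr rfl (fun q hq => by
          rw [Function.update_of_ne (by have := (mem_Ico.mp hq).2; omega)])
      rw [this]
      have := hg l
      omega

open Classical in
/-- Completing an independent set by always adding a cheapest free point of the window. -/
theorem greedy_complete {t N k : ℕ} {adj : ℕ → ℕ → Prop} {ρ : ℕ → ℝ} {μ : ℝ}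
    (hsym : ∀ u v, adj u v → adj v u) (hrefl : ∀ v, adj v v) (hρ : ∀ x, 0 ≤ ρ x) (hμ : 0 ≤ μ)
    (hdeg : ∀ v, v < N → ∑ u ∈ (range N).filter (fun u => adj v u), ρ u ≤ μ)
    (p : ℕ) (hpN : p < N) (hwin : ((t : ℝ) - 1) * μ < ∑ x ∈ Ico (p - k) p, ρ x)
    (z : ℕ → ℕ) : ∀ (j : ℕ) (U : Finset ℕ), Allowed t N k adj U → U.card + j = t → p ∈ U →
      U ⊆ Icc (p - k) p → ∃ S, U ⊆ S ∧ Allowed t N k adj S ∧ S.card = t ∧
        ∀ l, 0 < ((S \ U).filter (fun v => l < z v)).card →
          (((S \ U).filter (fun v => l < z v)).card : ℝ) * μ ≤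
            ∑ x ∈ (Ico (p - k) p).filter (fun x => l < z x), ρ x +
              ∑ x ∈ (range p).filter (fun x => adj x p), ρ x := by
  intro j
  induction j with
  | zero => intro U hU hc _ _; exact ⟨U, Subset.refl _, hU, by omega, by simp⟩
  | succ j ih =>
    intro U hU hc hpU hUs
    set F := (Ico (p - k) p).filter (fun x => ∀ u ∈ U, ¬ adj u x) with hF
    set ν := ∑ x ∈ (range p).filter (fun x => adj x p), ρ x with hν
    have hνμ : ν ≤ μ := by
      refine le_trans (sum_le_sum_of_subset_of_nonneg ?_ (fun x _ _ => hρ x)) (hdeg p hpN)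
      intro x hx
      have := mem_filter.mp hx
      exact mem_filter.mpr ⟨mem_range.mpr ((mem_range.mp this.1).trans hpN), hsym _ _ this.2⟩
    have hmass : ∑ x ∈ Ico (p - k) p, ρ x ≤ ∑ x ∈ F, ρ x + ν + ((U.card : ℝ) - 1) * μ := by
      have h1 : ∑ x ∈ Ico (p - k) p, ρ x ≤ ∑ x ∈ Ico (p - k) p, ((if x ∈ F then ρ x else 0) +
          (if adj x p then ρ x else 0) + ∑ u ∈ U.erase p, if adj u x then ρ x else 0) := by
        apply sum_le_sum
        intro x hx
        have n1 : 0 ≤ (if x ∈ F then ρ x else 0) := by split_ifs; exacts [hρ x, le_refl _]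
        have n2 : 0 ≤ (if adj x p then ρ x else 0) := by split_ifs; exacts [hρ x, le_refl _]
        have n3 : ∀ u, 0 ≤ (if adj u x then ρ x else 0) := by
          intro u; split_ifs; exacts [hρ x, le_refl _]
        have n4 : 0 ≤ ∑ u ∈ U.erase p, if adj u x then ρ x else 0 := sum_nonneg (fun u _ => n3 u)
        by_cases hxF : x ∈ F
        · rw [if_pos hxF]; linarith
        · have : ∃ u ∈ U, adj u x := by
            by_contra hcon
            push Not at hcon
            exact hxF (mem_filter.mpr ⟨hx, hcon⟩)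
          obtain ⟨u, hu, hux⟩ := this
          by_cases hup : u = p
          · subst hup
            rw [if_pos (hsym _ _ hux)]; linarith
          · have := single_le_sum (f := fun u => if adj u x then ρ x else 0) (fun u _ => n3 u)
              (mem_erase.mpr ⟨hup, hu⟩)
            simp only [hux, if_true] at this
            linarith
      rw [sum_add_distrib, sum_add_distrib, sum_comm] at h1
      have h2 : ∑ x ∈ Ico (p - k) p, (if x ∈ F then ρ x else 0) = ∑ x ∈ F, ρ x := by
        rw [← sum_filter]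
        congr 1
        ext x
        simp only [hF, mem_filter]
        tauto
      have h3 : ∑ x ∈ Ico (p - k) p, (if adj x p then ρ x else 0) ≤ ν := by
        rw [← sum_filter]
        refine sum_le_sum_of_subset_of_nonneg ?_ (fun x _ _ => hρ x)
        intro x hx
        have := mem_filter.mp hx
        exact mem_filter.mpr ⟨mem_range.mpr (mem_Ico.mp this.1).2, this.2⟩
      have h4 : ∑ u ∈ U.erase p, ∑ x ∈ Ico (p - k) p, (if adj u x then ρ x else 0) ≤
          (U.erase p).card • μ := by
        apply sum_le_card_nsmul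
        intro u hu
        rw [← sum_filter]
        refine le_trans (sum_le_sum_of_subset_of_nonneg ?_ (fun x _ _ => hρ x))
          (hdeg u (mem_range.mp (hU.sub (mem_of_mem_erase hu))))
        intro x hx
        have := mem_filter.mp hx
        exact mem_filter.mpr ⟨mem_range.mpr ((mem_Ico.mp this.1).2.trans hpN), this.2⟩
      have h5 : ((U.erase p).card : ℝ) = (U.card : ℝ) - 1 := by
        have := card_erase_add_one hpU
        rw [← this]; push_cast; ring
      rw [nsmul_eq_mul, h5] at h4
      linarith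
    have htc : (t : ℝ) = U.card + j + 1 := by rw [← hc]; push_cast; ring
    have hj0 : (0 : ℝ) ≤ j * μ := by positivity
    have hFne : F.Nonempty := by
      rw [nonempty_iff_ne_empty]
      intro h0
      rw [h0, sum_empty] at hmass
      rw [htc] at hwin
      nlinarith
    obtain ⟨v, hvF, hvmin⟩ := exists_min_image F z hFne
    have hv := mem_filter.mp hvF
    have hvI := mem_Ico.mp hv.1
    have hvU : v ∉ U := fun h => hv.2 v h (hrefl v)
    have hU' : Allowed t N k adj (insert v U) :=
      allowed_insert hsym hU v (by omega) (by omega) hv.2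
        (fun u hu => by have := mem_Icc.mp (hUs hu); omega)
    obtain ⟨S, hS1, hS2, hS3, hS4⟩ := ih (insert v U) hU' (by rw [card_insert_of_notMem hvU]; omega)
      (mem_insert_of_mem hpU) (insert_subset (mem_Icc.mpr ⟨hvI.1, le_of_lt hvI.2⟩) hUs)
    have hUS : U ⊆ S := (subset_insert _ _).trans hS1
    refine ⟨S, hUS, hS2, hS3, fun l hl => ?_⟩
    by_cases hz : l < z v
    · have h1 : ((S \ U).filter (fun v => l < z v)).card ≤ j + 1 := by
        have := card_filter_le (S \ U) (fun v => l < z v)
        rw [card_sdiff_of_subset hUS] at this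
        omega
      have h2 : (((S \ U).filter (fun v => l < z v)).card : ℝ) ≤ j + 1 := by exact_mod_cast h1
      have h3 : ∑ x ∈ F, ρ x ≤ ∑ x ∈ (Ico (p - k) p).filter (fun x => l < z x), ρ x := by
        refine sum_le_sum_of_subset_of_nonneg ?_ (fun x _ _ => hρ x)
        intro x hx
        exact mem_filter.mpr ⟨(mem_filter.mp hx).1, lt_of_lt_of_le hz (hvmin x hx)⟩
      rw [htc] at hwin
      nlinarith [mul_le_mul_of_nonneg_right h2 hμ]
    · have he : (S \ U).filter (fun v => l < z v) = (S \ insert v U).filter (fun v => l < z v) := by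
        ext x
        simp only [mem_filter, mem_sdiff, mem_insert]
        constructor
        · rintro ⟨⟨h1, h2⟩, h3⟩
          refine ⟨⟨h1, ?_⟩, h3⟩
          rintro (rfl | h)
          · exact hz h3
          · exact h2 h
        · rintro ⟨⟨h1, h2⟩, h3⟩
          exact ⟨⟨h1, fun h => h2 (Or.inr h)⟩, h3⟩
      rw [he] at hl ⊢
      exact hS4 l hl

theorem sum_levels (z : ℕ → ℕ) (L : ℕ) (A : Finset ℕ) (hz : ∀ x ∈ A, z x ≤ L) (f : ℕ → ℝ) :
    ∑ l ∈ range L, ∑ x ∈ A.filter (fun x => l < z x), f x = ∑ x ∈ A, f x * z x := by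
  simp only [sum_filter]
  rw [sum_comm]
  apply sum_congr rfl
  intro x hx
  rw [← sum_filter]
  have : (range L).filter (fun l => l < z x) = range (z x) := by
    ext l; simp only [mem_filter, mem_range]; have := hz x hx; omega
  rw [this, sum_const, card_range, nsmul_eq_mul, mul_comm]

open Classical in
theorem int_dual {t N k : ℕ} {adj : ℕ → ℕ → Prop} {ρ : ℕ → ℝ} {μ : ℝ}
    (hsym : ∀ u v, adj u v → adj v u) (hrefl : ∀ v, adj v v) (hρ : ∀ x, 0 ≤ ρ x) (hμ : 0 ≤ μ)
    (hdeg : ∀ v, v < N → ∑ u ∈ (range N).filter (fun u => adj v u), ρ u ≤ μ)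
    (hwin : ∀ a, k ≤ a → a ≤ N → ((t : ℝ) - 1) * μ < ∑ x ∈ Ico (a - k) a, ρ x)
    (Y : ℕ → ℤ) (hY : ∀ S, Allowed t N k adj S → S.card = t → ∑ x ∈ S, Y x ≤ 0)
    (hb : ∀ x, x < k → Y x ≤ 0) (ht : 1 ≤ t) :
    ∑ x ∈ range N, ρ x * Y x ≤ 0 := by
  set e := lr adj Y with he
  set a := lsum adj Y with ha
  set z : ℕ → ℕ := fun x => ((a x : ℤ) - Y x).toNat with hz
  have hz1 : ∀ x, (z x : ℤ) = a x - Y x := by
    intro x
    have := (lsum_spec hrefl Y x).1
    simp only [hz]
    rw [← ha] at this
    omega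
  have hpt : ∀ p, 0 < e p → z p = 0 ∧ 0 < Y p := by
    intro p hp
    have h1 := (lsum_spec hrefl Y p).2 hp
    have h2 := lr_le_lsum hrefl Y p
    have h3 := hz1 p
    rw [← ha] at h1
    rw [← ha, ← he] at h2
    omega
  set L := ∑ x ∈ range N, z x with hL
  have hzL : ∀ x ∈ range N, z x ≤ L := fun x hx =>
    single_le_sum (f := z) (fun _ _ => Nat.zero_le _) hx
  set ν : ℕ → ℝ := fun p => ∑ x ∈ (range p).filter (fun x => adj x p), ρ x with hν
  have hν0 : ∀ p, 0 ≤ ν p := fun p => sum_nonneg (fun x _ => hρ x)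
  -- the rate function of every point
  have hrate : ∀ p, ∃ r : ℕ → ℕ, p < N → 0 < e p →
      (∑ q ∈ Icc (p - k) p, e q ≤ ∑ l ∈ range L, r l) ∧ ∀ l, 0 < r l →
        (r l : ℝ) * μ ≤ ∑ x ∈ (Ico (p - k) p).filter (fun x => l < z x), ρ x + ν p := by
    intro p
    by_cases hp : p < N ∧ 0 < e p
    swap
    · exact ⟨fun _ => 0, fun h1 h2 => absurd ⟨h1, h2⟩ hp⟩
    obtain ⟨hpN, hpe⟩ := hp
    have hkp : k ≤ p := by
      by_contra h
      have := hb p (not_le.mp h)
      have := (hpt p hpe).2
      omega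
    obtain ⟨U, hUT, hUi, hUd⟩ := exists_rev_greedy hsym hrefl
      ((Icc (p - k) p).filter (fun q => 0 < e q))
    have hUs : U ⊆ Icc (p - k) p := hUT.trans (filter_subset _ _)
    have hUe : ∀ u ∈ U, 0 < e u := fun u hu => (mem_filter.mp (hUT hu)).2
    have hpU : p ∈ U := by
      obtain ⟨v, hv, h1, _⟩ := hUd p (mem_filter.mpr ⟨mem_Icc.mpr ⟨by omega, le_refl _⟩, hpe⟩)
      have := (mem_Icc.mp (hUs hv)).2
      have : v = p := by omega
      exact this ▸ hv
    have hall : ∀ V ⊆ U, V.card ≤ t → Allowed t N k adj V := by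
      intro V hV hc
      refine ⟨fun x hx => ?_, hc, fun u hu v hv => hUi u (hV hu) v (hV hv), fun u hu v hv => ?_⟩
      · have := (mem_Icc.mp (hUs (hV hx))).2
        exact mem_range.mpr (by omega)
      · have h1 := mem_Icc.mp (hUs (hV hu))
        have h2 := mem_Icc.mp (hUs (hV hv))
        omega
    have hUc : U.card ≤ t := by
      by_contra h
      obtain ⟨V, hV, hVc⟩ := exists_subset_card_eq (s := U) (n := t) (by omega)
      have h1 := hY V (hall V hV (le_of_eq hVc)) hVc
      have h2 : 0 < ∑ x ∈ V, Y x := sum_pos (fun x hx => (hpt x (hUe x (hV hx))).2)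
        (card_pos.mp (by omega))
      omega
    obtain ⟨S, hUS, hSa, hSc, hSr⟩ := greedy_complete hsym hrefl hρ hμ hdeg p hpN
      (hwin p hkp (le_of_lt hpN)) z (t - U.card) U (hall U (Subset.refl _) hUc) (by omega) hpU hUs
    refine ⟨fun l => ((S \ U).filter (fun v => l < z v)).card, fun _ _ => ⟨?_, hSr⟩⟩
    have h1 : ∑ l ∈ range L, ((S \ U).filter (fun v => l < z v)).card = ∑ v ∈ S \ U, z v := by
      have := sum_levels z L (S \ U) (fun x hx => hzL x (hSa.sub (mem_sdiff.mp hx).1)) (fun _ => 1)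
      simp only [sum_const, nsmul_eq_mul, mul_one, one_mul] at this
      exact_mod_cast this
    rw [h1]
    have h2 : ∑ v ∈ S \ U, z v = ∑ v ∈ S, z v := by
      rw [← sum_sdiff hUS, sum_eq_zero (s := U) (fun u hu => (hpt u (hUe u hu)).1), add_zero]
    have h3 : ∑ v ∈ S, a v ≤ ∑ v ∈ S, z v := by
      have h4 := hY S hSa hSc
      have h5 : ((∑ v ∈ S, z v : ℕ) : ℤ) = ((∑ v ∈ S, a v : ℕ) : ℤ) - ∑ v ∈ S, Y v := by
        push_cast
        rw [← sum_sub_distrib]
        exact sum_congr rfl (fun v _ => hz1 v)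
      omega
    have h4 : ∑ v ∈ U, a v ≤ ∑ v ∈ S, a v := sum_le_sum_of_subset hUS
    have h5 : ∑ q ∈ Icc (p - k) p, e q ≤ ∑ v ∈ U, a v := by
      have h6 : ∑ v ∈ U, ∑ q ∈ Icc (p - k) p, (if q ≤ v ∧ adj q v then e q else 0) ≤
          ∑ v ∈ U, a v := by
        apply sum_le_sum
        intro v _
        rw [ha, lsum, ← sum_filter, ← sum_filter]
        apply sum_le_sum_of_subset
        intro q hq
        have := (mem_filter.mp hq).2
        exact mem_filter.mpr ⟨mem_range.mpr (by omega), this.2⟩
      refine le_trans ?_ h6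
      rw [sum_comm]
      apply sum_le_sum
      intro q hq
      rcases Nat.eq_zero_or_pos (e q) with h0 | hpos
      · omega
      obtain ⟨v, hv, h7⟩ := hUd q (mem_filter.mpr ⟨hq, hpos⟩)
      have := single_le_sum (f := fun v => if q ≤ v ∧ adj q v then e q else 0)
        (fun _ _ => Nat.zero_le _) hv
      simpa [h7] using this
    omega
  choose r hr using hrate
  obtain ⟨d, hd⟩ := exists_tags k L e r N (fun p h1 h2 => (hr p h1 h2).1) N (le_refl _)
  -- the inequality on each level
  have hlev : ∀ l ∈ range L, ∀ n, n ≤ N → μ * ∑ q ∈ range n, (d q l : ℝ) ≤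
      ∑ x ∈ (range n).filter (fun x => l < z x), ρ x + ∑ q ∈ range n, (d q l : ℝ) * ν q := by
    intro l hl n
    induction n using Nat.strong_induction_on with
    | _ n ih =>
      intro hn
      rcases n with _ | n
      · simp
      have hmono : ∀ m, m ≤ n + 1 → ∀ A ⊆ range m, ∑ x ∈ A.filter (fun x => l < z x), ρ x ≤
          ∑ x ∈ (range (n + 1)).filter (fun x => l < z x), ρ x := by
        intro m hm A hA
        refine sum_le_sum_of_subset_of_nonneg (filter_subset_filter _ ?_) (fun x _ _ => hρ x)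
        exact hA.trans (range_mono hm)
      rcases Nat.eq_zero_or_pos (d n l) with h0 | hpos
      · have := ih n (by omega) (by omega)
        have h2 := hmono n (by omega) _ (Subset.refl _)
        rw [sum_range_succ, sum_range_succ (fun q => (d q l : ℝ) * ν q), h0]
        simp only [Nat.cast_zero, add_zero, zero_mul]
        linarith
      · have hen : 0 < e n := by
          rw [← (hd n (by omega)).1]
          exact lt_of_lt_of_le hpos (single_le_sum (f := d n) (fun _ _ => Nat.zero_le _) hl)
        have h1 := (hd n (by omega)).2 l hpos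
        have hrpos : 0 < r n l := lt_of_lt_of_le (lt_of_lt_of_le hpos
          (single_le_sum (f := fun q => d q l) (fun _ _ => Nat.zero_le _)
            (mem_Icc.mpr ⟨by omega, le_refl n⟩))) h1
        have h2 := (hr n (by omega) hen).2 l hrpos
        have h3 := ih (n - k) (by omega) (by omega)
        have hsplit : range (n + 1) = range (n - k) ∪ Icc (n - k) n := by
          ext x; simp only [mem_range, mem_union, mem_Icc]; omega
        have hdisj : Disjoint (range (n - k)) (Icc (n - k) n) := by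
          rw [disjoint_left]; intro x h1 h2
          have := mem_range.mp h1; have := mem_Icc.mp h2; omega
        have hdisj2 : Disjoint ((range (n - k)).filter (fun x => l < z x))
            ((Ico (n - k) n).filter (fun x => l < z x)) := by
          apply disjoint_filter_filter
          rw [disjoint_left]; intro x h1 h2
          have := mem_range.mp h1; have := mem_Ico.mp h2; omega
        have h4 := hmono (n + 1) (le_refl _) (range (n - k) ∪ Ico (n - k) n) (by
          intro x hx
          simp only [mem_range, mem_union, mem_Ico] at hx ⊢; omega)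
        rw [filter_union, sum_union hdisj2] at h4
        have h5 : ∑ q ∈ range (n + 1), (d q l : ℝ) ≤ ∑ q ∈ range (n - k), (d q l : ℝ) + r n l := by
          rw [hsplit, sum_union hdisj]
          have : ∑ q ∈ Icc (n - k) n, (d q l : ℝ) ≤ r n l := by exact_mod_cast h1
          linarith
        have h6 : ∑ q ∈ range (n - k), (d q l : ℝ) * ν q + ν n ≤
            ∑ q ∈ range (n + 1), (d q l : ℝ) * ν q := by
          rw [sum_range_succ]
          have h7 : ∑ q ∈ range (n - k), (d q l : ℝ) * ν q ≤ ∑ q ∈ range n, (d q l : ℝ) * ν q :=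
            sum_le_sum_of_subset_of_nonneg (range_mono (by omega))
              (fun q _ _ => mul_nonneg (Nat.cast_nonneg _) (hν0 q))
          have h8 : (1 : ℝ) ≤ d n l := by exact_mod_cast hpos
          nlinarith [hν0 n]
        nlinarith [mul_le_mul_of_nonneg_left h5 hμ]
  have hsum := sum_le_sum (fun l hl => hlev l hl N (le_refl _))
  rw [sum_add_distrib, sum_levels z L (range N) hzL, ← mul_sum, sum_comm,
    sum_comm (s := range L)] at hsum
  have e1 : ∑ q ∈ range N, ∑ l ∈ range L, (d q l : ℝ) = ∑ q ∈ range N, (e q : ℝ) :=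
    sum_congr rfl (fun q hq => by exact_mod_cast (hd q (mem_range.mp hq)).1)
  have e2 : ∑ q ∈ range N, ∑ l ∈ range L, (d q l : ℝ) * ν q = ∑ q ∈ range N, (e q : ℝ) * ν q :=
    sum_congr rfl (fun q hq => by
      rw [← sum_mul]; congr 1; exact_mod_cast (hd q (mem_range.mp hq)).1)
  rw [e1, e2] at hsum
  -- the mass of the left neighbourhoods
  have e3 : ∑ x ∈ range N, ρ x * a x + ∑ q ∈ range N, (e q : ℝ) * ν q ≤
      μ * ∑ q ∈ range N, (e q : ℝ) := by
    have h1 : ∑ x ∈ range N, ρ x * a x =
        ∑ q ∈ range N, (e q : ℝ) * ∑ x ∈ range N, (if q ≤ x ∧ adj q x then ρ x else 0) := by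
      simp only [mul_sum]
      rw [sum_comm]
      apply sum_congr rfl
      intro x hx
      have : (a x : ℝ) = ∑ q ∈ range N, (if q ≤ x ∧ adj q x then (e q : ℝ) else 0) := by
        rw [ha, lsum, ← sum_filter, ← sum_filter]
        push_cast
        apply sum_congr _ (fun _ _ => rfl)
        ext q
        have := mem_range.mp hx
        simp only [mem_filter, mem_range]
        constructor
        · rintro ⟨h1, h2⟩; exact ⟨by omega, by omega, h2⟩
        · rintro ⟨_, h1, h2⟩; exact ⟨by omega, h2⟩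
      rw [this, mul_sum]
      apply sum_congr rfl
      intro q _
      split_ifs <;> ring
    rw [h1, ← sum_add_distrib, mul_sum]
    apply sum_le_sum
    intro q hq
    have hqN := mem_range.mp hq
    have h2 : ∑ x ∈ range N, (if q ≤ x ∧ adj q x then ρ x else 0) + ν q ≤ μ := by
      refine le_trans ?_ (hdeg q hqN)
      rw [← sum_filter, hν]
      have hdj : Disjoint ((range N).filter (fun x => q ≤ x ∧ adj q x))
          ((range q).filter (fun x => adj x q)) := by
        rw [disjoint_left]; intro x h1 h2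
        have := (mem_filter.mp h1).2.1; have := mem_range.mp (mem_filter.mp h2).1; omega
      simp only
      rw [← sum_union hdj]
      refine sum_le_sum_of_subset_of_nonneg ?_ (fun x _ _ => hρ x)
      intro x hx
      rcases mem_union.mp hx with h | h
      · exact mem_filter.mpr ⟨(mem_filter.mp h).1, (mem_filter.mp h).2.2⟩
      · exact mem_filter.mpr ⟨mem_range.mpr ((mem_range.mp (mem_filter.mp h).1).trans hqN),
          hsym _ _ (mem_filter.mp h).2⟩
    have h3 : (0 : ℝ) ≤ e q := Nat.cast_nonneg _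
    nlinarith [mul_le_mul_of_nonneg_left h2 h3]
  have e4 : ∑ x ∈ range N, ρ x * Y x = ∑ x ∈ range N, ρ x * a x - ∑ x ∈ range N, ρ x * z x := by
    rw [← sum_sub_distrib]
    apply sum_congr rfl
    intro x _
    have : (z x : ℝ) = a x - Y x := by exact_mod_cast hz1 x
    rw [this]; ring
  linarith

/-- The weighted fractional tiling theorem on a line, for every clique size. -/
theorem lineDual (t : ℕ) (ht : 1 ≤ t) : LineDual t := by
  classical
  intro N k adj ρ y μ hsym hrefl hρ hdeg hwin hy0 hle hbd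
  rcases Nat.eq_zero_or_pos N with rfl | hN
  · simp
  have hμ : 0 ≤ μ := (sum_nonneg (fun u _ => hρ u)).trans (hdeg 0 hN)
  have key : ∀ M : ℕ, (M : ℝ) * (∑ x ∈ range N, ρ x * y x - ∑ x ∈ range N, ρ x) ≤
      ∑ x ∈ range N, ρ x := by
    intro M
    have h := int_dual hsym hrefl hρ hμ hdeg hwin (fun x => ⌊(M : ℝ) * y x⌋ - M)
      (fun S hS hc => by
        have h1 := hle S hS.sub hS.card hS.ind hS.span
        have h2 : ((∑ x ∈ S, (⌊(M : ℝ) * y x⌋ - M) : ℤ) : ℝ) ≤ 0 := by
          push_cast
          have h3 : ∑ x ∈ S, ((⌊(M : ℝ) * y x⌋ : ℝ) - M) ≤ ∑ x ∈ S, ((M : ℝ) * y x - M) :=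
            sum_le_sum (fun x _ => by linarith [Int.floor_le ((M : ℝ) * y x)])
          rw [sum_sub_distrib (f := fun x => (M : ℝ) * y x), ← mul_sum, sum_const, hc,
            nsmul_eq_mul] at h3
          have h4 := mul_le_mul_of_nonneg_left h1 (Nat.cast_nonneg (α := ℝ) M)
          linarith
        exact_mod_cast h2)
      (fun x hx => by
        have h1 : (⌊(M : ℝ) * y x⌋ : ℝ) ≤ M := by
          have := mul_le_mul_of_nonneg_left (hbd x hx) (Nat.cast_nonneg (α := ℝ) M)
          linarith [Int.floor_le ((M : ℝ) * y x)]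
        have h2 : ⌊(M : ℝ) * y x⌋ ≤ (M : ℤ) := by exact_mod_cast h1
        omega) ht
    have h2 : ∑ x ∈ range N, ρ x * ((M : ℝ) * y x - 1 - M) ≤
        ∑ x ∈ range N, ρ x * ((⌊(M : ℝ) * y x⌋ - M : ℤ) : ℝ) := by
      apply sum_le_sum
      intro x _
      apply mul_le_mul_of_nonneg_left _ (hρ x)
      push_cast
      linarith [Int.lt_floor_add_one ((M : ℝ) * y x)]
    have h3 : ∑ x ∈ range N, ρ x * ((M : ℝ) * y x - 1 - M) =
        (M : ℝ) * (∑ x ∈ range N, ρ x * y x - ∑ x ∈ range N, ρ x) - ∑ x ∈ range N, ρ x := by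
      rw [mul_sub, mul_sum, mul_sum, ← sum_sub_distrib, ← sum_sub_distrib]
      exact sum_congr rfl (fun x _ => by ring)
    linarith
  by_contra hcon
  push Not at hcon
  obtain ⟨M, hM⟩ := exists_nat_gt ((∑ x ∈ range N, ρ x) /
    (∑ x ∈ range N, ρ x * y x - ∑ x ∈ range N, ρ x))
  have := key M
  rw [div_lt_iff₀ (by linarith)] at hM
  linarith

end Pool.Agent.Lib.MP_8870f3_co
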