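import Mathlib
import Pool.Agent.Lib.MP_8870f3_co.Cycle

set_option autoImplicit false
set_option linter.unusedSectionVars false
set_option linter.unusedVariables false

namespace Pool.Agent.Lib.MP_8870f3_co

open Finset

open Classical in
theorem ncard_nbr {V : Type} [Fintype V] (G : SimpleGraph V) (v : V) :
    (G.neighborSet v).ncard = (univ.filter (fun u => G.Adj v u)).card := by
  rw [← Set.ncard_coe_finset]
  congr 1
  ext u
  simp

open Classical in
theorem deg_le_two_mul (n k : ℕ) [NeZero n] (v : ZMod n) :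
    (univ.filter (fun u => (cyclePower n k).Adj v u)).card ≤ 2 * k := by
  have h : univ.filter (fun u => (cyclePower n k).Adj v u) ⊆
      (Icc 1 k).image (fun d : ℕ => v + (d : ZMod n)) ∪
        (Icc 1 k).image (fun d : ℕ => v - (d : ZMod n)) := by
    intro u hu
    obtain ⟨_, d, h1, h2, h3⟩ := (Finset.mem_filter.mp hu).2
    rcases h3 with h3 | h3
    · exact Finset.mem_union_left _ (Finset.mem_image.mpr
        ⟨d, Finset.mem_Icc.mpr ⟨h1, h2⟩, by rw [← h3]; ring⟩)
    · exact Finset.mem_union_right _ (Finset.mem_image.mpr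
        ⟨d, Finset.mem_Icc.mpr ⟨h1, h2⟩, by rw [sub_eq_add_neg, ← h3]; ring⟩)
  refine le_trans (Finset.card_le_card h) (le_trans (Finset.card_union_le _ _) ?_)
  have a1 := Finset.card_image_le (s := Icc 1 k) (f := fun d : ℕ => v + (d : ZMod n))
  have a2 := Finset.card_image_le (s := Icc 1 k) (f := fun d : ℕ => v - (d : ZMod n))
  simp only [Nat.card_Icc] at a1 a2
  omega

open Classical in
theorem deg_le_pred (n k : ℕ) [NeZero n] (v : ZMod n) :
    (univ.filter (fun u => (cyclePower n k).Adj v u)).card + 1 ≤ n := by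
  have h : univ.filter (fun u => (cyclePower n k).Adj v u) ⊆ univ.erase v := by
    intro u hu
    exact Finset.mem_erase.mpr ⟨(Finset.mem_filter.mp hu).2.ne.symm, Finset.mem_univ _⟩
  have a1 := Finset.card_le_card h
  rw [Finset.card_erase_of_mem (Finset.mem_univ _), Finset.card_univ, ZMod.card] at a1
  have := NeZero.pos n
  omega

theorem adj_of_arc {n k : ℕ} {x y : ℕ} (h1 : x ≤ y + k) (h2 : y ≤ x + k)
    (hne : (x : ZMod n) ≠ (y : ZMod n)) : (cyclePower n k).Adj (x : ZMod n) (y : ZMod n) := by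
  have hxy : x ≠ y := fun h => hne (by rw [h])
  refine ⟨hne, ?_⟩
  rcases lt_or_gt_of_ne hxy with h | h
  · refine ⟨y - x, by omega, by omega, Or.inl ?_⟩
    rw [Nat.cast_sub h.le]
  · refine ⟨x - y, by omega, by omega, Or.inr ?_⟩
    rw [Nat.cast_sub h.le]
    ring

open Classical in
theorem mem_goodSet {t : ℕ} (ht : 2 ≤ t) (hLD : LineDual t) (α : ℝ)
    (hα : 1 - 1 / (2 * ((t : ℝ) - 1)) < α) : α ∈ goodSet t := by
  have htR : (2 : ℝ) ≤ t := by exact_mod_cast ht
  have hth : 1 / (2 * ((t : ℝ) - 1)) ≤ 1 / 2 := by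
    apply one_div_le_one_div_of_le (by norm_num)
    linarith
  refine ⟨by linarith, ?_⟩
  set θ : ℝ := max (1 - α) 0 with hθ
  have hθ0 : 0 ≤ θ := le_max_right _ _
  have hθ1 : 1 - α ≤ θ := le_max_left _ _
  have hθ2 : θ < 1 / (2 * ((t : ℝ) - 1)) := max_lt (by linarith) (by
    apply div_pos one_pos; linarith)
  have hθ3 : θ * (2 * ((t : ℝ) - 1)) < 1 := by
    rwa [lt_div_iff₀ (by linarith)] at hθ2
  set ε : ℝ := 1 - θ * (2 * ((t : ℝ) - 1)) with hε
  have hε0 : 0 < ε := by linarith
  obtain ⟨Q, hQ⟩ := exists_nat_ge (2 / ε)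
  have hQ' : 2 ≤ Q * ε := by rwa [div_le_iff₀ hε0] at hQ
  have hQ1 : 1 ≤ Q := by
    by_contra h
    have : Q = 0 := by omega
    rw [this] at hQ'
    norm_num at hQ'
  obtain ⟨k0, hk0⟩ := cycle_tiling (by omega) hLD Q hQ1
  refine ⟨2 * (k0 + 2 * Q * t) + 2, ?_⟩
  intro k hk hk1 n hn hdvd H hH
  have : NeZero n := ⟨by omega⟩
  set k' : ℕ := min k ((n - 1) / 2) with hk'
  have hk'1 : k' ≤ k := min_le_left _ _
  have hk'2 : 2 * k' + 1 ≤ n := by omega
  have hk'3 : k0 + 2 * Q * t ≤ k' := by omega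
  have hdegC : ∀ v, (univ.filter (fun u => (cyclePower n k).Adj v u)).card ≤ 2 * k' + 1 := by
    intro v
    have a1 := deg_le_two_mul n k v
    have a2 := deg_le_pred n k v
    omega
  let adj : ZMod n → ZMod n → Prop := fun u v => u = v ∨ ((cyclePower n k).Adj u v ∧ ¬ H.Adj u v)
  set m : ℕ := ⌊1 + θ * (2 * k' + 1)⌋₊ with hm
  have hm1 : (m : ℝ) ≤ 1 + θ * (2 * k' + 1) := Nat.floor_le (by positivity)
  have key := hk0 k' (by omega) n hk'2 hdvd adj m
    (by
      rintro u v (h | h)
      · exact Or.inl h.symm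
      · exact Or.inr ⟨h.1.symm, fun h' => h.2 h'.symm⟩)
    (fun v => Or.inl rfl)
    (by
      intro v
      apply Nat.le_floor
      have a1 := hH.2 v
      rw [ncard_nbr, ncard_nbr] at a1
      set A := univ.filter (fun u => (cyclePower n k).Adj v u) with hA
      set B := univ.filter (fun u => H.Adj v u) with hB
      have hBA : B ⊆ A := by
        intro u hu
        simp only [hA, hB, Finset.mem_filter, Finset.mem_univ, true_and] at hu ⊢
        exact hH.1 hu
      have a2 : univ.filter (fun u => adj v u) ⊆ insert v (A \ B) := by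
        intro u hu
        simp only [hA, hB, Finset.mem_filter, Finset.mem_univ, true_and, Finset.mem_insert,
          Finset.mem_sdiff] at hu ⊢
        rcases hu with hu | hu
        · exact Or.inl hu.symm
        · exact Or.inr hu
      have a3 := Finset.card_le_card a2
      have a4 := Finset.card_insert_le v (A \ B)
      have a5 := Finset.card_sdiff_add_card_eq_card hBA
      have a6 : ((univ.filter (fun u => adj v u)).card : ℝ) + B.card ≤ 1 + A.card := by
        exact_mod_cast (by omega : (univ.filter (fun u => adj v u)).card + B.card ≤ 1 + A.card)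
      have a7 : (A.card : ℝ) ≤ 2 * k' + 1 := by exact_mod_cast hdegC v
      have a8 : (0 : ℝ) ≤ A.card := by positivity
      have a9 : (1 - α) * A.card ≤ θ * (2 * k' + 1) :=
        le_trans (mul_le_mul_of_nonneg_right hθ1 a8) (mul_le_mul_of_nonneg_left a7 hθ0)
      refine le_trans (le_of_eq ?_) (show ((univ.filter (fun u => adj v u)).card : ℝ) ≤ _ by
        linarith)
      congr)
    (by
      have a1 : (Q : ℝ) * (((t : ℝ) - 1) * m) + k' ≤ Q * k' := by
        have b1 : ((t : ℝ) - 1) * m ≤ ((t : ℝ) - 1) * (1 + θ * (2 * k' + 1)) :=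
          mul_le_mul_of_nonneg_left hm1 (by linarith)
        have b2 : ((t : ℝ) - 1) * (1 + θ * (2 * k' + 1)) =
            ((t : ℝ) - 1) + (1 - ε) * k' + (1 - ε) / 2 := by rw [hε]; ring
        have b3 : 2 * (Q : ℝ) * t ≤ k' := by
          have : 2 * Q * t ≤ k' := by omega
          exact_mod_cast this
        have b4 : (0 : ℝ) ≤ k' := by positivity
        have b5 : (1 : ℝ) ≤ Q := by exact_mod_cast hQ1
        have b6 : ((t : ℝ) - 1) * m ≤ t + (1 - ε) * k' := by linarith
        have b7 := mul_le_mul_of_nonneg_left b6 (by linarith : (0 : ℝ) ≤ Q)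
        have b8 := mul_le_mul_of_nonneg_right hQ' b4
        nlinarith
      have a2 : ((Q * ((t - 1) * m) + k' : ℕ) : ℝ) ≤ ((Q * k' : ℕ) : ℝ) := by
        push_cast [Nat.cast_sub (by omega : 1 ≤ t)]
        exact a1
      exact_mod_cast a2)
  obtain ⟨F, hF1, hF2⟩ := key.exists_family
  refine ⟨F, ?_, fun v => hF2 v (Finset.mem_univ v)⟩
  intro T hT
  obtain ⟨h1, h2, a, h3⟩ := (hF1 T hT).1
  refine ⟨?_, h1⟩
  intro u hu v hv huv
  obtain ⟨x, x1, x2, rfl⟩ := h3 u hu
  obtain ⟨y, y1, y2, rfl⟩ := h3 v hv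
  by_contra hcon
  exact h2 _ hu _ hv huv (Or.inr ⟨adj_of_arc (by omega) (by omega) huv, hcon⟩)

end Pool.Agent.Lib.MP_8870f3_co
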