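import Mathlib
import Pool.Agent.Lib.MP_8870f3_co.Upper

set_option autoImplicit false
set_option linter.unusedSectionVars false
set_option linter.unusedVariables false

namespace Pool.Agent.Lib.MP_8870f3_co

open Finset

open Classical in
theorem deg_ge_two_mul (n k : ℕ) [NeZero n] (hn : 2 * k + 1 ≤ n) (v : ZMod n) :
    2 * k ≤ (univ.filter (fun u => (cyclePower n k).Adj v u)).card := by
  have h : ((range (2 * k + 1)).erase k).image (fun e : ℕ => ((v.val + (n - k) + e : ℕ) : ZMod n))
      ⊆ univ.filter (fun u => (cyclePower n k).Adj v u) := by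
    intro u hu
    obtain ⟨e, he, rfl⟩ := Finset.mem_image.mp hu
    rw [Finset.mem_erase, Finset.mem_range] at he
    refine Finset.mem_filter.mpr ⟨Finset.mem_univ _, ?_⟩
    have e1 : v = ((v.val + n : ℕ) : ZMod n) := by simp
    conv_lhs => rw [e1]
    apply adj_of_arc (by omega) (by omega)
    intro h
    have := cast_inj_close h (by omega) (by omega)
    omega
  refine le_trans (le_of_eq ?_) (Finset.card_le_card h)
  rw [Finset.card_image_of_injOn, Finset.card_erase_of_mem (by simp; omega), Finset.card_range]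
  · omega
  · intro x hx y hy hxy
    simp only [Finset.coe_erase, Finset.coe_range, Set.mem_sdiff, Set.mem_Iio] at hx hy
    have := cast_inj_close hxy (by omega) (by omega)
    omega

theorem adj_int {n k : ℕ} [NeZero n] {x y : ZMod n} (h : (cyclePower n k).Adj x y) :
    ∃ i : ℤ, |(y.val : ℤ) + n * i - x.val| ≤ k := by
  obtain ⟨_, d, _, h2, h3⟩ := h
  rcases h3 with h3 | h3
  · have a1 : (((y.val : ℤ) - x.val - d : ℤ) : ZMod n) = 0 := by
      push_cast
      rw [ZMod.natCast_zmod_val, ZMod.natCast_zmod_val, h3, sub_self]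
    obtain ⟨i, hi⟩ := (ZMod.intCast_zmod_eq_zero_iff_dvd _ _).mp a1
    refine ⟨-i, ?_⟩
    have : (y.val : ℤ) + n * -i - x.val = d := by linarith
    rw [this, abs_of_nonneg (by positivity)]
    exact_mod_cast h2
  · have a1 : (((y.val : ℤ) - x.val + d : ℤ) : ZMod n) = 0 := by
      push_cast
      rw [ZMod.natCast_zmod_val, ZMod.natCast_zmod_val, h3, neg_add_cancel]
    obtain ⟨i, hi⟩ := (ZMod.intCast_zmod_eq_zero_iff_dvd _ _).mp a1
    refine ⟨-i, ?_⟩
    have : (y.val : ℤ) + n * -i - x.val = -d := by linarith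
    rw [this, abs_neg, abs_of_nonneg (by positivity)]
    exact_mod_cast h2

theorem sum_mod_range (P R : ℕ) (f : ℕ → ℝ) :
    ∑ x ∈ range (P * R), f (x % P) = R * ∑ x ∈ range P, f x := by
  induction R with
  | zero => simp
  | succ R ih =>
    rw [Nat.mul_succ, Finset.sum_range_add, ih]
    have : ∑ x ∈ range P, f ((P * R + x) % P) = ∑ x ∈ range P, f x := by
      apply Finset.sum_congr rfl
      intro x hx
      rw [Nat.mul_add_mod, Nat.mod_eq_of_lt (Finset.mem_range.mp hx)]
    rw [this]
    push_cast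
    ring

theorem sum_zmod_val (n : ℕ) [NeZero n] (f : ℕ → ℝ) :
    ∑ x : ZMod n, f x.val = ∑ x ∈ range n, f x := by
  symm
  apply Finset.sum_bij (fun (x : ℕ) _ => (x : ZMod n))
  · intro _ _; exact Finset.mem_univ _
  · intro x hx y hy h
    rw [Finset.mem_range] at hx hy
    exact cast_inj_close h (by omega) (by omega)
  · intro v _
    exact ⟨v.val, Finset.mem_range.mpr (ZMod.val_lt v), by simp⟩
  · intro x hx
    rw [ZMod.val_natCast, Nat.mod_eq_of_lt (Finset.mem_range.mp hx)]

/-- The cluster graph: `C_n^k` with the edges inside clusters deleted. -/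
def clusterGraph (n k P m : ℕ) : SimpleGraph (ZMod n) where
  Adj x y := (cyclePower n k).Adj x y ∧
    ¬ (x.val % P < m ∧ y.val % P < m ∧ x.val / P = y.val / P)
  symm := ⟨fun _ _ h => ⟨h.1.symm, fun h' => h.2 ⟨h'.2.1, h'.1, h'.2.2.symm⟩⟩⟩
  loopless := ⟨fun _ h => h.1.ne rfl⟩

theorem cluster_clique {n k P m R s : ℕ} [NeZero n] (hn : n = P * R) (h3 : 3 * k < n)
    (hk : k + m ≤ s * P) (T : Finset (ZMod n))
    (hT : (clusterGraph n k P m).IsNClique (s + 1) T) : ∃ x ∈ T, m ≤ x.val % P := by
  classical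
  by_contra hcon
  push Not at hcon
  obtain ⟨x0, hx0⟩ : T.Nonempty := by rw [← Finset.card_pos, hT.2]; omega
  have hP : 0 < P := by
    rcases Nat.eq_zero_or_pos P with h | h
    · rw [h] at hn; omega
    · exact h
  have hex : ∀ x : ZMod n, ∃ i : ℤ, x ∈ T → |(x.val : ℤ) + n * i - x0.val| ≤ k := by
    intro x
    by_cases hx : x ∈ T
    · by_cases e : x0 = x
      · exact ⟨0, fun _ => by simp [e]⟩
      · obtain ⟨i, hi⟩ := adj_int (hT.1 hx0 hx e).1
        exact ⟨i, fun _ => hi⟩
    · exact ⟨0, fun h => absurd h hx⟩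
  choose i hi using hex
  have hnZ : (3 * k : ℤ) < n := by exact_mod_cast h3
  have hclose : ∀ x ∈ T, ∀ y ∈ T, ((y.val : ℤ) + n * i y) - ((x.val : ℤ) + n * i x) ≤ k := by
    intro x hx y hy
    by_cases e : x = y
    · rw [e]; simp
    · obtain ⟨j, hj⟩ := adj_int (hT.1 hx hy e).1
      have a1 := abs_le.mp (hi x hx)
      have a2 := abs_le.mp (hi y hy)
      have a3 := abs_le.mp hj
      have a4 : i y - i x - j = 0 := by
        by_contra hne
        rcases lt_or_gt_of_ne hne with h | h
        · have : (n : ℤ) * (i y - i x - j) ≤ n * (-1) :=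
            mul_le_mul_of_nonneg_left (by omega) (by positivity)
          nlinarith
        · have : (n : ℤ) * 1 ≤ n * (i y - i x - j) :=
            mul_le_mul_of_nonneg_left (by omega) (by positivity)
          nlinarith
      have a5 : i y = i x + j := by linarith
      rw [a5]
      nlinarith
  let q : ZMod n → ℤ := fun x => ((x.val / P : ℕ) : ℤ) + R * i x
  have hq : ∀ x : ZMod n, (x.val : ℤ) + n * i x = P * q x + ((x.val % P : ℕ) : ℤ) := by
    intro x
    have a1 : ((P * (x.val / P) + x.val % P : ℕ) : ℤ) = (x.val : ℤ) := by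
      rw [Nat.div_add_mod]
    have a2 : (n : ℤ) = P * R := by exact_mod_cast hn
    simp only [q]
    rw [a2, ← a1]
    simp only [Nat.cast_add, Nat.cast_mul]
    ring
  have hlt : ∀ x : ZMod n, x.val / P < R := by
    intro x
    apply Nat.div_lt_of_lt_mul
    rw [← hn]
    exact ZMod.val_lt x
  have hinj : ∀ x ∈ T, ∀ y ∈ T, q x = q y → x = y := by
    intro x hx y hy h
    by_contra e
    apply (hT.1 hx hy e).2
    refine ⟨hcon x hx, hcon y hy, ?_⟩
    simp only [q] at h
    have a1 : ((x.val / P : ℕ) : ℤ) < R := by exact_mod_cast hlt x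
    have a2 : ((y.val / P : ℕ) : ℤ) < R := by exact_mod_cast hlt y
    have a3 : (0 : ℤ) ≤ ((x.val / P : ℕ) : ℤ) := by positivity
    have a4 : (0 : ℤ) ≤ ((y.val / P : ℕ) : ℤ) := by positivity
    have a5 : i x - i y = 0 := by
      by_contra hne
      rcases lt_or_gt_of_ne hne with h' | h'
      · have : (R : ℤ) * (i x - i y) ≤ R * (-1) :=
          mul_le_mul_of_nonneg_left (by omega) (by positivity)
        nlinarith
      · have : (R : ℤ) * 1 ≤ R * (i x - i y) :=
          mul_le_mul_of_nonneg_left (by omega) (by positivity)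
        nlinarith
    have a6 : i x = i y := by linarith
    rw [a6] at h
    have a7 : ((x.val / P : ℕ) : ℤ) = ((y.val / P : ℕ) : ℤ) := by linarith
    exact_mod_cast a7
  obtain ⟨x, hx, hmin⟩ := Finset.exists_min_image T q ⟨x0, hx0⟩
  obtain ⟨y, hy, hmax⟩ := Finset.exists_max_image T q ⟨x0, hx0⟩
  have hcard : T.card ≤ (Finset.Icc (q x) (q y)).card := by
    apply Finset.card_le_card_of_injOn q
    · intro z hz
      simp only [Finset.coe_Icc, Set.mem_Icc]
      exact ⟨hmin z hz, hmax z hz⟩
    · intro z hz z' hz' h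
      exact hinj z hz z' hz' h
  rw [hT.2, Int.card_Icc] at hcard
  have b1 : (s : ℤ) ≤ q y - q x := by omega
  have b2 := hclose x hx y hy
  rw [hq x, hq y] at b2
  have b3 : ((x.val % P : ℕ) : ℤ) < m := by exact_mod_cast hcon x hx
  have b4 : (0 : ℤ) ≤ ((y.val % P : ℕ) : ℤ) := by positivity
  have b5 : (k : ℤ) + m ≤ s * P := by exact_mod_cast hk
  have b6 : (P : ℤ) * s ≤ P * (q y - q x) := mul_le_mul_of_nonneg_left b1 (by positivity)
  nlinarith

open Classical in
theorem cluster_alpha {n k P m : ℕ} [NeZero n] (hn : 2 * k + 1 ≤ n) (α : ℝ) (hα : α ≤ 1)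
    (hm : (m : ℝ) ≤ 1 + (1 - α) * (2 * k)) :
    IsAlphaSubgraph α (clusterGraph n k P m) (cyclePower n k) := by
  refine ⟨fun x y h => h.1, ?_⟩
  intro v
  rw [ncard_nbr, ncard_nbr]
  set A := univ.filter (fun u => (cyclePower n k).Adj v u) with hA
  set B := univ.filter (fun u => (clusterGraph n k P m).Adj v u) with hB
  have hBA : B ⊆ A := by
    intro u hu
    simp only [hA, hB, Finset.mem_filter, Finset.mem_univ, true_and] at hu ⊢
    exact hu.1
  have a5 := Finset.card_sdiff_add_card_eq_card hBA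
  have a7 : 2 * k ≤ A.card := deg_ge_two_mul n k hn v
  have a7' : 2 * (k : ℝ) ≤ A.card := by exact_mod_cast a7
  have a8 : (1 - α) * (2 * k) ≤ (1 - α) * A.card := mul_le_mul_of_nonneg_left a7' (by linarith)
  have a5' : ((A \ B).card : ℝ) + B.card = A.card := by exact_mod_cast a5
  by_cases hne : (A \ B).Nonempty
  · have hmem : ∀ u ∈ A \ B, v ≠ u ∧ v.val % P < m ∧ u.val % P < m ∧ v.val / P = u.val / P := by
      intro u hu
      simp only [hA, hB, Finset.mem_filter, Finset.mem_univ, true_and, Finset.mem_sdiff] at hu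
      refine ⟨hu.1.ne, ?_⟩
      by_contra hcon
      exact hu.2 ⟨hu.1, hcon⟩
    obtain ⟨u0, hu0⟩ := hne
    have hv := (hmem u0 hu0).2.1
    have a1 : (A \ B).card ≤ ((range m).erase (v.val % P)).card := by
      apply Finset.card_le_card_of_injOn (fun u : ZMod n => u.val % P)
      · intro u hu
        obtain ⟨b1, _, b3, b4⟩ := hmem u hu
        simp only [Finset.coe_erase, Finset.coe_range, Set.mem_sdiff, Set.mem_Iio,
          Set.mem_singleton_iff]
        refine ⟨b3, fun h => b1 ?_⟩
        apply ZMod.val_injective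
        rw [← Nat.div_add_mod v.val P, ← Nat.div_add_mod u.val P, b4, h]
      · intro u hu u' hu' h
        obtain ⟨_, _, _, b4⟩ := hmem u hu
        obtain ⟨_, _, _, b4'⟩ := hmem u' hu'
        simp only at h
        apply ZMod.val_injective
        rw [← Nat.div_add_mod u'.val P, ← Nat.div_add_mod u.val P, ← b4, ← b4', h]
    rw [Finset.card_erase_of_mem (Finset.mem_range.mpr hv), Finset.card_range] at a1
    have a2 : (A \ B).card + 1 ≤ m := by omega
    have a3 : ((A \ B).card : ℝ) + 1 ≤ m := by exact_mod_cast a2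
    nlinarith
  · rw [Finset.not_nonempty_iff_eq_empty] at hne
    rw [hne] at a5'
    simp only [Finset.card_empty, Nat.cast_zero, zero_add] at a5'
    rw [a5']
    have : (0 : ℝ) ≤ A.card := by positivity
    nlinarith

theorem cluster_no_factor {n k P m R s g : ℕ} [NeZero n] (hn : n = P * R) (h3 : 3 * k < n)
    (hk : k + m ≤ s * P) (hP : P = m + g) (hg : s * g < m) :
    ¬ HasCliqueFactor (s + 1) (clusterGraph n k P m) := by
  classical
  rintro ⟨F, hF1, hF2⟩
  let f : ℕ → ℝ := fun r => if r < m then -1 else s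
  have hf : ∀ r, -1 ≤ f r := by
    intro r
    simp only [f]
    split_ifs
    · exact le_rfl
    · have : (0 : ℝ) ≤ s := by positivity
      linarith
  have h1 : ∀ T ∈ F, 0 ≤ ∑ x ∈ T, f (x.val % P) := by
    intro T hT
    obtain ⟨x, hx, hxm⟩ := cluster_clique hn h3 hk T (hF1 T hT)
    rw [← Finset.add_sum_erase T _ hx]
    have a1 : f (x.val % P) = s := by simp only [f]; rw [if_neg (by omega)]
    have a2 : ∑ y ∈ T.erase x, (-1 : ℝ) ≤ ∑ y ∈ T.erase x, f (y.val % P) :=
      Finset.sum_le_sum (fun y _ => hf _)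
    rw [Finset.sum_const, Finset.card_erase_of_mem hx, (hF1 T hT).2] at a2
    simp only [Nat.add_sub_cancel, nsmul_eq_mul] at a2
    linarith
  have hfin : F.Finite := Set.toFinite F
  have h2 : (univ : Finset (ZMod n)) = hfin.toFinset.biUnion id := by
    symm
    rw [Finset.eq_univ_iff_forall]
    intro v
    obtain ⟨T, ⟨hT1, hT2⟩, _⟩ := hF2 v
    exact Finset.mem_biUnion.mpr ⟨T, hfin.mem_toFinset.mpr hT1, hT2⟩
  have h4 : 0 ≤ ∑ x : ZMod n, f (x.val % P) := by
    rw [h2, Finset.sum_biUnion]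
    · exact Finset.sum_nonneg (fun T hT => h1 T (hfin.mem_toFinset.mp hT))
    · intro T hT T' hT' hne
      simp only [Function.onFun, id]
      rw [Finset.disjoint_left]
      intro v hv hv'
      obtain ⟨T0, _, hu⟩ := hF2 v
      exact hne ((hu T ⟨hfin.mem_toFinset.mp hT, hv⟩).trans
        (hu T' ⟨hfin.mem_toFinset.mp hT', hv'⟩).symm)
  rw [sum_zmod_val n (fun r => f (r % P))] at h4
  have h5 : ∑ x ∈ range n, f (x % P) = R * ∑ x ∈ range P, f x := by
    rw [← sum_mod_range, ← hn]
  have h6 : ∑ x ∈ range P, f x = -(m : ℝ) + g * s := by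
    rw [hP, Finset.sum_range_add]
    congr 1
    · rw [Finset.sum_congr rfl (g := fun _ => (-1 : ℝ))]
      · simp
      · intro x hx
        simp only [f]
        rw [if_pos (Finset.mem_range.mp hx)]
    · rw [Finset.sum_congr rfl (g := fun _ => (s : ℝ))]
      · simp
      · intro x hx
        simp only [f]
        rw [if_neg (by omega)]
  rw [h5, h6] at h4
  have h7 : (s : ℝ) * g < m := by exact_mod_cast hg
  have h8 : (0 : ℝ) < R := by
    have : 0 < R := by
      rcases Nat.eq_zero_or_pos R with h | h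
      · rw [h] at hn; omega
      · exact h
    exact_mod_cast this
  nlinarith

theorem not_mem_goodSet {t : ℕ} (ht : 2 ≤ t) (α : ℝ)
    (hα : α ≤ 1 - 1 / (2 * ((t : ℝ) - 1))) : α ∉ goodSet t := by
  obtain ⟨s, rfl⟩ : ∃ s, t = s + 1 := ⟨t - 1, by omega⟩
  have hs : 1 ≤ s := by omega
  rintro ⟨_, k0, h⟩
  set g : ℕ := k0 + 1 with hg
  have hsR : (1 : ℝ) ≤ s := by exact_mod_cast hs
  have e1 : ((s + 1 : ℕ) : ℝ) - 1 = s := by push_cast; ring
  rw [e1] at hα
  have hpos : 0 < 1 / (2 * (s : ℝ)) := by positivity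
  have hn0 : ((s + 1) * g + 1) * (3 * (s + 1)) ≠ 0 := by positivity
  have : NeZero (((s + 1) * g + 1) * (3 * (s + 1))) := ⟨hn0⟩
  have h3 : 3 * (s * s * g) < ((s + 1) * g + 1) * (3 * (s + 1)) := by nlinarith
  have hk0 : g ≤ s * s * g := Nat.le_mul_of_pos_left _ (by positivity)
  refine cluster_no_factor (n := ((s + 1) * g + 1) * (3 * (s + 1))) (k := s * s * g)
    (P := (s + 1) * g + 1) (m := s * g + 1) (R := 3 * (s + 1)) (s := s) (g := g) rfl h3
    (by nlinarith) (by ring) (by omega) ?_
  refine h (s * s * g) (by omega) (by omega) _ (by omega) ⟨((s + 1) * g + 1) * 3, by ring⟩ _ ?_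
  refine cluster_alpha (by omega) α (by linarith) ?_
  push_cast
  have a1 : 1 / (2 * (s : ℝ)) * (2 * (s * s * g)) = s * g := by field_simp
  have a2 : 1 / (2 * (s : ℝ)) * (2 * (s * s * g)) ≤ (1 - α) * (2 * (s * s * g)) :=
    mul_le_mul_of_nonneg_right (by linarith) (by positivity)
  linarith

theorem goodSet_eq {t : ℕ} (ht : 2 ≤ t) (hLD : LineDual t) :
    goodSet t = Set.Ioi (1 - 1 / (2 * ((t : ℝ) - 1))) := by
  ext α
  constructor
  · intro h
    by_contra hcon
    exact not_mem_goodSet ht α (not_lt.mp hcon) h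
  · exact mem_goodSet ht hLD α

end Pool.Agent.Lib.MP_8870f3_co
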